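import Pool.Agent.H860EM.Main

set_option autoImplicit false

open Set Topology

namespace H860EM

variable {K : Set Op} {X : Om}

/-! ### preserving two sides -/

/-- for each side `b`, every enumerated family of finite sets with members as far out as we like
has a member inside `A b` -/
def P2 (K : Set Op) (A : Bool → Set ℕ) (X : Om) : Prop :=
  ∀ b : Bool, ∀ W ∈ K, Ess 1 (val W X) → ∃ R : Finset ℕ, X ∈ W [R] ∧ ∀ x ∈ R, x ∈ A b

variable {A : Bool → Set ℕ}

lemma ess_one {W : Op} : Ess 1 (val W X) ↔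
    ∀ n : ℕ, ∃ R : Finset ℕ, (∀ x ∈ R, n < x) ∧ X ∈ W [R] := by
  constructor
  · intro h n
    obtain ⟨R, h1, h2⟩ := h [] (Or.inl rfl) (by simp) n
    exact ⟨R, h1, val_cons.1 h2⟩
  · intro h s _ hl n
    have : s = [] := List.eq_nil_of_length_eq_zero (by omega)
    subst this
    obtain ⟨R, h1, h2⟩ := h n
    exact ⟨R, h1, val_cons.2 h2⟩

lemma sub_singleton {t : Node} {R : Finset ℕ} (h : Sub t [R]) : ∃ R', t = [R'] ∧ R' ⊆ R := by
  obtain ⟨h1, h2⟩ := h
  obtain ⟨R', rfl⟩ := List.length_eq_one_iff.1 (by simpa using h1)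
  exact ⟨R', rfl, by simpa [blk] using h2 0⟩

lemma p2_pre (hX : P2 K A X) {Φ : Om → Om} (hK : ∀ W ∈ K, opPre Φ W ∈ K) : P2 K A (Φ X) := by
  intro b W hW hE
  exact hX b (opPre Φ W) (hK W hW) hE

lemma p2_wkl_step (hK : Good K) (hX : P2 K A X) {O : Op} (hO : O ∈ K)
    (hne : ∃ P, jn X P ∉ O []) (b : Bool) {W : Op} (hW : W ∈ K) :
    ∃ O' ∈ K, O [] ⊆ O' [] ∧ (∃ P, jn X P ∉ O' []) ∧ ∀ P, jn X P ∉ O' [] →
      Ess 1 (val W (jn X P)) → ∃ R : Finset ℕ, jn X P ∈ W [R] ∧ ∀ x ∈ R, x ∈ A b := by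
  by_cases h : ∀ P, jn X P ∉ O [] → Ess 1 (val W (jn X P))
  · obtain ⟨R, hR, hRA⟩ := hX b (opWkl O W) (hK.wkl O hO W hW) (ess_opWkl hK hO hW h)
    obtain ⟨P0, hP0⟩ := hne
    rcases hR P0 with h' | ⟨t, ht, h'⟩
    · exact absurd h' hP0
    obtain ⟨R', rfl, hR'⟩ := sub_singleton ht
    obtain ⟨b, hb⟩ := mem_of_not_cylC (hK.isOpen W hW) h'
    refine ⟨opCyl (cod P0 b) b O, hK.cyl _ _ O hO, subset_union_left, ⟨P0, ?_⟩, ?_⟩
    · rintro (h' | h')
      · exact hP0 h'
      · exact self_not_cylC X P0 b h'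
    · intro P hP _
      exact ⟨R', hb P fun h' => hP (Or.inr h'), fun x hx => hRA x (hR' hx)⟩
  · push Not at h
    obtain ⟨P0, hP0, h0⟩ := h
    unfold Ess at h0
    push Not at h0
    obtain ⟨s, hs, hl, n, hn⟩ := h0
    obtain ⟨b, hb⟩ := val_of_not_cylC (hK.isOpen W hW) hs
    refine ⟨opNeg (cod P0 b) b s n O W, hK.neg _ _ _ _ O hO W hW,
      subset_union_left.trans subset_union_left, ⟨P0, ?_⟩, ?_⟩
    · rintro ((h' | h') | ⟨R, hR, h'⟩)
      · exact hP0 h'
      · exact self_not_cylC X P0 b h'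
      · exact hn R hR (val_cons.2 h')
    · intro P hP hE
      exfalso
      obtain ⟨R, hR, h'⟩ := hE s (hb P fun h' => hP (Or.inl (Or.inr h'))) hl n
      exact hP (Or.inr ⟨R, hR, val_cons.1 h'⟩)

theorem p2_wkl (hK : Good K) (hX : P2 K A X) {O : Op} (hO : O ∈ K)
    (hne : ∃ P, jn X P ∉ O []) : ∃ P, jn X P ∉ O [] ∧ P2 K A (jn X P) := by
  have : Countable K := hK.ctbl.to_subtype
  let _ : Encodable K := Encodable.ofCountable K
  let D : Bool × K → Order.Cofinal (WC K X) := fun i =>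
    { carrier := {c | ∀ P, jn X P ∉ c.O [] → Ess 1 (val i.2.1 (jn X P)) →
        ∃ R : Finset ℕ, jn X P ∈ i.2.1 [R] ∧ ∀ x ∈ R, x ∈ A i.1}
      isCofinal := by
        intro c
        obtain ⟨O', h1, h2, h3, h4⟩ := p2_wkl_step hK hX c.mem c.ne i.1 i.2.2
        exact ⟨⟨O', h1, h3⟩, h4, h2⟩ }
  let seq := Order.sequenceOfCofinals (⟨O, hO, hne⟩ : WC K X) D
  have hmono : Monotone seq := Order.sequenceOfCofinals.monotone _ _
  let C : ℕ → Set Om := fun n => {P | jn X P ∉ (seq n).O []}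
  have hC : (⋂ n, C n).Nonempty := by
    refine IsCompact.nonempty_iInter_of_sequence_nonempty_isCompact_isClosed C ?_ ?_ ?_ ?_
    · intro n P hP hP'
      exact hP (hmono (Nat.le_succ n) hP')
    · intro n
      exact (seq n).ne
    · have : IsClosed (C 0) :=
        ((hK.isOpen _ (seq 0).mem []).preimage (continuous_jn_right X)).isClosed_compl
      exact this.isCompact
    · intro n
      exact ((hK.isOpen _ (seq n).mem []).preimage (continuous_jn_right X)).isClosed_compl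
  obtain ⟨P, hP⟩ := hC
  rw [mem_iInter] at hP
  refine ⟨P, hP 0, ?_⟩
  intro b W hW hE
  have h5 := Order.sequenceOfCofinals.encode_mem (⟨O, hO, hne⟩ : WC K X) D (b, ⟨W, hW⟩)
  exact h5 P (hP _) hE

lemma p2_comp (hK : Good K) (hX : P2 K A X) {C : Set ℕ} (hC : Cf K X (chi C)) :
    P2 K A (jn X (chs C)) := by
  obtain ⟨V, hV, hV'⟩ := hC
  intro b W hW hE
  have key : ∀ s, X ∈ opComp W V s ↔ jn X (chs C) ∈ W s := by
    intro s
    constructor
    · rintro ⟨b, A, h1, h2⟩
      refine h2 (chs C) fun k hk => ?_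
      have h3 := h1 k hk
      rw [hV', mem_chi] at h3
      by_cases hkA : k ∈ A
      · rw [decide_eq_true hkA]
        rw [if_pos hkA] at h3
        rcases h3 with h3 | h3
        · exact chs_true.2 h3.2
        · exact absurd h3.1 one_ne_zero
      · rw [decide_eq_false hkA, Bool.eq_false_iff]
        intro hkC
        rw [if_neg hkA] at h3
        rcases h3 with h3 | h3
        · exact absurd h3.1 zero_ne_one
        · exact h3.2 (chs_true.1 hkC)
    · intro h
      obtain ⟨b, hb⟩ := bits_of_isOpen (hK.isOpen W hW s) h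
      refine ⟨b, cod (chs C) b, fun k hk => ?_, fun P hP => hb _ (jn_agree (fun _ _ => rfl)
        fun k hk => ?_)⟩
      · rw [hV', mem_chi]
        by_cases hkC : k ∈ C
        · have : k ∈ cod (chs C) b := by simp [cod, hk, chs_true.2 hkC]
          rw [if_pos this]
          exact Or.inl ⟨rfl, hkC⟩
        · have : k ∉ cod (chs C) b := by
            simp only [cod, Finset.mem_filter, not_and]
            intro _ h
            exact hkC (chs_true.1 h)
          rw [if_neg this]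
          exact Or.inr ⟨rfl, hkC⟩
      · rw [hP k hk, cod_spec _ b hk]
  rw [ess_one] at hE
  obtain ⟨R, h1, h2⟩ := hX b (opComp W V) (hK.comp W hW V hV) (ess_one.2 fun n => by
    obtain ⟨R, h1, h2⟩ := hE n
    exact ⟨R, h1, (key _).2 h2⟩)
  exact ⟨R, (key _).1 h1, h2⟩

/-! ### the generic sequence of rationals, two sides -/

/-- the elements whose limit colour is `b` -/
def side (v : ℕ → ℚ) (b : Bool) : Set ℕ := {x | ∃ n0, ∀ y, n0 ≤ y → fv v x y = b}

lemma base2_step {W : Op} (hW : ∀ s, IsOpen (W s)) (c : BC) (b : Bool) :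
    ∃ c', c ≤ c' ∧ ∀ v, Sat c' v → Ess 1 (val W (orc v)) →
      ∃ R : Finset ℕ, orc v ∈ W [R] ∧ ∀ x ∈ R, x ∈ side v b := by
  set mid := (c.p + c.q) / 2 with hmid
  have h1 : c.p < mid := by have := c.lt; rw [hmid]; linarith
  have h2 : mid < c.q := by have := c.lt; rw [hmid]; linarith
  cases b with
  | false =>
    let c1 : BC := ⟨c.s, c.v, c.p, mid, h1⟩
    have hc1 : c ≤ c1 := ⟨le_rfl, fun _ _ => rfl, fun x h3 h4 => absurd h4 (by
      show ¬ x < c.s; omega), le_rfl, h2.le⟩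
    by_cases h : ∃ v, Sat c1 v ∧ ∃ R : Finset ℕ, (∀ x ∈ R, c.s < x) ∧ orc v ∈ W [R]
    · obtain ⟨v, hv, R, hR, hm⟩ := h
      obtain ⟨k, hk⟩ := orc_bits hW hm
      let s' := max c.s (max k (R.sup id + 1))
      refine ⟨⟨s', v, mid, c.q, h2⟩, ⟨le_max_left _ _, hv.1, ?_, h1.le, le_rfl⟩, ?_⟩
      · intro x hx _
        have := hv.2 x hx
        exact ⟨this.1, this.2.trans h2⟩
      · intro v' hv' _
        obtain ⟨k1, k2⟩ := hv'
        simp only at k1 k2
        refine ⟨R, hk v' fun x hx => k1 x (lt_of_lt_of_le hx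
          ((le_max_left _ _).trans (le_max_right _ _))), fun x hx => ⟨s', fun y hy => ?_⟩⟩
        have hxs : x < s' := by
          have : x ≤ R.sup id := Finset.le_sup (f := id) hx
          exact lt_of_lt_of_le (Nat.lt_succ_of_le this)
            ((le_max_right _ _).trans (le_max_right _ _))
        have e1 := (hv.2 x (hR x hx).le).2
        have e2 := (k2 y hy).1
        unfold fv
        refine decide_eq_false ?_
        rw [k1 x hxs, not_lt]
        exact (e1.trans e2).le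
    · refine ⟨c1, hc1, fun v hv hE => ?_⟩
      exfalso
      obtain ⟨R, hR, hm⟩ := ess_one.1 hE c.s
      exact h ⟨v, hv, R, hR, hm⟩
  | true =>
    let c1 : BC := ⟨c.s, c.v, mid, c.q, h2⟩
    have hc1 : c ≤ c1 := ⟨le_rfl, fun _ _ => rfl, fun x h3 h4 => absurd h4 (by
      show ¬ x < c.s; omega), h1.le, le_rfl⟩
    by_cases h : ∃ v, Sat c1 v ∧ ∃ R : Finset ℕ, (∀ x ∈ R, c.s < x) ∧ orc v ∈ W [R]
    · obtain ⟨v, hv, R, hR, hm⟩ := h
      obtain ⟨k, hk⟩ := orc_bits hW hm
      let s' := max c.s (max k (R.sup id + 1))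
      refine ⟨⟨s', v, c.p, mid, h1⟩, ⟨le_max_left _ _, hv.1, ?_, le_rfl, h2.le⟩, ?_⟩
      · intro x hx _
        have := hv.2 x hx
        exact ⟨h1.trans this.1, this.2⟩
      · intro v' hv' _
        obtain ⟨k1, k2⟩ := hv'
        simp only at k1 k2
        refine ⟨R, hk v' fun x hx => k1 x (lt_of_lt_of_le hx
          ((le_max_left _ _).trans (le_max_right _ _))), fun x hx => ⟨s', fun y hy => ?_⟩⟩
        have hxs : x < s' := by
          have : x ≤ R.sup id := Finset.le_sup (f := id) hx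
          exact lt_of_lt_of_le (Nat.lt_succ_of_le this)
            ((le_max_right _ _).trans (le_max_right _ _))
        have e1 := (hv.2 x (hR x hx).le).1
        have e2 := (k2 y hy).2
        unfold fv
        refine decide_eq_true ?_
        rw [k1 x hxs]
        exact e2.trans e1
    · refine ⟨c1, hc1, fun v hv hE => ?_⟩
      exfalso
      obtain ⟨R, hR, hm⟩ := ess_one.1 hE c.s
      exact h ⟨v, hv, R, hR, hm⟩

theorem exists_base2 {K : Set Op} (hK : Good K) : ∃ v : ℕ → ℚ, P2 K (side v) (orc v) := by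
  have : Countable K := hK.ctbl.to_subtype
  let _ : Encodable K := Encodable.ofCountable K
  let D : ℕ × Bool × K → Order.Cofinal BC := fun i =>
    { carrier := {c | i.1 ≤ c.s ∧ ∀ v, Sat c v → Ess 1 (val i.2.2.1 (orc v)) →
        ∃ R : Finset ℕ, orc v ∈ i.2.2.1 [R] ∧ ∀ x ∈ R, x ∈ side v i.2.1}
      isCofinal := by
        intro c
        obtain ⟨c1, h1, h2⟩ := base2_step (hK.isOpen i.2.2.1 i.2.2.2) c i.2.1
        obtain ⟨c2, h3, h4⟩ := base_grow c1 i.1
        exact ⟨c2, ⟨h4, fun v hv => h2 v (hv.of_le h3)⟩, h1.trans h3⟩ }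
  let seq := Order.sequenceOfCofinals (⟨0, fun _ => 0, 0, 1, by norm_num⟩ : BC) D
  have hmono : Monotone seq := Order.sequenceOfCofinals.monotone _ _
  have hbig : ∀ x : ℕ, ∃ n, x < (seq n).s := by
    intro x
    have h5 := Order.sequenceOfCofinals.encode_mem
      (⟨0, fun _ => 0, 0, 1, by norm_num⟩ : BC) D (x + 1, false, ⟨opZero, hK.zero⟩)
    exact ⟨_, h5.1⟩
  choose g hg using hbig
  have hagree : ∀ n k x, x < (seq n).s → x < (seq k).s → (seq n).v x = (seq k).v x := by
    intro n k x hn hk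
    rcases le_total n k with h | h
    · exact ((hmono h).2.1 x hn).symm
    · exact (hmono h).2.1 x hk
  have hsat : ∀ n, Sat (seq n) (fun x => (seq (g x)).v x) := by
    intro n
    refine ⟨fun x hx => hagree _ _ x (hg x) hx, fun x hx => ?_⟩
    have h1 : x < (seq (max n (g x))).s := lt_of_lt_of_le (hg x) (hmono (le_max_right _ _)).1
    have h2 := (hmono (le_max_left n (g x))).2.2.1 x hx h1
    show (seq n).p < (seq (g x)).v x ∧ (seq (g x)).v x < (seq n).q
    rw [hagree _ _ x (hg x) h1]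
    exact h2
  refine ⟨fun x => (seq (g x)).v x, ?_⟩
  intro b W hW hE
  have h5 := Order.sequenceOfCofinals.encode_mem
      (⟨0, fun _ => 0, 0, 1, by norm_num⟩ : BC) D (0, b, ⟨W, hW⟩)
  exact h5.2 _ (hsat _) hE

end H860EM
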