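import Pool.Agent.H860EM.Av1

set_option autoImplicit false

open Set Topology

namespace H860EM

variable {K : Set Op} {X : Om} {A : Bool → Set ℕ}

/-- `B` avoids the pattern of 1302 for `g` -/
def Av (g : ℕ → ℕ → Bool) (B : Set ℕ) : Prop :=
  ∀ a ∈ B, ∀ b ∈ B, ∀ c ∈ B, ∀ d ∈ B, a < b → b < c → c < d →
    ¬ (g a b = false ∧ g a c = true ∧ g a d = false ∧ g b c = true ∧ g b d = true ∧ g c d = false)

lemma Av.mono {g : ℕ → ℕ → Bool} {B B' : Set ℕ} (h : Av g B') (hB : B ⊆ B') : Av g B :=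
  fun a ha b hb c hc d hd => h a (hB ha) b (hB hb) c (hB hc) d (hB hd)

lemma isOpen_av {Φ : Om → Om} (hΦ : Continuous Φ) (B : Finset ℕ) :
    IsOpen {Z | Av (gof (Φ Z)) (B : Set ℕ)} := by
  rw [isOpen_iff_mem_nhds]
  intro Z hZ
  have h1 : IsOpen {Z' | ∀ x ∈ B, ∀ y ∈ B, gof (Φ Z') x y = gof (Φ Z) x y} :=
    isOpen_ball _ fun x _ => isOpen_ball _ fun y _ =>
      (isOpen_discrete {gof (Φ Z) x y}).preimage (continuous_gof hΦ x y)
  refine Filter.mem_of_superset (h1.mem_nhds fun x _ y _ => rfl) fun Z' hZ' => ?_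
  intro a ha b hb c hc d hd hab hbc hcd
  rw [hZ' a ha b hb, hZ' a ha c hc, hZ' a ha d hd, hZ' b hb c hc, hZ' b hb d hd, hZ' c hc d hd]
  exact hZ a ha b hb c hc d hd hab hbc hcd

def opAV (F : Finset ℕ) (W : Op) : Op := fun s =>
  {Z | ∃ (M R : Finset ℕ), s = [R] ∧ (∀ x ∈ M, rt Z x = true) ∧
    ∀ D ∈ M.powerset, ∃ κ : Finset ℕ, ∃ E : Finset ℕ, E ⊆ M ∧
      (∀ x ∈ E, decide (x ∈ D) = decide (0 ∈ κ)) ∧ Av (gof (lf Z)) (E : Set ℕ) ∧
      ∃ R' : Finset ℕ, R' ⊆ R ∧ jn (lf Z) (chf (F ∪ E)) ∈ W [R']}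

lemma isOpen_opAV {W : Op} (hW : ∀ s, IsOpen (W s)) (F : Finset ℕ) (s : Node) :
    IsOpen (opAV F W s) := by
  refine isOpen_ex fun M => isOpen_ex fun R => IsOpen.and isOpen_const (IsOpen.and ?_ ?_)
  · exact isOpen_ball M fun x _ => isOpen_bit continuous_rt x true
  · refine isOpen_ball _ fun D _ => isOpen_ex fun κ => isOpen_ex fun E =>
      IsOpen.and isOpen_const (IsOpen.and isOpen_const (IsOpen.and (isOpen_av continuous_lf E) ?_))
    refine isOpen_ex fun R' => IsOpen.and isOpen_const ?_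
    exact (hW [R']).preimage ((continuous_jn_left _).comp continuous_lf)

def opAN (F : Finset ℕ) (n : ℕ) (W : Op) : Op := fun _ =>
  {Z | ∃ κ : Finset ℕ, ∃ E : Finset ℕ, (∀ x ∈ E, rt (lf Z) x = true) ∧
    (∀ x ∈ E, rt Z (Nat.pair x 0) = decide (0 ∈ κ)) ∧ Av (gof (lf (lf Z))) (E : Set ℕ) ∧
    ∃ R' : Finset ℕ, (∀ x ∈ R', n < x) ∧ jn (lf (lf Z)) (chf (F ∪ E)) ∈ W [R']}

lemma isOpen_opAN {W : Op} (hW : ∀ s, IsOpen (W s)) (F : Finset ℕ) (n : ℕ) (s : Node) :
    IsOpen (opAN F n W s) := by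
  refine isOpen_ex fun κ => isOpen_ex fun E => IsOpen.and ?_ (IsOpen.and ?_ (IsOpen.and ?_ ?_))
  · exact isOpen_ball E fun x _ => isOpen_bit (continuous_rt.comp continuous_lf) x true
  · exact isOpen_ball E fun x _ => isOpen_bit continuous_rt _ _
  · exact isOpen_av (continuous_lf.comp continuous_lf) E
  · refine isOpen_ex fun R' => IsOpen.and isOpen_const ?_
    exact (hW [R']).preimage ((continuous_jn_left _).comp (continuous_lf.comp continuous_lf))

structure Good2 (K : Set Op) : Prop extends Good K where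
  aV : ∀ F, ∀ W ∈ K, opAV F W ∈ K
  aN : ∀ F n, ∀ W ∈ K, opAN F n W ∈ K

lemma good_of_closed {K : Set Op} (h0 : opZero ∈ K) (h1 : K.Countable)
    (h2 : ∀ i : Ix, ∀ a ∈ K, ∀ b ∈ K, ixOp i a b ∈ K) (h3 : ∀ W ∈ K, ∀ s, IsOpen (W s)) :
    Good K :=
    { ctbl := h1
      isOpen := h3
      wkl := fun O hO W hW => h2 .wkl O hO W hW
      cyl := fun A m O hO => h2 (.cyl A m) O hO O hO
      neg := fun A m t n O hO W hW => h2 (.neg A m t n) O hO W hW
      preLf := fun W hW => h2 .preLf W hW W hW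
      prePhi := fun U ρ b W hW => h2 (.prePhi U ρ b) W hW W hW
      prePsi := fun κ k W hW => h2 (.prePsi κ k) W hW W hW
      emV := fun F m0 N k W hW => h2 (.emV F m0 N k) W hW W hW
      emN := fun T k n W hW => h2 (.emN T k n) W hW W hW
      comp := fun W hW V hV => h2 .comp W hW V hV
      sing := fun V hV => h2 .sing V hV V hV
      zero := h2 .zero _ h0 _ h0
      succ := h2 .succ _ h0 _ h0
      left := h2 .left _ h0 _ h0
      right := h2 .right _ h0 _ h0
      read := h2 .read _ h0 _ h0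
      read0 := h2 .read0 _ h0 _ h0
      pair := fun V hV W hW => h2 .pair V hV W hW
      cmp := fun V hV W hW => h2 .cmp V hV W hW
      prec := fun V hV W hW => h2 .prec V hV W hW
      rfind := fun V hV => h2 .rfind V hV V hV
      join := fun V hV W hW => h2 .join V hV W hW }

def ixOp2 : Ix ⊕ (Finset ℕ ⊕ (Finset ℕ × ℕ)) → Op → Op → Op
  | .inl i, V, W => ixOp i V W
  | .inr (.inl F), W, _ => opAV F W
  | .inr (.inr (F, n)), W, _ => opAN F n W

theorem exists_good2 : ∃ K : Set Op, Good2 K := by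
  obtain ⟨K, h0, h1, h2, h3⟩ := exists_closure ixOp2 opZero (fun W => ∀ s, IsOpen (W s))
    isOpen_opZero (by
      intro i V W hV hW s
      rcases i with i | F | ⟨F, n⟩
      · exact ixOp_open i V W hV hW s
      · exact isOpen_opAV hV F s
      · exact isOpen_opAN hV F n s)
  exact ⟨K, { toGood := good_of_closed h0 h1 (fun i => h2 (.inl i)) h3
              aV := fun F W hW => h2 (.inr (.inl F)) W hW W hW
              aN := fun F n W hW => h2 (.inr (.inr (F, n))) W hW W hW }⟩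

lemma restrict2 (hK : Good K) {Y : Set ℕ} (hY : Y.Infinite) (hf : P2 K A (jn X (chs Y)))
    (U : Finset ℕ) (b : ℕ) : ∃ ρ : Finset ℕ,
      {z | z ∈ Y ∧ b < z ∧ ∀ x ∈ U, gof X x z = decide (x ∈ ρ)}.Infinite ∧
      P2 K A (jn X (chs {z | z ∈ Y ∧ b < z ∧ ∀ x ∈ U, gof X x z = decide (x ∈ ρ)})) := by
  have hY' : {z | z ∈ Y ∧ b < z}.Infinite := by
    have : (Y \ (Finset.range (b + 1) : Set ℕ)).Infinite := hY.sdiff (Finset.finite_toSet _)
    refine this.mono ?_
    rintro z ⟨h1, h2⟩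
    refine ⟨h1, ?_⟩
    simp only [Finset.coe_range, mem_Iio, not_lt] at h2
    omega
  obtain ⟨ρ, -, hρ⟩ := infinite_piece hY' U.powerset
    (fun ρ z => ∀ x ∈ U, gof X x z = decide (x ∈ ρ)) (by
      intro z _
      refine ⟨U.filter fun x => gof X x z = true, ?_, ?_⟩
      · exact Finset.mem_powerset.2 (Finset.filter_subset _ _)
      · intro x hx
        simp [hx])
  have he : {z | z ∈ Y ∧ b < z ∧ ∀ x ∈ U, gof X x z = decide (x ∈ ρ)}
      = {z | z ∈ {z | z ∈ Y ∧ b < z} ∧ ∀ x ∈ U, gof X x z = decide (x ∈ ρ)} := by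
    ext z
    simp only [mem_ofPred_eq, and_assoc]
  refine ⟨ρ, ?_, ?_⟩
  · rw [he]; exact hρ
  · rw [← phi_eq]
    exact p2_pre hf (hK.prePhi U ρ b)

structure Cond2 (K : Set Op) (A : Bool → Set ℕ) (X : Om) where
  F : Finset ℕ
  Y : Set ℕ
  inf : Y.Infinite
  lt : ∀ x ∈ F, ∀ y ∈ Y, x < y
  hom : ∀ x ∈ F, ∀ y ∈ Y, ∀ z ∈ Y, gof X x y = gof X x z
  av : ∀ z ∈ Y, Av (gof X) (insert z (F : Set ℕ))
  fair : P2 K A (jn X (chs Y))

instance : Preorder (Cond2 K A X) where
  le a b := a.F ⊆ b.F ∧ (∀ x ∈ b.F, x ∈ a.F ∨ x ∈ a.Y) ∧ b.Y ⊆ a.Y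
  le_refl a := ⟨Finset.Subset.refl _, fun _ h => Or.inl h, Subset.rfl⟩
  le_trans a b c := by
    rintro ⟨h1, h2, h3⟩ ⟨k1, k2, k3⟩
    refine ⟨h1.trans k1, fun x hx => ?_, k3.trans h3⟩
    rcases k2 x hx with h | h
    · exact h2 x h
    · exact Or.inr (h3 h)

def Cpt2 (c : Cond2 K A X) (G : Set ℕ) : Prop :=
  (c.F : Set ℕ) ⊆ G ∧ ∀ x ∈ G, x ∈ c.F ∨ x ∈ c.Y

lemma Cpt2.of_le {a b : Cond2 K A X} (h : a ≤ b) {G : Set ℕ} (hG : Cpt2 b G) : Cpt2 a G := by
  obtain ⟨h1, h2, h3⟩ := h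
  obtain ⟨k1, k2⟩ := hG
  refine ⟨fun x hx => k1 (h1 hx), fun x hx => ?_⟩
  rcases k2 x hx with h | h
  · exact h2 x h
  · exact Or.inr (h3 h)

/-- adding a block with a constant limit colour keeps the pattern away -/
lemma av_block (c : Cond2 K A X) {E : Finset ℕ} {z : ℕ} {κ : Bool} (hE : ∀ x ∈ E, x ∈ c.Y)
    (hz : z ∈ c.Y) (hEz : ∀ x ∈ E, x < z) (hcol : ∀ x ∈ E, gof X x z = κ)
    (hav : Av (gof X) (E : Set ℕ)) : Av (gof X) (insert z ((c.F ∪ E : Finset ℕ) : Set ℕ)) := by
  intro a ha b hb d hd e he hab hbd hde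
  have key : ∀ x, x ∈ (insert z ((c.F ∪ E : Finset ℕ) : Set ℕ)) → x = z ∨ x ∈ c.F ∨ x ∈ E := by
    intro x hx
    rcases hx with hx | hx
    · exact Or.inl hx
    · exact Or.inr (Finset.mem_union.1 hx)
  have hY : ∀ x, x = z ∨ x ∈ c.F ∨ x ∈ E → x ∈ c.F ∨ x ∈ c.Y := by
    rintro x (h | h | h)
    · rw [h]; exact Or.inr hz
    · exact Or.inl h
    · exact Or.inr (hE x h)
  have hle : ∀ x, x = z ∨ x ∈ c.F ∨ x ∈ E → x ≤ z := by
    rintro x (h | h | h)
    · exact h.le
    · exact (c.lt x h z hz).le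
    · exact (hEz x h).le
  have ka := key a ha
  have kb := key b hb
  have kd := key d hd
  have ke := key e he
  rintro ⟨h1, h2, h3, h4, h5, h6⟩
  rcases hY a ka with aF | aY
  · rcases hY b kb with bF | bY
    · rcases hY d kd with dF | dY
      · rcases hY e ke with eF | eY
        · exact c.av z hz a (Or.inr aF) b (Or.inr bF) d (Or.inr dF) e (Or.inr eF) hab hbd hde
            ⟨h1, h2, h3, h4, h5, h6⟩
        · exact c.av e eY a (Or.inr aF) b (Or.inr bF) d (Or.inr dF) e (Or.inl rfl) hab hbd hde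
            ⟨h1, h2, h3, h4, h5, h6⟩
      · rcases hY e ke with eF | eY
        · have := c.lt e eF d dY; omega
        · have := c.hom a aF d dY e eY
          rw [h2, h3] at this
          exact Bool.noConfusion this
    · rcases hY d kd with dF | dY
      · have := c.lt d dF b bY; omega
      · have := c.hom a aF b bY d dY
        rw [h1, h2] at this
        exact Bool.noConfusion this
  · -- all four in the reservoir
    have notF : ∀ x, a < x → x ∉ c.F := fun x hx hxF => by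
      have := c.lt x hxF a aY; omega
    have haF : a ∉ c.F := fun h => by have := c.lt a h a aY; omega
    have hne : ∀ x, x = z ∨ x ∈ c.F ∨ x ∈ E → x ∉ c.F → x < z → x ∈ E := by
      rintro x (h | h | h) h' h''
      · omega
      · exact absurd h h'
      · exact h
    have hez := hle e ke
    have aE := hne a ka haF (by omega)
    have bE := hne b kb (notF b hab) (by omega)
    have dE := hne d kd (notF d (by omega)) (by omega)
    rcases ke with ke | ke | ke
    · rw [ke] at h3 h5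
      rw [hcol a aE] at h3
      rw [hcol b bE] at h5
      rw [h3] at h5
      exact Bool.noConfusion h5
    · exact notF e (by omega) ke
    · exact hav a aE b bE d dE e ke hab hbd hde ⟨h1, h2, h3, h4, h5, h6⟩

lemma av_step (hK : Good2 K) (c : Cond2 K A X) (b : Bool) {W : Op} (hW : W ∈ K) :
    ∃ c', c ≤ c' ∧ ∀ G : Set ℕ, Cpt2 c' G → Av (gof X) G → Ess 1 (val W (jn X (chs G))) →
      ∃ R : Finset ℕ, jn X (chs G) ∈ W [R] ∧ ∀ x ∈ R, x ∈ A b := by
  classical
  by_cases hE : Ess 1 (val (opAV c.F W) (jn X (chs c.Y)))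
  · obtain ⟨R, ⟨M, R0, hR0, hM, hD⟩, hRA⟩ := c.fair b _ (hK.aV c.F W hW) hE
    have hRR : R0 = R := by simpa using hR0.symm
    subst hRR
    simp only [lf_jn, rt_jn] at hM hD
    obtain ⟨ρ, hρ1, hρ2⟩ := restrict2 hK.toGood c.inf c.fair M (M.sup id)
    set Y1 : Set ℕ := {z | z ∈ c.Y ∧ M.sup id < z ∧ ∀ x ∈ M, gof X x z = decide (x ∈ ρ)} with hY1
    obtain ⟨κ, E, hEM, hEc, hEa, R', hR', hmem⟩ := hD (M.filter fun x => x ∈ ρ)
      (Finset.mem_powerset.2 (Finset.filter_subset _ _))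
    obtain ⟨m, hm⟩ := exists_frc (hK.isOpen W hW [R']) hmem
    obtain ⟨ρ', hρ1', hρ2'⟩ := restrict2 hK.toGood hρ1 hρ2 ∅ m
    set Y2 : Set ℕ := {z | z ∈ Y1 ∧ m < z ∧ ∀ x ∈ (∅ : Finset ℕ), gof X x z = decide (x ∈ ρ')}
      with hY2
    have hY2c : Y2 ⊆ c.Y := fun z hz => hz.1.1
    have hMY : ∀ x ∈ M, x ∈ c.Y := fun x hx => chs_true.1 (hM x hx)
    have hMlt : ∀ x ∈ M, ∀ z ∈ Y2, x < z := fun x hx z hz =>
      lt_of_le_of_lt (Finset.le_sup (f := id) hx) hz.1.2.1
    have hcol : ∀ x ∈ E, ∀ z ∈ Y2, gof X x z = decide (0 ∈ κ) := by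
      intro x hx z hz
      rw [hz.1.2.2 x (hEM hx), ← hEc x hx]
      congr 1
      simp [hEM hx]
    refine ⟨⟨c.F ∪ E, Y2, hρ1', ?_, ?_, ?_, hρ2'⟩, ⟨Finset.subset_union_left, ?_, hY2c⟩, ?_⟩
    · intro x hx z hz
      rcases Finset.mem_union.1 hx with hx | hx
      · exact c.lt x hx z (hY2c hz)
      · exact hMlt x (hEM hx) z hz
    · intro x hx y hy z hz
      rcases Finset.mem_union.1 hx with hx | hx
      · exact c.hom x hx y (hY2c hy) z (hY2c hz)
      · rw [hcol x hx y hy, hcol x hx z hz]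
    · intro z hz
      exact av_block c (fun x hx => hMY x (hEM hx)) (hY2c hz) (fun x hx => hMlt x (hEM hx) z hz)
        (fun x hx => hcol x hx z hz) hEa
    · intro x hx
      rcases Finset.mem_union.1 hx with hx | hx
      · exact Or.inl hx
      · exact Or.inr (hMY x (hEM hx))
    · rintro G ⟨hG1, hG2⟩ _ _
      simp only at hG1 hG2
      refine ⟨R', hm (chs G) fun x hx => ?_, fun x hx => hRA x (hR' hx)⟩
      by_cases hxA : x ∈ c.F ∪ E
      · rw [decide_eq_true hxA]
        exact chs_true.2 (hG1 hxA)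
      · rw [decide_eq_false hxA, Bool.eq_false_iff]
        intro hxG
        rcases hG2 x (chs_true.1 hxG) with h6 | h6
        · exact hxA h6
        · exact absurd h6.2.1 (by omega)
  · rw [ess_one] at hE
    push Not at hE
    obtain ⟨n, hn⟩ := hE
    by_cases h : ∃ P, jn (jn X (chs c.Y)) P ∉ opAN c.F n W []
    · obtain ⟨P, hP, hfP⟩ := p2_wkl hK.toGood c.fair (hK.aN c.F n W hW) h
      obtain ⟨κ, -, hκ⟩ := infinite_piece c.inf (Finset.range 1).powerset
        (fun κ z => ∀ i < 1, P (Nat.pair z i) = decide (i ∈ κ)) (by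
          intro z _
          refine ⟨(Finset.range 1).filter fun i => P (Nat.pair z i) = true, ?_, ?_⟩
          · exact Finset.mem_powerset.2 (Finset.filter_subset _ _)
          · intro i hi
            have hi0 : i = 0 := by omega
            subst hi0
            simp)
      have hsub : {z | z ∈ c.Y ∧ ∀ i < 1, P (Nat.pair z i) = decide (i ∈ κ)} ⊆ c.Y :=
        fun z hz => hz.1
      refine ⟨⟨c.F, {z | z ∈ c.Y ∧ ∀ i < 1, P (Nat.pair z i) = decide (i ∈ κ)}, hκ,
        fun x hx z hz => c.lt x hx z hz.1, fun x hx y hy z hz => c.hom x hx y hy.1 z hz.1,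
        fun z hz => c.av z hz.1, ?_⟩, ⟨Finset.Subset.refl _, fun x hx => Or.inl hx, hsub⟩, ?_⟩
      · rw [← psi_eq]
        exact p2_pre hfP (hK.prePsi κ 1)
      · rintro G ⟨hG1, hG2⟩ hGa hGE
        exfalso
        simp only at hG1 hG2
        obtain ⟨R', hR', hmem⟩ := ess_one.1 hGE n
        obtain ⟨b, hb⟩ := bits_of_isOpen (hK.isOpen W hW _) hmem
        let E : Finset ℕ := (Finset.range b).filter fun x => x ∈ G ∧ x ∉ c.F
        have hEY : ∀ x ∈ E, x ∈ c.Y ∧ ∀ i < 1, P (Nat.pair x i) = decide (i ∈ κ) := by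
          intro x hx
          have hx' := (Finset.mem_filter.1 hx).2
          rcases hG2 x hx'.1 with h7 | h7
          · exact absurd h7 hx'.2
          · exact h7
        have hEG : (E : Set ℕ) ⊆ G := fun x hx => (Finset.mem_filter.1 (Finset.mem_coe.1 hx)).2.1
        apply hP
        refine ⟨κ, E, ?_, ?_, ?_, R', hR', ?_⟩
        · intro x hx
          rw [lf_jn, rt_jn]
          exact chs_true.2 (hEY x hx).1
        · intro x hx
          rw [rt_jn]
          exact (hEY x hx).2 0 (by omega)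
        · rw [lf_jn, lf_jn]
          exact hGa.mono hEG
        · rw [lf_jn, lf_jn]
          refine hb _ (jn_agree (fun _ _ => rfl) ?_)
          intro x hx
          by_cases hxG : x ∈ G
          · rw [chs_true.2 hxG]
            unfold chf
            refine decide_eq_true ?_
            by_cases hxA : x ∈ c.F
            · exact Finset.mem_union_left _ hxA
            · exact Finset.mem_union_right _
                (Finset.mem_filter.2 ⟨Finset.mem_range.2 hx, hxG, hxA⟩)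
          · have : chs G x = false := by
              rw [Bool.eq_false_iff]
              intro h
              exact hxG (chs_true.1 h)
            rw [this]
            unfold chf
            refine decide_eq_false fun h => hxG ?_
            rcases Finset.mem_union.1 h with h | h
            · exact hG1 h
            · exact hEG (Finset.mem_coe.2 h)
    · exfalso
      push Not at h
      have key : ∃ (M R : Finset ℕ), (M : Set ℕ) ⊆ c.Y ∧ (∀ x ∈ R, n < x) ∧
          ∀ P ∈ (univ : Set Om), ∃ κ : Finset ℕ, ∃ E : Finset ℕ, E ⊆ M ∧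
            (∀ x ∈ E, P (Nat.pair x 0) = decide (0 ∈ κ)) ∧ Av (gof X) (E : Set ℕ) ∧
            ∃ R' : Finset ℕ, R' ⊆ R ∧ jn X (chf (c.F ∪ E)) ∈ W [R'] := by
        refine (isCompact_univ (X := Om)).induction_on
          (p := fun S => ∃ (M R : Finset ℕ), (M : Set ℕ) ⊆ c.Y ∧ (∀ x ∈ R, n < x) ∧
          ∀ P ∈ S, ∃ κ : Finset ℕ, ∃ E : Finset ℕ, E ⊆ M ∧
            (∀ x ∈ E, P (Nat.pair x 0) = decide (0 ∈ κ)) ∧ Av (gof X) (E : Set ℕ) ∧
            ∃ R' : Finset ℕ, R' ⊆ R ∧ jn X (chf (c.F ∪ E)) ∈ W [R']) ?_ ?_ ?_ ?_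
        · exact ⟨∅, ∅, by simp, by simp, by simp⟩
        · rintro S S' hSS ⟨M, R, h1, h2, h3⟩
          exact ⟨M, R, h1, h2, fun P hP => h3 P (hSS hP)⟩
        · rintro S S' ⟨M, R, h1, h2, h3⟩ ⟨M', R', h1', h2', h3'⟩
          refine ⟨M ∪ M', R ∪ R', ?_, ?_, ?_⟩
          · rw [Finset.coe_union]
            exact union_subset h1 h1'
          · intro x hx
            rcases Finset.mem_union.1 hx with hx | hx
            · exact h2 x hx
            · exact h2' x hx
          · rintro P (hP | hP)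
            · obtain ⟨κ, E, l1, l2, l3, R'', l4, l5⟩ := h3 P hP
              exact ⟨κ, E, l1.trans Finset.subset_union_left, l2, l3, R'',
                l4.trans Finset.subset_union_left, l5⟩
            · obtain ⟨κ, E, l1, l2, l3, R'', l4, l5⟩ := h3' P hP
              exact ⟨κ, E, l1.trans Finset.subset_union_right, l2, l3, R'',
                l4.trans Finset.subset_union_right, l5⟩
        · intro P _
          obtain ⟨κ, E, l1, l2, l3, R', l4, l5⟩ := h P
          simp only [lf_jn, rt_jn] at l1 l2 l3 l5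
          refine ⟨{P' | ∀ x ∈ E, P' (Nat.pair x 0) = P (Nat.pair x 0)}, ?_, E, R', ?_, l4, ?_⟩
          · refine mem_nhdsWithin_of_mem_nhds (IsOpen.mem_nhds ?_ fun x _ => rfl)
            exact isOpen_ball E fun x _ => isOpen_bit continuous_id _ _
          · intro x hx
            exact chs_true.1 (l1 x hx)
          · intro P' hP'
            refine ⟨κ, E, Finset.Subset.refl _, fun x hx => ?_, l3, R', Finset.Subset.refl _, l5⟩
            rw [hP' x hx]
            exact l2 x hx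
      obtain ⟨M, R, h1, h2, h3⟩ := key
      refine hn R h2 ⟨M, R, rfl, ?_, ?_⟩
      · intro x hx
        rw [rt_jn]
        exact chs_true.2 (h1 hx)
      · intro D _
        obtain ⟨κ, E, l1, l2, l3, R', l4, l5⟩ :=
          h3 (fun t => decide ((Nat.unpair t).1 ∈ D)) (mem_univ _)
        refine ⟨κ, E, l1, fun x hx => ?_, ?_, R', l4, ?_⟩
        · have := l2 x hx
          simpa using this
        · rw [lf_jn]; exact l3
        · rw [lf_jn]; exact l5

lemma av_grow (hK : Good K) (c : Cond2 K A X) (n : ℕ) :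
    ∃ c', c ≤ c' ∧ ∃ x ∈ c'.F, n < x := by
  classical
  obtain ⟨y, hy, hny⟩ : ∃ y ∈ c.Y, n < y := c.inf.exists_gt n
  obtain ⟨ρ, h1, h2⟩ := restrict2 hK c.inf c.fair {y} y
  set Y' : Set ℕ := {z | z ∈ c.Y ∧ y < z ∧ ∀ x ∈ ({y} : Finset ℕ), gof X x z = decide (x ∈ ρ)}
    with hY'
  refine ⟨⟨c.F ∪ {y}, Y', h1, ?_, ?_, ?_, h2⟩, ⟨Finset.subset_union_left, ?_, fun z hz => hz.1⟩,
    y, Finset.mem_union_right _ (Finset.mem_singleton_self _), hny⟩
  · intro x hx z hz
    rcases Finset.mem_union.1 hx with hx | hx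
    · exact c.lt x hx z hz.1
    · rw [Finset.mem_singleton.1 hx]; exact hz.2.1
  · intro x hx z hz z' hz'
    rcases Finset.mem_union.1 hx with hx | hx
    · exact c.hom x hx z hz.1 z' hz'.1
    · rw [hz.2.2 x hx, hz'.2.2 x hx]
  · intro z hz
    refine av_block c (E := {y}) (κ := decide (y ∈ ρ)) ?_ hz.1 ?_ ?_ ?_
    · intro x hx; rw [Finset.mem_singleton.1 hx]; exact hy
    · intro x hx; rw [Finset.mem_singleton.1 hx]; exact hz.2.1
    · intro x hx
      rw [Finset.mem_singleton.1 hx]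
      exact hz.2.2 y (Finset.mem_singleton_self _)
    · intro a ha b hb d hd e he hab _ _
      have ha' : a = y := by simpa using ha
      have hb' : b = y := by simpa using hb
      omega
  · intro x hx
    rcases Finset.mem_union.1 hx with hx | hx
    · exact Or.inl hx
    · rw [Finset.mem_singleton.1 hx]; exact Or.inr hy

theorem p2_av (hK : Good2 K) (c0 : Cond2 K A X) : ∃ G : Set ℕ, G.Infinite ∧
    Av (gof X) G ∧ P2 K A (jn X (chs G)) := by
  have : Countable K := hK.ctbl.to_subtype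
  let _ : Encodable K := Encodable.ofCountable K
  let D : ℕ × Bool × K → Order.Cofinal (Cond2 K A X) := fun i =>
    { carrier := {c | (∃ x ∈ c.F, i.1 < x) ∧ ∀ G : Set ℕ, Cpt2 c G → Av (gof X) G →
        Ess 1 (val i.2.2.1 (jn X (chs G))) →
        ∃ R : Finset ℕ, jn X (chs G) ∈ i.2.2.1 [R] ∧ ∀ x ∈ R, x ∈ A i.2.1}
      isCofinal := by
        intro c
        obtain ⟨c1, h1, h2⟩ := av_step hK c i.2.1 i.2.2.2
        obtain ⟨c2, h3, h4⟩ := av_grow hK.toGood c1 i.1
        exact ⟨c2, ⟨h4, fun G hG => h2 G (hG.of_le h3)⟩, h1.trans h3⟩ }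
  let seq := Order.sequenceOfCofinals c0 D
  have hmono : Monotone seq := Order.sequenceOfCofinals.monotone _ _
  let G : Set ℕ := {x | ∃ n, x ∈ (seq n).F}
  have hcpt : ∀ n, Cpt2 (seq n) G := by
    intro n
    refine ⟨fun x hx => ⟨n, hx⟩, ?_⟩
    rintro x ⟨k, hk⟩
    rcases le_total n k with h | h
    · exact (hmono h).2.1 x hk
    · exact Or.inl ((hmono h).1 hk)
  have hav : Av (gof X) G := by
    rintro a ⟨n1, ha⟩ b ⟨n2, hb⟩ d ⟨n3, hd⟩ e ⟨n4, he⟩
    set n := max (max n1 n2) (max n3 n4) with hn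
    obtain ⟨w, hw⟩ := (seq n).inf.nonempty
    have ha' : a ∈ (seq n).F := (hmono ((le_max_left _ _).trans (le_max_left _ _))).1 ha
    have hb' : b ∈ (seq n).F := (hmono ((le_max_right _ _).trans (le_max_left _ _))).1 hb
    have hd' : d ∈ (seq n).F := (hmono ((le_max_left _ _).trans (le_max_right _ _))).1 hd
    have he' : e ∈ (seq n).F := (hmono ((le_max_right _ _).trans (le_max_right _ _))).1 he
    exact (seq n).av w hw a (Or.inr ha') b (Or.inr hb') d (Or.inr hd') e (Or.inr he')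
  refine ⟨G, ?_, hav, ?_⟩
  · rw [Set.infinite_iff_exists_gt]
    intro n
    have h5 := Order.sequenceOfCofinals.encode_mem c0 D (n, false, ⟨opZero, hK.zero⟩)
    obtain ⟨x, hx, hnx⟩ := h5.1
    exact ⟨x, ⟨_, hx⟩, hnx⟩
  · intro b W hW hE
    have h5 := Order.sequenceOfCofinals.encode_mem c0 D (0, b, ⟨W, hW⟩)
    exact h5.2 G (hcpt _) hav hE

end H860EM
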