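import Pool.Agent.H860EM.Av2

set_option autoImplicit false

open Set Topology

namespace H860EM

variable {K : Set Op} {X : Om} {A : Bool → Set ℕ}

lemma solve2 (hK : Good2 K) {Y : Om} (hY : P2 K A Y) {C : Set ℕ} (hC : Cf K Y (chi C)) :
    ∃ Y' : Om, P2 K A Y' ∧ (∀ F, Cf K Y F → Cf K Y' F) ∧
      ∃ H : Set ℕ, H.Infinite ∧ Av (col C) H ∧ Cf K Y' (chi H) := by
  have hK1 := hK.toGood
  have h1 : P2 K A (jn Y (chs C)) := p2_comp hK1 hY hC
  have h2 : P2 K A (jn (jn Y (chs C)) (chs univ)) := p2_comp hK1 h1 (cf_univ hK1 _)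
  let c0 : Cond2 K A (jn Y (chs C)) :=
    { F := ∅
      Y := univ
      inf := infinite_univ
      lt := by simp
      hom := by simp
      av := by
        intro z _ x hx y hy w hw d hd hxy hyw
        simp only [Finset.coe_empty, insert_empty_eq, mem_singleton_iff] at hx hy
        omega
      fair := h2 }
  obtain ⟨G, hG1, hG2, hG3⟩ := p2_av hK c0
  refine ⟨jn (jn Y (chs C)) (chs G), hG3, ?_, G, hG1, ?_, cf_rt hK1 _ G⟩
  · intro F hF
    apply cf_lf hK1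
    rw [lf_jn]
    apply cf_lf hK1
    rw [lf_jn]
    exact hF
  · have : col C = gof (jn Y (chs C)) := by
      funext x y
      simp only [col, gof, rt_jn, chs]
    rw [this]
    exact hG2

structure FP2 (K : Set Op) (A : Bool → Set ℕ) where
  X : Om
  fair : P2 K A X

instance : Preorder (FP2 K A) where
  le a b := ∀ F, Cf K a.X F → Cf K b.X F
  le_refl _ _ h := h
  le_trans _ _ _ h h' F hF := h' F (h F hF)

theorem main2 : ∃ M : Set (Set ℕ), TuringIdeal M ∧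
    (∀ C ∈ M, ∃ H ∈ M, H.Infinite ∧ Av (col C) H) ∧
    ∃ C ∈ M, ∀ H ∈ M, H.Infinite → ∀ b : Bool, ¬ ∀ x ∈ H, ∀ y ∈ H, x < y → col C x y = b := by
  classical
  obtain ⟨K, hK2⟩ := exists_good2
  have hK := hK2.toGood
  obtain ⟨v, hv⟩ := exists_base2 hK
  obtain ⟨en, hen⟩ := hK.ctbl.exists_eq_range ⟨opZero, hK.zero⟩
  let R : FP2 K (side v) → ℕ → FP2 K (side v) → Prop := fun x n y =>
    ∀ C : Set ℕ, (∀ a b, x.X ∈ gr (en n) a b ↔ b ∈ chi C a) →
      ∃ H : Set ℕ, H.Infinite ∧ Av (col C) H ∧ Cf K y.X (chi H)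
  have hR : ∀ x n y, x ≤ y → ∃ y', y ≤ y' ∧ R x n y' := by
    intro x n y hxy
    by_cases h : ∃ C : Set ℕ, ∀ a b, x.X ∈ gr (en n) a b ↔ b ∈ chi C a
    · obtain ⟨C, hC⟩ := h
      have hen' : en n ∈ K := by rw [hen]; exact mem_range_self n
      have hCy : Cf K y.X (chi C) := hxy _ ⟨en n, hen', hC⟩
      obtain ⟨Y', h1, h2, H, h3, h4, h5⟩ := solve2 hK2 y.fair hCy
      refine ⟨⟨Y', h1⟩, h2, fun C' hC' => ?_⟩
      have : C' = C := by
        ext a
        have e1 : (1 : ℕ) ∈ chi C' a ↔ 1 ∈ chi C a := by rw [← hC' a 1, ← hC a 1]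
        rw [mem_chi, mem_chi] at e1
        simpa using e1
      subst this
      exact ⟨H, h3, h4, h5⟩
    · exact ⟨y, le_rfl, fun C hC => absurd ⟨C, hC⟩ h⟩
  obtain ⟨s, hs0, hsm, hs⟩ := bookkeeping R hR ⟨orc v, hv⟩
  let M : Set (Set ℕ) := {A | ∃ n, Cf K (s n).X (chi A)}
  let C0 : Set ℕ := {n | orc v n = true}
  have hC0 : Cf K (s 0).X (chi C0) := by
    rw [hs0]
    refine ⟨opRead0, hK.read0, fun x y => ?_⟩
    rw [opRead0, gr_mkOp, mem_chi]
    simp only [mem_ofPred_eq, C0]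
    by_cases h : orc v x = true
    · simp [h, eq_comm]
    · simp only [Bool.not_eq_true] at h
      simp [h, eq_comm]
  have hcol : ∀ x y, col C0 x y = fv v x y := by
    intro x y
    rw [← orc_pair]
    by_cases h : orc v (Nat.pair x y) = true
    · rw [h]
      have h1 : Nat.pair x y ∈ C0 := h
      simp [col, h1]
    · have h' : orc v (Nat.pair x y) = false := by simpa using h
      rw [h']
      have h1 : Nat.pair x y ∉ C0 := h
      simp [col, h1]
  refine ⟨M, ⟨⟨C0, 0, hC0⟩, ?_, ?_⟩, ?_, C0, ⟨0, hC0⟩, ?_⟩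
  · rintro A ⟨n, hA⟩ B ⟨k, hB⟩
    obtain ⟨V, hV, hV'⟩ := hsm (le_max_left n k) _ hA
    obtain ⟨W, hW, hW'⟩ := hsm (le_max_right n k) _ hB
    refine ⟨max n k, opJoin V W, hK.join V hV W hW, fun x y => ?_⟩
    rw [opJoin, gr_mkOp]
    simp only [mem_ofPred_eq, hV', hW', mem_chi, tjoin]
    rcases Nat.mod_two_eq_zero_or_one x with h | h
    · simp [h]
    · simp [h]
  · rintro A ⟨n, hA⟩ B hB
    exact ⟨n, cf_of_recursiveIn hK hA (RecursiveIn.iff_nat.1 hB)⟩
  · rintro C ⟨n, V, hV, hV'⟩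
    rw [hen] at hV
    obtain ⟨k, rfl⟩ := hV
    obtain ⟨m, hm⟩ := hs n k
    obtain ⟨H, h1, h2, h3⟩ := hm C hV'
    exact ⟨H, ⟨m, h3⟩, h1, h2⟩
  · rintro H ⟨n, V, hV, hV'⟩ hinf b hhom
    have hE : Ess 1 (val (opSing V) (s n).X) := by
      rw [ess_one]
      intro k
      obtain ⟨h, hh, hn⟩ := hinf.exists_gt k
      refine ⟨{h}, by simpa using hn, ?_⟩
      intro R hR
      rw [List.mem_singleton.1 hR]
      exact ⟨h, rfl, (hV' h 1).2 (mem_chi.2 (Or.inl ⟨rfl, hh⟩))⟩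
    obtain ⟨R, hR, hRA⟩ := (s n).fair (!b) (opSing V) (hK.sing V hV) hE
    obtain ⟨h, rfl, hh⟩ := hR R (List.mem_singleton.2 rfl)
    rw [hV', mem_chi] at hh
    have hhH : h ∈ H := by
      rcases hh with hh | hh
      · exact hh.2
      · exact absurd hh.1 one_ne_zero
    obtain ⟨n0, hn0⟩ := hRA h (Finset.mem_singleton_self _)
    obtain ⟨y, hy, hny⟩ := hinf.exists_gt (max h n0)
    have e1 := hn0 y ((le_max_right _ _).trans hny.le)
    have e2 := hhom h hhH y hy (lt_of_le_of_lt (le_max_left _ _) hny)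
    rw [hcol, e1] at e2
    cases b <;> simp at e2

end H860EM
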