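import Pool.Agent.H860EM.Rec

set_option autoImplicit false

open Set Topology

namespace H860EM

/-- the colouring given by a sequence of rationals -/
def fv (v : ℕ → ℚ) (x y : ℕ) : Bool := decide (v y < v x)

def orc (v : ℕ → ℚ) : Om := fun n => decide (v (Nat.unpair n).2 < v (Nat.unpair n).1)

lemma orc_pair (v : ℕ → ℚ) (x y : ℕ) : orc v (Nat.pair x y) = fv v x y := by
  simp [orc, fv]

lemma orc_agree {v v' : ℕ → ℚ} {b : ℕ} (h : ∀ x < b, v' x = v x) :
    ∀ k < b, orc v' k = orc v k := by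
  intro k hk
  have h1 : (Nat.unpair k).1 < b := lt_of_le_of_lt (Nat.unpair_left_le k) hk
  have h2 : (Nat.unpair k).2 < b := lt_of_le_of_lt (Nat.unpair_right_le k) hk
  simp only [orc, h _ h1, h _ h2]

lemma orc_bits {W : Op} (hW : ∀ s, IsOpen (W s)) {v : ℕ → ℚ} {s : Node} (h : orc v ∈ W s) :
    ∃ b, ∀ v' : ℕ → ℚ, (∀ x < b, v' x = v x) → orc v' ∈ W s := by
  obtain ⟨b, hb⟩ := bits_of_isOpen (hW s) h
  exact ⟨b, fun v' h' => hb _ (orc_agree h')⟩

structure BC where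
  s : ℕ
  v : ℕ → ℚ
  p : ℚ
  q : ℚ
  lt : p < q

instance : Preorder BC where
  le a b := a.s ≤ b.s ∧ (∀ x < a.s, b.v x = a.v x) ∧
    (∀ x, a.s ≤ x → x < b.s → a.p < b.v x ∧ b.v x < a.q) ∧ a.p ≤ b.p ∧ b.q ≤ a.q
  le_refl a := ⟨le_rfl, fun _ _ => rfl, fun x h1 h2 => absurd h2 (by omega), le_rfl, le_rfl⟩
  le_trans a b c := by
    rintro ⟨h1, h2, h3, h4, h5⟩ ⟨k1, k2, k3, k4, k5⟩
    refine ⟨h1.trans k1, fun x hx => (k2 x (by omega)).trans (h2 x hx), fun x hx hx' => ?_,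
      h4.trans k4, k5.trans h5⟩
    by_cases hb : x < b.s
    · rw [k2 x hb]
      exact h3 x hx hb
    · obtain ⟨l1, l2⟩ := k3 x (by omega) hx'
      exact ⟨lt_of_le_of_lt h4 l1, lt_of_lt_of_le l2 h5⟩

def Sat (c : BC) (v : ℕ → ℚ) : Prop :=
  (∀ x < c.s, v x = c.v x) ∧ ∀ x, c.s ≤ x → c.p < v x ∧ v x < c.q

lemma Sat.of_le {a b : BC} (h : a ≤ b) {v : ℕ → ℚ} (hv : Sat b v) : Sat a v := by
  obtain ⟨h1, h2, h3, h4, h5⟩ := h
  obtain ⟨k1, k2⟩ := hv
  refine ⟨fun x hx => (k1 x (by omega)).trans (h2 x hx), fun x hx => ?_⟩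
  by_cases hb : x < b.s
  · rw [k1 x hb]
    exact h3 x hx hb
  · obtain ⟨l1, l2⟩ := k2 x (by omega)
    exact ⟨lt_of_le_of_lt h4 l1, lt_of_lt_of_le l2 h5⟩

lemma base_iter {W : Op} (hW : ∀ s, IsOpen (W s)) (c : BC) (N : ℕ) (Q : ℕ → ℕ) (J : ℕ → ℚ × ℚ)
    (hJ : ∀ r < N, c.p ≤ (J r).1 ∧ (J r).1 < (J r).2 ∧ (J r).2 ≤ c.q) (hQ : ∀ i < N, Q i < N) 
    (hno : ¬ ∃ c', c ≤ c' ∧ ∀ v, Sat c' v → ¬ Ess N (val W (orc v))) (j : ℕ) (hj : j ≤ N) :
    ∃ (b : ℕ) (v : ℕ → ℚ) (t : Node), t.length = j ∧ c.s ≤ b ∧ (∀ x < c.s, v x = c.v x) ∧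
      (∀ x, c.s ≤ x → x < b → c.p < v x ∧ v x < c.q) ∧
      (∀ v' : ℕ → ℚ, (∀ x < b, v' x = v x) → val W (orc v') t) ∧
      (∀ i < j, ∀ x ∈ blk t i, c.s ≤ x ∧ x < b ∧ (J (Q i)).1 < v x ∧ v x < (J (Q i)).2) ∧
      (∀ i i', i < i' → i' < j → ∀ x ∈ blk t i, ∀ y ∈ blk t i', x < y) := by
  induction j with
  | zero =>
    refine ⟨c.s, c.v, [], rfl, le_rfl, fun _ _ => rfl, fun x h1 h2 => absurd h2 (by omega),
      fun _ _ => Or.inl rfl, fun i hi => absurd hi (by omega), fun i i' _ hi => absurd hi (by omega)⟩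
  | succ j ih =>
    obtain ⟨b, v, t, ht, h1, h2, h3, h4, h5, h6⟩ := ih (by omega)
    obtain ⟨hJ1, hJ2, hJ3⟩ := hJ (Q j) (hQ j (by omega))
    push Not at hno
    obtain ⟨v', hv', hE⟩ := hno ⟨b, v, (J (Q j)).1, (J (Q j)).2, hJ2⟩ ⟨h1, h2, h3, hJ1, hJ3⟩
    obtain ⟨hv1, hv2⟩ := hv'
    simp only at hv1 hv2
    obtain ⟨R, hR, hR'⟩ := hE t (h4 v' hv1) (by omega) b
    rw [val_cons] at hR'
    obtain ⟨b', hb'⟩ := orc_bits hW hR'
    have hin : ∀ x, b ≤ x → c.p < v' x ∧ v' x < c.q := fun x hx =>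
      ⟨lt_of_le_of_lt hJ1 (hv2 x hx).1, lt_of_lt_of_le (hv2 x hx).2 hJ3⟩
    refine ⟨max b (max b' (R.sup id + 1)), v', R :: t, by simp [ht], h1.trans (le_max_left _ _),
      fun x hx => (hv1 x (by omega)).trans (h2 x hx), fun x hx _ => ?_, ?_, ?_, ?_⟩
    · by_cases hb : x < b
      · rw [hv1 x hb]; exact h3 x hx hb
      · exact hin x (by omega)
    · intro v'' hv''
      exact Or.inr (hb' v'' fun x hx => hv'' x (lt_of_lt_of_le hx
        ((le_max_left _ _).trans (le_max_right _ _))))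
    · intro i hi x hx
      by_cases hij : i = j
      · subst hij
        rw [← ht, blk_cons_length] at hx
        have hbx := hR x hx
        refine ⟨by omega, ?_, hv2 x (by omega)⟩
        have : x ≤ R.sup id := Finset.le_sup (f := id) hx
        exact lt_of_lt_of_le (Nat.lt_succ_of_le this) ((le_max_right _ _).trans (le_max_right _ _))
      · rw [blk_cons_ne _ _ (by rw [ht]; exact hij)] at hx
        obtain ⟨k1, k2, k3, k4⟩ := h5 i (by omega) x hx
        rw [hv1 x k2]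
        exact ⟨k1, lt_of_lt_of_le k2 (le_max_left _ _), k3, k4⟩
    · intro i i' hii hi' x hx y hy
      rw [blk_cons_ne _ _ (by rw [ht]; omega)] at hx
      by_cases hij : i' = j
      · subst hij
        rw [← ht, blk_cons_length] at hy
        have := hR y hy
        have := (h5 i (by omega) x hx).2.1
        omega
      · rw [blk_cons_ne _ _ (by rw [ht]; exact hij)] at hy
        exact h6 i i' hii (by omega) x hx y hy

lemma gm_lt {m i : ℕ} (hi : i < m * m) : gm m i < m * m := by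
  have hm : 0 < m := by
    rcases Nat.eq_zero_or_pos m with rfl | h
    · simp at hi
    · exact h
  have h1 : i % m < m := Nat.mod_lt _ hm
  have h2 : i / m < m := Nat.div_lt_of_lt_mul hi
  unfold gm
  calc (i % m) * m + i / m < (i % m) * m + m := by omega
    _ = (i % m + 1) * m := by ring
    _ ≤ m * m := Nat.mul_le_mul_right _ h1

lemma gm_inj {m i j : ℕ} (hi : i < m * m) (hj : j < m * m) (h : gm m i = gm m j) : i = j := by
  have hm : 0 < m := by
    rcases Nat.eq_zero_or_pos m with rfl | h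
    · simp at hi
    · exact h
  have h1 : i / m < m := Nat.div_lt_of_lt_mul hi
  have h2 : j / m < m := Nat.div_lt_of_lt_mul hj
  unfold gm at h
  have e1 : ((i % m) * m + i / m) / m = i % m := by
    rw [mul_comm, Nat.mul_add_div hm, Nat.div_eq_of_lt h1, add_zero]
  have e2 : ((j % m) * m + j / m) / m = j % m := by
    rw [mul_comm, Nat.mul_add_div hm, Nat.div_eq_of_lt h2, add_zero]
  have e3 : ((i % m) * m + i / m) % m = i / m := by
    rw [mul_comm, Nat.mul_add_mod, Nat.mod_eq_of_lt h1]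
  have e4 : ((j % m) * m + j / m) % m = j / m := by
    rw [mul_comm, Nat.mul_add_mod, Nat.mod_eq_of_lt h2]
  have f1 : i % m = j % m := by rw [← e1, ← e2, h]
  have f2 : i / m = j / m := by rw [← e3, ← e4, h]
  rw [← Nat.div_add_mod i m, ← Nat.div_add_mod j m, f1, f2]

lemma base_step {W : Op} (hW : ∀ s, IsOpen (W s)) (c : BC) (m : ℕ) :
    ∃ c', c ≤ c' ∧ ∀ v, Sat c' v → Ess (m * m) (val W (orc v)) →
      ∃ s, val W (orc v) s ∧ s.length = m * m ∧ Real (fv v) (gm m) s := by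
  by_cases hno : ∃ c', c ≤ c' ∧ ∀ v, Sat c' v → ¬ Ess (m * m) (val W (orc v))
  · obtain ⟨c', h1, h2⟩ := hno
    exact ⟨c', h1, fun v hv hE => absurd hE (h2 v hv)⟩
  · set N := m * m with hN
    let d : ℚ := (c.q - c.p) / N
    let J : ℕ → ℚ × ℚ := fun r => (c.p + r * d, c.p + (r + 1) * d)
    have hd : ∀ r < N, 0 < d ∧ c.p + (r + 1) * d ≤ c.q := by
      intro r hr
      have hN0 : (0 : ℚ) < N := by
        have : 0 < N := by omega
        exact_mod_cast this
      have hpq : 0 < c.q - c.p := by linarith [c.lt]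
      have hd0 : 0 < d := div_pos hpq hN0
      refine ⟨hd0, ?_⟩
      have hr' : ((r : ℚ) + 1) ≤ N := by exact_mod_cast hr
      have : ((r : ℚ) + 1) * d ≤ N * d := mul_le_mul_of_nonneg_right hr' hd0.le
      have h2 : (N : ℚ) * d = c.q - c.p := by
        simp only [d]
        field_simp
      linarith
    have hJ : ∀ r < N, c.p ≤ (J r).1 ∧ (J r).1 < (J r).2 ∧ (J r).2 ≤ c.q := by
      intro r hr
      obtain ⟨h1, h2⟩ := hd r hr
      refine ⟨?_, ?_, h2⟩
      · simp only [J]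
        have : (0 : ℚ) ≤ (r : ℚ) * d := mul_nonneg (Nat.cast_nonneg _) h1.le
        linarith
      · simp only [J]
        nlinarith
    obtain ⟨b, v, t, ht, h1, h2, h3, h4, h5, h6⟩ :=
      base_iter hW c N (gm m) J hJ (fun i hi => gm_lt hi) hno N le_rfl
    refine ⟨⟨b, v, c.p, c.q, c.lt⟩, ⟨h1, h2, h3, le_rfl, le_rfl⟩, fun v' hv' _ => ?_⟩
    obtain ⟨hv1, hv2⟩ := hv'
    simp only at hv1 hv2
    refine ⟨t, h4 v' hv1, ht, ?_⟩
    intro i j hij hj x hx y hy
    rw [ht] at hj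
    refine ⟨h6 i j hij hj x hx y hy, ?_⟩
    obtain ⟨-, kx, kx1, kx2⟩ := h5 i (by omega) x hx
    obtain ⟨-, ky, ky1, ky2⟩ := h5 j hj y hy
    have hd0 := (hd i (by omega)).1
    simp only [fv, hv1 x kx, hv1 y ky]
    have hne : gm m j ≠ gm m i := fun h => by
      have := gm_inj hj (by omega) h
      omega
    simp only [J] at kx1 kx2 ky1 ky2
    congr 1
    apply propext
    constructor
    · intro hlt
      by_contra hge
      have hlt' : gm m i < gm m j := by omega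
      have : ((gm m i : ℚ) + 1) ≤ gm m j := by exact_mod_cast hlt'
      have : ((gm m i : ℚ) + 1) * d ≤ gm m j * d := mul_le_mul_of_nonneg_right this hd0.le
      linarith
    · intro hlt
      have : ((gm m j : ℚ) + 1) ≤ gm m i := by exact_mod_cast hlt
      have : ((gm m j : ℚ) + 1) * d ≤ gm m i * d := mul_le_mul_of_nonneg_right this hd0.le
      linarith

lemma base_grow (c : BC) (n : ℕ) : ∃ c', c ≤ c' ∧ n ≤ c'.s := by
  refine ⟨⟨max c.s n, fun x => if x < c.s then c.v x else (c.p + c.q) / 2, c.p, c.q, c.lt⟩,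
    ⟨le_max_left _ _, ?_, ?_, le_rfl, le_rfl⟩, le_max_right _ _⟩
  · intro x hx
    simp [hx]
  · intro x hx _
    have : ¬ x < c.s := by omega
    simp only [this, if_false]
    constructor <;> linarith [c.lt]

theorem exists_base {K : Set Op} (hK : Good K) : ∃ v : ℕ → ℚ, Fair K (fv v) (orc v) := by
  have : Countable K := hK.ctbl.to_subtype
  let _ : Encodable K := Encodable.ofCountable K
  let D : ℕ × ℕ × K → Order.Cofinal BC := fun i =>
    { carrier := {c | i.1 ≤ c.s ∧ ∀ v, Sat c v → Ess (i.2.1 * i.2.1) (val i.2.2.1 (orc v)) →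
        ∃ s, val i.2.2.1 (orc v) s ∧ s.length = i.2.1 * i.2.1 ∧ Real (fv v) (gm i.2.1) s}
      isCofinal := by
        intro c
        obtain ⟨c1, h1, h2⟩ := base_step (hK.isOpen i.2.2.1 i.2.2.2) c i.2.1
        obtain ⟨c2, h3, h4⟩ := base_grow c1 i.1
        exact ⟨c2, ⟨h4, fun v hv => h2 v (hv.of_le h3)⟩, h1.trans h3⟩ }
  let seq := Order.sequenceOfCofinals (⟨0, fun _ => 0, 0, 1, by norm_num⟩ : BC) D
  have hmono : Monotone seq := Order.sequenceOfCofinals.monotone _ _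
  have hbig : ∀ x : ℕ, ∃ n, x < (seq n).s := by
    intro x
    have h5 := Order.sequenceOfCofinals.encode_mem
      (⟨0, fun _ => 0, 0, 1, by norm_num⟩ : BC) D (x + 1, 0, ⟨opZero, hK.zero⟩)
    exact ⟨_, h5.1⟩
  choose g hg using hbig
  have hagree : ∀ n k x, x < (seq n).s → x < (seq k).s → (seq n).v x = (seq k).v x := by
    intro n k x hn hk
    rcases le_total n k with h | h
    · exact ((hmono h).2.1 x hn).symm
    · exact (hmono h).2.1 x hk
  have hsat : ∀ n, Sat (seq n) (fun x => (seq (g x)).v x) := by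
    intro n
    refine ⟨fun x hx => hagree _ _ x (hg x) hx, fun x hx => ?_⟩
    have h1 : x < (seq (max n (g x))).s := lt_of_lt_of_le (hg x) (hmono (le_max_right _ _)).1
    have h2 := (hmono (le_max_left n (g x))).2.2.1 x hx h1
    show (seq n).p < (seq (g x)).v x ∧ (seq (g x)).v x < (seq n).q
    rw [hagree _ _ x (hg x) h1]
    exact h2
  refine ⟨fun x => (seq (g x)).v x, ?_⟩
  intro m W hW hE
  have h5 := Order.sequenceOfCofinals.encode_mem
      (⟨0, fun _ => 0, 0, 1, by norm_num⟩ : BC) D (0, m, ⟨W, hW⟩)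
  exact h5.2 _ (hsat _) hE

end H860EM
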