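import Mathlib

set_option autoImplicit false

open Set Topology

namespace H860EM

/-- Oracles: points of Cantor space. -/
abbrev Om := ℕ → Bool
/-- A node: a finite sequence of finite sets of numbers, the last one first. -/
abbrev Node := List (Finset ℕ)
/-- An operator: a family of (open) sets of oracles, indexed by nodes. -/
abbrev Op := Node → Set Om

def jn (X Y : Om) : Om := fun n => if n % 2 = 0 then X (n / 2) else Y (n / 2)
def lf (Z : Om) : Om := fun n => Z (2 * n)
def rt (Z : Om) : Om := fun n => Z (2 * n + 1)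

@[simp] lemma lf_jn (X Y : Om) : lf (jn X Y) = X := by
  funext n
  have h1 : (2 * n) % 2 = 0 := by omega
  have h2 : (2 * n) / 2 = n := by omega
  simp [lf, jn]

@[simp] lemma rt_jn (X Y : Om) : rt (jn X Y) = Y := by
  funext n
  have h1 : (2 * n + 1) % 2 ≠ 0 := by omega
  have h2 : (2 * n + 1) / 2 = n := by omega
  simp only [rt, jn, if_neg h1, h2]

@[simp] lemma jn_lf_rt (Z : Om) : jn (lf Z) (rt Z) = Z := by
  funext n
  by_cases h : n % 2 = 0
  · have h2 : 2 * (n / 2) = n := by omega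
    simp only [lf, jn, if_pos h, h2]
  · have h2 : 2 * (n / 2) + 1 = n := by omega
    simp only [rt, jn, if_neg h, h2]

lemma continuous_jn : Continuous fun p : Om × Om => jn p.1 p.2 := by
  refine continuous_pi fun n => ?_
  by_cases h : n % 2 = 0
  · simp only [jn, if_pos h]
    exact (continuous_apply (n / 2)).comp continuous_fst
  · simp only [jn, if_neg h]
    exact (continuous_apply (n / 2)).comp continuous_snd

lemma continuous_jn_left (Y : Om) : Continuous fun X : Om => jn X Y :=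
  continuous_jn.comp (continuous_id.prodMk continuous_const)

lemma continuous_jn_right (X : Om) : Continuous fun Y : Om => jn X Y :=
  continuous_jn.comp (continuous_const.prodMk continuous_id)

lemma continuous_lf : Continuous lf := continuous_pi fun n => continuous_apply (2 * n)
lemma continuous_rt : Continuous rt := continuous_pi fun n => continuous_apply (2 * n + 1)

lemma isOpen_agree (X : Om) (b : ℕ) : IsOpen {X' : Om | ∀ k < b, X' k = X k} := by
  have : {X' : Om | ∀ k < b, X' k = X k}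
      = ⋂ k ∈ Finset.range b, (fun X' : Om => X' k) ⁻¹' {X k} := by
    ext X'
    simp
  rw [this]
  exact isOpen_biInter_finset fun k _ => (isOpen_discrete _).preimage (continuous_apply k)

lemma isOpen_of_bits {S : Set Om}
    (h : ∀ X ∈ S, ∃ b, ∀ X' : Om, (∀ k < b, X' k = X k) → X' ∈ S) : IsOpen S := by
  rw [isOpen_iff_mem_nhds]
  intro X hX
  obtain ⟨b, hb⟩ := h X hX
  exact Filter.mem_of_superset ((isOpen_agree X b).mem_nhds (fun _ _ => rfl)) fun X' h' => hb X' h'

lemma bits_of_isOpen {S : Set Om} (hS : IsOpen S) {X : Om} (hX : X ∈ S) :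
    ∃ b, ∀ X' : Om, (∀ k < b, X' k = X k) → X' ∈ S := by
  obtain ⟨I, u, hu, hsub⟩ := isOpen_pi_iff.1 hS X hX
  refine ⟨I.sup id + 1, fun X' h' => hsub fun a ha => ?_⟩
  have : a < I.sup id + 1 := Nat.lt_succ_of_le (Finset.le_sup (f := id) ha)
  rw [h' a this]
  exact (hu a ha).2

lemma jn_agree {X X' P P' : Om} {b : ℕ} (h : ∀ k < b, X' k = X k) (h' : ∀ k < b, P' k = P k) :
    ∀ k < b, jn X' P' k = jn X P k := by
  intro k hk
  have : k / 2 < b := lt_of_le_of_lt (Nat.div_le_self _ _) hk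
  by_cases h0 : k % 2 = 0
  · simp only [jn, if_pos h0, h _ this]
  · simp only [jn, if_neg h0, h' _ this]

lemma isOpen_forall_compact {C : Set Om} (hC : IsCompact C) {U : Set Om} (hU : IsOpen U) :
    IsOpen {X : Om | ∀ P ∈ C, jn X P ∈ U} := by
  rw [isOpen_iff_mem_nhds]
  intro X hX
  have hn : IsOpen ((fun p : Om × Om => jn p.1 p.2) ⁻¹' U) := hU.preimage continuous_jn
  obtain ⟨u, v, hu, _, hXu, hCv, huv⟩ := generalized_tube_lemma (isCompact_singleton (x := X)) hC hn
    (by rintro ⟨a, b⟩ ⟨ha, hb⟩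
        simp only [mem_singleton_iff] at ha
        subst ha
        exact hX b hb)
  refine Filter.mem_of_superset (hu.mem_nhds (hXu rfl)) fun X' hX' P hP => ?_
  exact huv (show (X', P) ∈ u ×ˢ v from ⟨hX', hCv hP⟩)

/-- the block with index `i` of a node (blocks are counted from the end of the list) -/
def blk : Node → ℕ → Finset ℕ
  | [], _ => ∅
  | R :: s, i => if i = s.length then R else blk s i

lemma blk_of_length_le (s : Node) : ∀ i, s.length ≤ i → blk s i = ∅ := by
  induction s with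
  | nil => intro i _; rfl
  | cons R s ih =>
    intro i hi
    simp only [List.length_cons] at hi
    have h1 : i ≠ s.length := by omega
    simp only [blk, if_neg h1]
    exact ih i (by omega)

@[simp] lemma blk_cons_length (R : Finset ℕ) (s : Node) : blk (R :: s) s.length = R := by
  simp [blk]

lemma blk_cons_ne (R : Finset ℕ) (s : Node) {i : ℕ} (h : i ≠ s.length) :
    blk (R :: s) i = blk s i := by
  simp [blk, h]

def val (W : Op) (X : Om) (s : Node) : Prop := s = [] ∨ X ∈ W s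

lemma val_nil (W : Op) (X : Om) : val W X [] := Or.inl rfl
lemma val_cons {W : Op} {X : Om} {R : Finset ℕ} {s : Node} : val W X (R :: s) ↔ X ∈ W (R :: s) := by
  simp [val]

/-- every node of length `< N` has children as far out as we like -/
def Ess (N : ℕ) (p : Node → Prop) : Prop :=
  ∀ s, p s → s.length < N → ∀ n : ℕ, ∃ R : Finset ℕ, (∀ x ∈ R, n < x) ∧ p (R :: s)

/-- the grid permutation -/
def gm (m i : ℕ) : ℕ := (i % m) * m + i / m

def Real (f : ℕ → ℕ → Bool) (Q : ℕ → ℕ) (s : Node) : Prop :=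
  ∀ i j, i < j → j < s.length → ∀ x ∈ blk s i, ∀ y ∈ blk s j, x < y ∧ f x y = decide (Q j < Q i)

def Fair (K : Set Op) (f : ℕ → ℕ → Bool) (X : Om) : Prop :=
  ∀ m : ℕ, ∀ W ∈ K, Ess (m * m) (val W X) →
    ∃ s, val W X s ∧ s.length = m * m ∧ Real f (gm m) s

def Sub (t s : Node) : Prop := t.length = s.length ∧ ∀ i, blk t i ⊆ blk s i

lemma Sub.refl (s : Node) : Sub s s := ⟨rfl, fun _ => Finset.Subset.refl _⟩

lemma Sub.cons {t s : Node} (h : Sub t s) {R R' : Finset ℕ} (hR : R' ⊆ R) :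
    Sub (R' :: t) (R :: s) := by
  refine ⟨by simp [h.1], fun i => ?_⟩
  by_cases hi : i = s.length
  · subst hi
    rw [blk_cons_length]
    have := h.1
    rw [← this, blk_cons_length]
    exact hR
  · rw [blk_cons_ne _ _ hi, blk_cons_ne _ _ (by rw [h.1]; exact hi)]
    exact h.2 i

lemma Real.sub {f : ℕ → ℕ → Bool} {Q : ℕ → ℕ} {t s : Node} (h : Real f Q s) (hs : Sub t s) :
    Real f Q t := by
  intro i j hij hj x hx y hy
  exact h i j hij (by rw [← hs.1]; exact hj) x (hs.2 i hx) y (hs.2 j hy)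

def Frc (W : Op) (X : Om) (A : Finset ℕ) (m : ℕ) (t : Node) : Prop :=
  ∀ P : Om, (∀ k < m, P k = decide (k ∈ A)) → jn X P ∈ W t

def chf (A : Finset ℕ) : Om := fun n => decide (n ∈ A)

open Classical in
noncomputable def chs (A : Set ℕ) : Om := fun n => decide (n ∈ A)

lemma chs_true {A : Set ℕ} {n : ℕ} : chs A n = true ↔ n ∈ A := by simp [chs]

lemma chs_coe (A : Finset ℕ) : chs (A : Set ℕ) = chf A := by
  funext n; simp [chs, chf]

lemma isClosed_agreeF (A : Finset ℕ) (m : ℕ) :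
    IsClosed {P : Om | ∀ k < m, P k = decide (k ∈ A)} := by
  have : {P : Om | ∀ k < m, P k = decide (k ∈ A)}
      = ⋂ k ∈ Finset.range m, (fun X' : Om => X' k) ⁻¹' {decide (k ∈ A)} := by
    ext X'
    simp
  rw [this]
  exact isClosed_biInter fun k _ => (isClosed_discrete _).preimage (continuous_apply k)

lemma isOpen_agreeF (A : Finset ℕ) (m : ℕ) :
    IsOpen {P : Om | ∀ k < m, P k = decide (k ∈ A)} := isOpen_agree (chf A) m

lemma isOpen_Frc {W : Op} {t : Node} (hW : IsOpen (W t)) (A : Finset ℕ) (m : ℕ) :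
    IsOpen {X : Om | Frc W X A m t} :=
  isOpen_forall_compact (isClosed_agreeF A m).isCompact hW

lemma Frc.mono {W : Op} {X : Om} {A : Finset ℕ} {m m' : ℕ} {t : Node} (h : Frc W X A m t)
    (hm : m ≤ m') : Frc W X A m' t := fun P hP => h P fun k hk => hP k (lt_of_lt_of_le hk hm)

lemma exists_frc {W : Op} {t : Node} (hW : IsOpen (W t)) {X : Om} {A : Finset ℕ}
    (h : jn X (chf A) ∈ W t) : ∃ m, Frc W X A m t := by
  obtain ⟨b, hb⟩ := bits_of_isOpen hW h
  exact ⟨b, fun P hP => hb _ (jn_agree (fun _ _ => rfl) hP)⟩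

def Trans (g : ℕ → ℕ → Bool) (A : Set ℕ) : Prop :=
  ∀ x ∈ A, ∀ y ∈ A, ∀ z ∈ A, x < y → y < z → g x y = g y z → g x z = g x y

lemma Trans.mono {g : ℕ → ℕ → Bool} {A B : Set ℕ} (h : Trans g B) (hAB : A ⊆ B) : Trans g A :=
  fun x hx y hy z hz => h x (hAB hx) y (hAB hy) z (hAB hz)

def gof (X : Om) (x y : ℕ) : Bool := rt X (Nat.pair x y)

/-! ### operations on operators -/

def opWkl (O W : Op) : Op :=
  fun s => {X | ∀ P : Om, jn X P ∈ O [] ∨ ∃ t, Sub t s ∧ jn X P ∈ W t}

def cylC (A : Finset ℕ) (m : ℕ) : Set Om := {Z | ∃ k < m, rt Z k ≠ decide (k ∈ A)}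

def opCyl (A : Finset ℕ) (m : ℕ) (O : Op) : Op := fun s => O s ∪ cylC A m

def opNeg (A : Finset ℕ) (m : ℕ) (t : Node) (n : ℕ) (O W : Op) : Op :=
  fun s => O s ∪ cylC A m ∪ {Z | ∃ R : Finset ℕ, (∀ x ∈ R, n < x) ∧ Z ∈ W (R :: t)}

def opPre (Φ : Om → Om) (W : Op) : Op := fun s => Φ ⁻¹' (W s)

lemma isOpen_opWkl {O W : Op} (hO : ∀ s, IsOpen (O s)) (hW : ∀ s, IsOpen (W s)) (s : Node) :
    IsOpen (opWkl O W s) := by
  have h1 : IsOpen (O [] ∪ ⋃ t ∈ {t | Sub t s}, W t) :=
    (hO _).union (isOpen_biUnion fun t _ => hW t)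
  have := isOpen_forall_compact (isCompact_univ (X := Om)) h1
  convert this using 1
  ext X
  simp only [opWkl, mem_ofPred_eq, mem_univ, forall_true_left, mem_union, mem_iUnion]
  constructor
  · intro h P
    rcases h P with h | ⟨t, ht, h⟩
    · exact Or.inl h
    · exact Or.inr ⟨t, ht, h⟩
  · intro h P
    rcases h P with h | ⟨t, ht, h⟩
    · exact Or.inl h
    · exact Or.inr ⟨t, ht, h⟩

lemma isOpen_cylC (A : Finset ℕ) (m : ℕ) : IsOpen (cylC A m) := by
  have : cylC A m = (rt ⁻¹' {P : Om | ∀ k < m, P k = decide (k ∈ A)})ᶜ := by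
    ext Z
    simp [cylC]
  rw [this]
  exact ((isClosed_agreeF A m).preimage continuous_rt).isOpen_compl

lemma isOpen_opCyl {O : Op} (hO : ∀ s, IsOpen (O s)) (A : Finset ℕ) (m : ℕ) (s : Node) :
    IsOpen (opCyl A m O s) := (hO s).union (isOpen_cylC A m)

lemma isOpen_opNeg {O W : Op} (hO : ∀ s, IsOpen (O s)) (hW : ∀ s, IsOpen (W s))
    (A : Finset ℕ) (m : ℕ) (t : Node) (n : ℕ) (s : Node) : IsOpen (opNeg A m t n O W s) := by
  refine ((hO s).union (isOpen_cylC A m)).union ?_
  have : {Z | ∃ R : Finset ℕ, (∀ x ∈ R, n < x) ∧ Z ∈ W (R :: t)}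
      = ⋃ R ∈ {R : Finset ℕ | ∀ x ∈ R, n < x}, W (R :: t) := by
    ext Z
    simp
  rw [this]
  exact isOpen_biUnion fun R _ => hW _

lemma isOpen_opPre {W : Op} (hW : ∀ s, IsOpen (W s)) {Φ : Om → Om} (hΦ : Continuous Φ) (s : Node) :
    IsOpen (opPre Φ W s) := (hW s).preimage hΦ

lemma fair_pre {K : Set Op} {f : ℕ → ℕ → Bool} {X : Om} (hX : Fair K f X) {Φ : Om → Om}
    (hK : ∀ W ∈ K, opPre Φ W ∈ K) : Fair K f (Φ X) := by
  intro m W hW hE
  exact hX m (opPre Φ W) (hK W hW) hE

end H860EM
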