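import Pool.Agent.H860EM.Defs
import Pool.Agent.R623.C.Om

set_option autoImplicit false

/-! Definitions for the statement on strong minimal covers: Ramsey-like statements and the three
preorders on them. Structures for second-order arithmetic (`L2Structure`), `IsModelRCA0` (the
structure is a model of `RCA₀`), the pairing function `L2Structure.pair` (`(x + y)² + x`) and
`omegaModel M` (the structure with numbers `ℕ` and family of sets `M`) are those of the files
`Pool.Agent.Helper617.RM.Defs`, `Pool.Agent.Helper617.RM.Orders` and `Pool.Agent.R623.C.Om`. -/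

namespace H860EM

open Pool.Agent.Helper617.RM Pool.Agent.R623.Om

/-- Ramsey-like statements: `rt` is `RT²₂`, `em` is `EM`, `pat l p` is `RT²₂(p)` for the pattern
`p` of size `l` (only the values `p i j` with `i < j` are used). -/
inductive Stm : Type
  | rt : Stm
  | em : Stm
  | pat (l : ℕ) (p : Fin l → Fin l → Bool) : Stm

/-- the permutation `1302` of `{0, 1, 2, 3}` -/
def pi1302 : Equiv.Perm (Fin 4) where
  toFun := ![1, 3, 0, 2]
  invFun := ![2, 0, 3, 1]
  left_inv := by decide
  right_inv := by decide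

/-- `RT²₂(1302)` -/
def c1302 : Stm := .pat 4 (permPattern pi1302)

/-- The pattern is not constant. -/
def Stm.Ok : Stm → Prop
  | .rt => True
  | .em => True
  | .pat _ p => (∃ i j, i < j ∧ p i j = false) ∧ ∃ i j, i < j ∧ p i j = true

/-- `H` is a solution of the instance `X` of a Ramsey-like statement, where the set `X` codes the
colouring that gives the pair `x < y` the colour 1 if the code `pr x y` is in `X`, and 0 if not.
`A` is the set of numbers, with order `lt` and pairing `pr`. -/
def Sol {A : Type} (lt : A → A → Prop) (pr : A → A → A) : Stm → Set A → Set A → Prop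
  | .rt, X, H => (∀ b, ∃ x ∈ H, lt b x) ∧
      ((∀ x ∈ H, ∀ y ∈ H, lt x y → pr x y ∈ X) ∨ (∀ x ∈ H, ∀ y ∈ H, lt x y → pr x y ∉ X))
  | .em, X, H => (∀ b, ∃ x ∈ H, lt b x) ∧
      ∀ x ∈ H, ∀ y ∈ H, ∀ z ∈ H, lt x y → lt y z →
        (pr x y ∈ X ↔ pr y z ∈ X) → (pr x z ∈ X ↔ pr x y ∈ X)
  | .pat l p, X, H => (∀ b, ∃ x ∈ H, lt b x) ∧
      ¬ ∃ a : Fin l → A, (∀ i, a i ∈ H) ∧ (∀ i j, i < j → lt (a i) (a j)) ∧
        ∀ i j, i < j → (pr (a i) (a j) ∈ X ↔ p i j = true)

/-- The statement `C` holds in the structure `N`. -/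
def Holds (N : L2Structure.{0}) (C : Stm) : Prop :=
  ∀ X ∈ N.Sets, ∃ H ∈ N.Sets, Sol N.lt N.pair C X H

/-- Preorder (i): every model of `RCA₀` in which `A` holds satisfies `B`
(that is, `RCA₀` proves `A → B`). -/
def GeRCA (A B : Stm) : Prop :=
  ∀ N : L2Structure.{0}, IsModelRCA0 N → Holds N A → Holds N B

/-- Preorder (ii): every `ω`-model of `RCA₀` in which `A` holds satisfies `B`. -/
def GeOmega (A B : Stm) : Prop :=
  ∀ M : Set (Set ℕ), IsModelRCA0 (omegaModel M) → Holds (omegaModel M) A → Holds (omegaModel M) B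

/-- `X ≤_T Y` -/
def TRed (X Y : Set ℕ) : Prop := TuringReducible (chi X) (chi Y)

/-- The pairing function on `ℕ`. -/
def prN (x y : ℕ) : ℕ := (x + y) * (x + y) + x

/-- Preorder (iii): `B` is computably reducible to `A`. -/
def GeComp (A B : Stm) : Prop :=
  ∀ X : Set ℕ, ∃ Y : Set ℕ, TRed Y X ∧ ∀ Z : Set ℕ, Sol (· < ·) prN A Y Z →
    ∃ W : Set ℕ, TRed W (tjoin X Z) ∧ Sol (· < ·) prN B X W

/-- In the preorder `ge` on Ramsey-like statements, `a` is a strong minimal cover of `b`:
`a > b`, and `b ≥ c` for every Ramsey-like statement `c` with `a > c`. -/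
def StrongMinCover (ge : Stm → Stm → Prop) (a b : Stm) : Prop :=
  (ge a b ∧ ¬ ge b a) ∧ ∀ c : Stm, c.Ok → ge a c → ¬ ge c a → ge b c

end H860EM
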