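import Pool.Agent.H860EM.Av3
import Pool.Agent.H860EM.CoverDefs

set_option autoImplicit false

open Set

namespace H860EM

open Pool.Agent.Helper617.RM Pool.Agent.R623.Om

lemma pp01 : permPattern pi1302 0 1 = false := by decide
lemma pp02 : permPattern pi1302 0 2 = true := by decide
lemma pp03 : permPattern pi1302 0 3 = false := by decide
lemma pp12 : permPattern pi1302 1 2 = true := by decide
lemma pp13 : permPattern pi1302 1 3 = true := by decide
lemma pp23 : permPattern pi1302 2 3 = false := by decide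

lemma c1302_ok : c1302.Ok := ⟨⟨0, 1, by decide, by decide⟩, ⟨0, 2, by decide, by decide⟩⟩

lemma sol_rt_c1302 {A : Type} {lt : A → A → Prop} {pr : A → A → A} {X H : Set A}
    (h : Sol lt pr .rt X H) : Sol lt pr c1302 X H := by
  obtain ⟨h1, h2⟩ := h
  refine ⟨h1, ?_⟩
  rintro ⟨a, ha, hlt, hc⟩
  have e1 := hc 0 1 (by decide)
  have e2 := hc 0 2 (by decide)
  rw [pp01] at e1
  rw [pp02] at e2
  rcases h2 with h2 | h2
  · have := h2 _ (ha 0) _ (ha 1) (hlt 0 1 (by decide))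
    exact Bool.noConfusion (e1.1 this)
  · exact h2 _ (ha 0) _ (ha 2) (hlt 0 2 (by decide)) (e2.2 rfl)

/-! ### reductions between sets -/

lemma chi_eq (A : Set ℕ) : Pool.Agent.Helper446.Defs.chi A = chi A := by
  classical
  funext n
  unfold chi Pool.Agent.Helper446.Defs.chi Pool.Agent.Helper446.Defs.chiN
  by_cases h : n ∈ A <;> simp [h]

lemma tred_iff {A B : Set ℕ} : TRed A B ↔ Pool.Agent.R623.Dec.Le A B := by
  unfold TRed
  rw [Pool.Agent.R623.Dec.le_iff_turing, chi_eq, chi_eq]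

lemma tred_of {A B : Set ℕ} {p : ℕ → Prop} {h : ℕ → ℕ} (hp : ComputablePred p)
    (hh : Computable h) (hA : ∀ n, n ∈ A ↔ p n ∧ h n ∈ B) : TRed A B := by
  rw [tred_iff]
  have h1 : Pool.Agent.R623.Dec.DecIn B fun n : ℕ => p n ∧ h n ∈ B :=
    (Pool.Agent.R623.Dec.DecIn.of_cp hp).and (Pool.Agent.R623.Dec.DecIn.mem hh)
  exact h1.of_eq fun n => (hA n).symm

lemma computable_double : Computable fun n : ℕ => 2 * n :=
  (Primrec.nat_mul.comp (Primrec.const 2) Primrec.id).to_comp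

lemma computable_double_succ : Computable fun n : ℕ => 2 * n + 1 :=
  (Primrec.succ.comp (Primrec.nat_mul.comp (Primrec.const 2) Primrec.id)).to_comp

lemma cp_true : ComputablePred fun _ : ℕ => True :=
  ⟨inferInstance, Computable.const _⟩

lemma tred_tjoin_left (A B : Set ℕ) : TRed A (tjoin A B) :=
  tred_of cp_true computable_double fun n => by
    have h1 : 2 * n % 2 = 0 := by omega
    have h2 : 2 * n / 2 = n := by omega
    simp [tjoin]

lemma tred_tjoin_right (A B : Set ℕ) : TRed B (tjoin A B) :=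
  tred_of cp_true computable_double_succ fun n => by
    have h1 : (2 * n + 1) % 2 = 1 := by omega
    have h2 : (2 * n + 1) / 2 = n := by omega
    simp [tjoin, h1, h2]

lemma TuringIdeal.ideal {M : Set (Set ℕ)} (hM : TuringIdeal M) : Ideal M where
  down A B h hB := hM.down B hB A (tred_iff.2 h)
  join A hA B hB := ⟨tjoin A B, hM.join A hA B hB, tred_iff.1 (tred_tjoin_left A B),
    tred_iff.1 (tred_tjoin_right A B)⟩
  ne := hM.nonempty

/-! ### changing the coding of pairs -/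

def toN (X : Set ℕ) : Set ℕ := {n | prN (Nat.unpair n).1 (Nat.unpair n).2 ∈ X}

lemma mem_toN {X : Set ℕ} {x y : ℕ} : Nat.pair x y ∈ toN X ↔ prN x y ∈ X := by
  simp [toN]

lemma tred_toN (X : Set ℕ) : TRed (toN X) X := by
  have h1 : Primrec fun n : ℕ => (Nat.unpair n).1 := Primrec.fst.comp Primrec.unpair
  have h2 : Primrec fun n : ℕ => (Nat.unpair n).2 := Primrec.snd.comp Primrec.unpair
  have h3 : Primrec fun n : ℕ => (Nat.unpair n).1 + (Nat.unpair n).2 := Primrec.nat_add.comp h1 h2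
  have h4 : Primrec fun n : ℕ => prN (Nat.unpair n).1 (Nat.unpair n).2 :=
    Primrec.nat_add.comp (Primrec.nat_mul.comp h3 h3) h1
  exact tred_of cp_true h4.to_comp fun n => by simp [toN]

/-- the set in the coding `prN` of the colouring coded by `C` in the coding `Nat.pair` -/
def frN (C : Set ℕ) : Set ℕ :=
  {n | n - Nat.sqrt n * Nat.sqrt n ≤ Nat.sqrt n ∧
    Nat.pair (n - Nat.sqrt n * Nat.sqrt n) (Nat.sqrt n - (n - Nat.sqrt n * Nat.sqrt n)) ∈ C}

lemma sqrt_prN (x y : ℕ) : Nat.sqrt (prN x y) = x + y := by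
  unfold prN
  rw [Nat.sqrt_add_eq]
  omega

lemma mem_frN {C : Set ℕ} {x y : ℕ} : prN x y ∈ frN C ↔ Nat.pair x y ∈ C := by
  have h1 : prN x y - (x + y) * (x + y) = x := by unfold prN; omega
  simp only [frN, mem_ofPred_eq, sqrt_prN, h1]
  have h2 : x + y - x = y := by omega
  rw [h2]
  constructor
  · exact fun h => h.2
  · exact fun h => ⟨by omega, h⟩

lemma tred_frN (C : Set ℕ) : TRed (frN C) C := by
  have hs : Primrec Nat.sqrt := Primrec.nat_sqrt
  have h1 : Primrec fun n : ℕ => n - Nat.sqrt n * Nat.sqrt n :=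
    Primrec.nat_sub.comp Primrec.id (Primrec.nat_mul.comp hs hs)
  have h2 : Primrec fun n : ℕ => Nat.sqrt n - (n - Nat.sqrt n * Nat.sqrt n) :=
    Primrec.nat_sub.comp hs h1
  have h3 : Primrec fun n : ℕ => Nat.pair (n - Nat.sqrt n * Nat.sqrt n)
      (Nat.sqrt n - (n - Nat.sqrt n * Nat.sqrt n)) := Primrec₂.natPair.comp h1 h2
  have h4 : PrimrecPred fun n : ℕ => n - Nat.sqrt n * Nat.sqrt n ≤ Nat.sqrt n :=
    Primrec.nat_le.comp h1 hs
  refine tred_of ?_ h3.to_comp fun n => Iff.rfl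
  obtain ⟨h5, h6⟩ := h4
  exact ⟨h5, h6.to_comp⟩

/-! ### the two ideals -/

lemma holds_iff {M : Set (Set ℕ)} {A : Stm} : Holds (omegaModel M) A ↔
    ∀ X ∈ M, ∃ H ∈ M, Sol (fun x y : ℕ => x < y) prN A X H := Iff.rfl

lemma col_iff {C : Set ℕ} {x y : ℕ} : col C x y = true ↔ Nat.pair x y ∈ C := by
  unfold col
  simp

lemma col_toN {X : Set ℕ} {x y : ℕ} : col (toN X) x y = true ↔ prN x y ∈ X := by
  rw [col_iff, mem_toN]

lemma unbounded {H : Set ℕ} : (∀ b, ∃ x ∈ H, b < x) ↔ H.Infinite := by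
  constructor
  · intro h
    exact Set.infinite_of_forall_exists_gt fun b => by
      obtain ⟨x, hx, hb⟩ := h b
      exact ⟨x, hx, hb⟩
  · intro h b
    obtain ⟨x, hx, hb⟩ := h.exists_gt b
    exact ⟨x, hx, hb⟩

lemma model_of {M : Set (Set ℕ)} (hM : TuringIdeal M) : IsModelRCA0 (omegaModel M) :=
  isModel hM.ideal

lemma toN_mem {M : Set (Set ℕ)} (hM : TuringIdeal M) {X : Set ℕ} (hX : X ∈ M) : toN X ∈ M :=
  hM.down X hX _ (tred_toN X)

lemma frN_mem {M : Set (Set ℕ)} (hM : TuringIdeal M) {X : Set ℕ} (hX : X ∈ M) : frN X ∈ M :=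
  hM.down X hX _ (tred_frN X)

lemma holds_em {M : Set (Set ℕ)} (hM : TuringIdeal M) (h : EM M) :
    Holds (omegaModel M) .em := by
  rw [holds_iff]
  intro X hX
  obtain ⟨H, hH, hinf, ht⟩ := h (toN X) (toN_mem hM hX)
  refine ⟨H, hH, unbounded.2 hinf, fun x hx y hy z hz hxy hyz he => ?_⟩
  have h1 : col (toN X) x y = col (toN X) y z := by
    rw [← col_toN, ← col_toN] at he
    exact Bool.eq_iff_iff.2 he
  have h2 := ht x hx y hy z hz hxy hyz h1
  rw [← col_toN, ← col_toN, h2]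

lemma not_holds_c1302 {M : Set (Set ℕ)} (hM : TuringIdeal M) {C : Set ℕ} (hC : C ∈ M)
    (h : ∀ H ∈ M, H.Infinite → Realises (col C) H (permPattern pi1302)) :
    ¬ Holds (omegaModel M) c1302 := by
  rw [holds_iff]
  intro hh
  obtain ⟨H, hH, h1, h2⟩ := hh (frN C) (frN_mem hM hC)
  obtain ⟨x, hx, hxH, hxc⟩ := h H hH (unbounded.1 h1)
  refine h2 ⟨x, hxH, fun i j hij => hx hij, fun i j hij => ?_⟩
  rw [← hxc i j hij, mem_frN, col_iff]

lemma holds_c1302 {M : Set (Set ℕ)} (hM : TuringIdeal M)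
    (h : ∀ C ∈ M, ∃ H ∈ M, H.Infinite ∧ Av (col C) H) : Holds (omegaModel M) c1302 := by
  rw [holds_iff]
  intro X hX
  obtain ⟨H, hH, hinf, ht⟩ := h (toN X) (toN_mem hM hX)
  refine ⟨H, hH, unbounded.2 hinf, ?_⟩
  rintro ⟨a, ha, hlt, hc⟩
  have key : ∀ i j : Fin 4, i < j → col (toN X) (a i) (a j) = permPattern pi1302 i j := by
    intro i j hij
    rw [Bool.eq_iff_iff, col_toN]
    exact hc i j hij
  refine ht (a 0) (ha 0) (a 1) (ha 1) (a 2) (ha 2) (a 3) (ha 3) (hlt 0 1 (by decide))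
    (hlt 1 2 (by decide)) (hlt 2 3 (by decide)) ?_
  rw [key 0 1 (by decide), key 0 2 (by decide), key 0 3 (by decide), key 1 2 (by decide),
    key 1 3 (by decide), key 2 3 (by decide)]
  exact ⟨pp01, pp02, pp03, pp12, pp13, pp23⟩

lemma not_holds_rt {M : Set (Set ℕ)} (hM : TuringIdeal M) {C : Set ℕ} (hC : C ∈ M)
    (h : ∀ H ∈ M, H.Infinite → ∀ b : Bool, ¬ ∀ x ∈ H, ∀ y ∈ H, x < y → col C x y = b) :
    ¬ Holds (omegaModel M) .rt := by
  rw [holds_iff]
  intro hh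
  obtain ⟨H, hH, h1, h2⟩ := hh (frN C) (frN_mem hM hC)
  rcases h2 with h2 | h2
  · refine h H hH (unbounded.1 h1) true fun x hx y hy hxy => ?_
    rw [col_iff, ← mem_frN]
    exact h2 x hx y hy hxy
  · refine h H hH (unbounded.1 h1) false fun x hx y hy hxy => ?_
    rw [← Bool.not_eq_true, col_iff, ← mem_frN]
    exact h2 x hx y hy hxy

theorem exists_ideal1 : ∃ M : Set (Set ℕ), TuringIdeal M ∧ Holds (omegaModel M) .em ∧
    ¬ Holds (omegaModel M) c1302 := by
  obtain ⟨M, hM, h1, C, hC, -, h2⟩ := main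
  exact ⟨M, hM, holds_em hM h1, not_holds_c1302 hM hC fun H hH hinf => h2 H hH hinf 4 pi1302⟩

theorem exists_ideal2 : ∃ M : Set (Set ℕ), TuringIdeal M ∧ Holds (omegaModel M) c1302 ∧
    ¬ Holds (omegaModel M) .rt := by
  obtain ⟨M, hM, h1, C, hC, h2⟩ := main2
  exact ⟨M, hM, holds_c1302 hM h1, not_holds_rt hM hC h2⟩

/-! ### the preorders -/

lemma GeRCA.omega {A B : Stm} (h : GeRCA A B) : GeOmega A B := fun M hM hA =>
  h (omegaModel M) hM hA

lemma GeOmega.holds {A B : Stm} (h : GeOmega A B) {M : Set (Set ℕ)} (hM : TuringIdeal M)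
    (hA : Holds (omegaModel M) A) : Holds (omegaModel M) B := h M (model_of hM) hA

lemma GeComp.holds {A B : Stm} (h : GeComp A B) {M : Set (Set ℕ)} (hM : TuringIdeal M)
    (hA : Holds (omegaModel M) A) : Holds (omegaModel M) B := by
  rw [holds_iff] at hA ⊢
  intro X hX
  obtain ⟨Y, hY, h1⟩ := h X
  obtain ⟨Z, hZ, h2⟩ := hA Y (hM.down X hX Y hY)
  obtain ⟨W, hW, h3⟩ := h1 Z h2
  exact ⟨W, hM.down _ (hM.join X hX Z hZ) W hW, h3⟩

lemma geRCA_rt : GeRCA .rt c1302 := by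
  intro N _ h X hX
  obtain ⟨H, hH, h1⟩ := h X hX
  exact ⟨H, hH, sol_rt_c1302 h1⟩

lemma geComp_rt : GeComp .rt c1302 := by
  intro X
  exact ⟨X, TuringReducible.refl _, fun Z hZ => ⟨Z, tred_tjoin_right X Z, sol_rt_c1302 hZ⟩⟩

theorem witness {ge : Stm → Stm → Prop} (h : ge .rt c1302)
    (hh : ∀ {A B : Stm}, ge A B → ∀ {M : Set (Set ℕ)}, TuringIdeal M → Holds (omegaModel M) A →
      Holds (omegaModel M) B) : ge .rt c1302 ∧ ¬ ge c1302 .rt ∧ ¬ ge .em c1302 := by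
  obtain ⟨M1, hM1, h3, h4⟩ := exists_ideal1
  obtain ⟨M2, hM2, h5, h6⟩ := exists_ideal2
  exact ⟨h, fun hc => h6 (hh hc hM2 h5), fun hc => h4 (hh hc hM1 h3)⟩

theorem not_strong {ge : Stm → Stm → Prop}
    (h : ge .rt c1302 ∧ ¬ ge c1302 .rt ∧ ¬ ge .em c1302) : ¬ StrongMinCover ge .rt .em :=
  fun h2 => h.2.2 (h2.2 c1302 c1302_ok h.1 h.2.1)

theorem witness_rca : GeRCA .rt c1302 ∧ ¬ GeRCA c1302 .rt ∧ ¬ GeRCA .em c1302 :=
  witness geRCA_rt fun h _ hM hA => h.omega.holds hM hA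

theorem witness_omega : GeOmega .rt c1302 ∧ ¬ GeOmega c1302 .rt ∧ ¬ GeOmega .em c1302 :=
  witness geRCA_rt.omega fun h _ hM hA => h.holds hM hA

theorem witness_comp : GeComp .rt c1302 ∧ ¬ GeComp c1302 .rt ∧ ¬ GeComp .em c1302 :=
  witness geComp_rt fun h _ hM hA => h.holds hM hA

end H860EM
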