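import Mathlib

set_option autoImplicit false

/-! Definitions used in the statement: Turing ideals, the Erdos-Moser theorem and
avoidance of patterns, relativised to a Turing ideal. -/

namespace H860EM

open Classical in
/-- the characteristic function of a set of natural numbers -/
noncomputable def chi (A : Set ℕ) : ℕ →. ℕ := fun n => Part.some (if n ∈ A then 1 else 0)

/-- the join `A ⊕ B` of two sets of natural numbers -/
def tjoin (A B : Set ℕ) : Set ℕ := {n | (n % 2 = 0 ∧ n / 2 ∈ A) ∨ (n % 2 = 1 ∧ n / 2 ∈ B)}

/-- a Turing ideal, i.e. (the second-order part of) an `ω`-model of `RCA₀` -/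
structure TuringIdeal (M : Set (Set ℕ)) : Prop where
  nonempty : M.Nonempty
  join : ∀ A ∈ M, ∀ B ∈ M, tjoin A B ∈ M
  down : ∀ A ∈ M, ∀ B : Set ℕ, TuringReducible (chi B) (chi A) → B ∈ M

open Classical in
/-- the colouring of pairs coded by a set of natural numbers
(`false` is colour 0, `true` is colour 1; only its values at `x < y` are used) -/
noncomputable def col (C : Set ℕ) (x y : ℕ) : Bool := decide (Nat.pair x y ∈ C)

/-- `H` is transitive for the colouring `c`: neither colour has a non-transitive triple -/
def FTransitive (c : ℕ → ℕ → Bool) (H : Set ℕ) : Prop :=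
  ∀ x ∈ H, ∀ y ∈ H, ∀ z ∈ H, x < y → y < z → c x y = c y z → c x z = c x y

/-- the Erdos-Moser theorem holds in `M` -/
def EM (M : Set (Set ℕ)) : Prop :=
  ∀ C ∈ M, ∃ H ∈ M, H.Infinite ∧ FTransitive (col C) H

/-- `H` realises the pattern `p` for the colouring `c` -/
def Realises (c : ℕ → ℕ → Bool) (H : Set ℕ) {l : ℕ} (p : Fin l → Fin l → Bool) : Prop :=
  ∃ x : Fin l → ℕ, StrictMono x ∧ (∀ i, x i ∈ H) ∧ ∀ i j, i < j → c (x i) (x j) = p i j

/-- the pattern of a permutation: colour 0 if `π i < π j`, colour 1 otherwise -/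
def permPattern {l : ℕ} (π : Equiv.Perm (Fin l)) (i j : Fin l) : Bool :=
  if π i < π j then false else true

end H860EM
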