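import Pool.Agent.H860EM.Base

set_option autoImplicit false

namespace H860EM

/-- end-homogeneous sequences -/
lemma endhom {C : Type} [Fintype C] [Nonempty C] (n : ℕ) : ∃ m : ℕ, ∀ (χ : ℕ → ℕ → C)
    (S : Finset ℕ), m ≤ S.card → ∃ a : ℕ → ℕ, ∃ col : ℕ → C, (∀ i < n, a i ∈ S) ∧
      (∀ i j, i < j → j < n → a i < a j) ∧ (∀ i j, i < j → j < n → χ (a i) (a j) = col i) := by
  classical
  induction n with
  | zero =>
    exact ⟨0, fun χ S _ => ⟨fun _ => 0, fun _ => Classical.arbitrary C, by simp, by simp, by simp⟩⟩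
  | succ n ih =>
    obtain ⟨m, hm⟩ := ih
    refine ⟨Fintype.card C * m + 1 + 1, fun χ S hS => ?_⟩
    have hne : S.Nonempty := Finset.card_pos.1 (by omega)
    set x := S.min' hne with hx
    have hxS : x ∈ S := S.min'_mem hne
    have hcard : Fintype.card C * m < (S.erase x).card := by
      rw [Finset.card_erase_of_mem hxS]; omega
    have h1 : ∃ c ∈ (Finset.univ : Finset C), m < ((S.erase x).filter fun y => χ x y = c).card := by
      apply Finset.exists_lt_card_fiber_of_mul_lt_card_of_maps_to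
      · intro y _
        exact Finset.mem_univ _
      · rwa [Finset.card_univ]
    obtain ⟨c, -, hc⟩ := h1
    obtain ⟨a, col, ha1, ha2, ha3⟩ := hm χ _ hc.le
    refine ⟨fun i => if i = 0 then x else a (i - 1), fun i => if i = 0 then c else col (i - 1),
      ?_, ?_, ?_⟩
    · intro i hi
      by_cases h0 : i = 0
      · simp [h0, hxS]
      · simp only [h0, if_false]
        have := ha1 (i - 1) (by omega)
        exact (Finset.mem_erase.1 (Finset.mem_filter.1 this).1).2
    · intro i j hij hj
      have hj0 : j ≠ 0 := by omega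
      by_cases h0 : i = 0
      · simp only [h0, if_true, hj0, if_false]
        have := ha1 (j - 1) (by omega)
        have h2 := Finset.mem_erase.1 (Finset.mem_filter.1 this).1
        exact lt_of_le_of_ne (S.min'_le _ h2.2) (Ne.symm h2.1)
      · simp only [h0, hj0, if_false]
        exact ha2 (i - 1) (j - 1) (by omega) (by omega)
    · intro i j hij hj
      have hj0 : j ≠ 0 := by omega
      by_cases h0 : i = 0
      · simp only [h0, if_true, hj0, if_false]
        have := ha1 (j - 1) (by omega)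
        exact (Finset.mem_filter.1 this).2
      · simp only [h0, hj0, if_false]
        exact ha3 (i - 1) (j - 1) (by omega) (by omega)

/-- finite Ramsey theorem for pairs -/
lemma ramsey {C : Type} [Fintype C] [Nonempty C] (n : ℕ) : ∃ m : ℕ, ∀ (χ : ℕ → ℕ → C),
    ∃ a : ℕ → ℕ, ∃ c : C, (∀ i < n, a i < m) ∧
      (∀ i j, i < j → j < n → a i < a j) ∧ (∀ i j, i < j → j < n → χ (a i) (a j) = c) := by
  classical
  obtain ⟨m, hm⟩ := endhom (C := C) (Fintype.card C * n + 1)
  refine ⟨m, fun χ => ?_⟩
  obtain ⟨a, col, ha1, ha2, ha3⟩ := hm χ (Finset.range m) (by simp)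
  have h1 : ∃ c ∈ (Finset.univ : Finset C),
      n < ((Finset.range (Fintype.card C * n + 1)).filter fun y => col y = c).card ∨ 
      n = ((Finset.range (Fintype.card C * n + 1)).filter fun y => col y = c).card := by
    have h2 : ∃ c ∈ (Finset.univ : Finset C),
        n < ((Finset.range (Fintype.card C * n + 1)).filter fun y => col y = c).card := by
      apply Finset.exists_lt_card_fiber_of_mul_lt_card_of_maps_to
      · intro y _
        exact Finset.mem_univ _
      · rw [Finset.card_univ, Finset.card_range]; omega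
    obtain ⟨c, h3, h4⟩ := h2
    exact ⟨c, h3, Or.inl h4⟩
  obtain ⟨c, -, hc⟩ := h1
  set B := (Finset.range (Fintype.card C * n + 1)).filter fun y => col y = c with hB
  have hcard : n ≤ B.card := by omega
  obtain ⟨B', hB'1, hB'2⟩ := Finset.exists_subset_card_eq hcard
  let e := B'.orderEmbOfFin hB'2
  have he : ∀ i : Fin n, e i ∈ B := fun i => hB'1 (B'.orderEmbOfFin_mem hB'2 i)
  refine ⟨fun i => if h : i < n then a (e ⟨i, h⟩) else 0, c, ?_, ?_, ?_⟩
  · intro i hi
    simp only [hi, dif_pos]
    have := (Finset.mem_filter.1 (he ⟨i, hi⟩)).1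
    exact Finset.mem_range.1 (ha1 _ (Finset.mem_range.1 this))
  · intro i j hij hj
    have hi : i < n := by omega
    simp only [hi, hj, dif_pos]
    refine ha2 _ _ ?_ (Finset.mem_range.1 (Finset.mem_filter.1 (he ⟨j, hj⟩)).1)
    exact (B'.orderEmbOfFin hB'2).strictMono (show (⟨i, hi⟩ : Fin n) < ⟨j, hj⟩ from hij)
  · intro i j hij hj
    have hi : i < n := by omega
    simp only [hi, hj, dif_pos]
    rw [ha3 _ _ ((B'.orderEmbOfFin hB'2).strictMono (show (⟨i, hi⟩ : Fin n) < ⟨j, hj⟩ from hij))
      (Finset.mem_range.1 (Finset.mem_filter.1 (he ⟨j, hj⟩)).1)]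
    exact (Finset.mem_filter.1 (he ⟨i, hi⟩)).2

lemma prod_ramsey {C : Type} [Fintype C] [Nonempty C] (n : ℕ) : ∃ m : ℕ,
    ∀ (χ : ℕ → ℕ → ℕ → ℕ → C),
    ∃ a b : ℕ → ℕ, ∃ c : C, (∀ i < n, a i < m) ∧ (∀ i < n, b i < m) ∧
      (∀ i j, i < j → j < n → a i < a j) ∧ (∀ i j, i < j → j < n → b i < b j) ∧
      (∀ i j k l, i < j → j < n → k < l → l < n → χ (a i) (a j) (b k) (b l) = c) := by
  classical
  obtain ⟨mB, hB⟩ := ramsey (C := C) n
  obtain ⟨mA, hA⟩ := ramsey (C := Fin mB → Fin mB → C) n
  refine ⟨max mA mB, fun χ => ?_⟩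
  obtain ⟨a, cf, ha1, ha2, ha3⟩ := hA (fun x y => fun k l => χ x y k l)
  obtain ⟨b, c, hb1, hb2, hb3⟩ := hB (fun k l => if h : k < mB ∧ l < mB then cf ⟨k, h.1⟩ ⟨l, h.2⟩
    else Classical.arbitrary C)
  refine ⟨a, b, c, fun i hi => lt_of_lt_of_le (ha1 i hi) (le_max_left _ _),
    fun i hi => lt_of_lt_of_le (hb1 i hi) (le_max_right _ _), ha2, hb2, ?_⟩
  intro i j k l hij hj hkl hl
  have h1 := hb3 k l hkl hl
  have h2 : b k < mB ∧ b l < mB := ⟨hb1 k (by omega), hb1 l hl⟩
  rw [dif_pos h2, ← ha3 i j hij hj] at h1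
  exact h1

/-- the Ramsey statement for permutations that we need -/
theorem perm_ramsey (N : ℕ) (Q : ℕ → ℕ) (hQ : ∀ i < N, Q i < N)
    (hinj : ∀ i < N, ∀ j < N, Q i = Q j → i = j) :
    ∃ m : ℕ, ∀ e : ℕ → ℕ → Bool, ∃ ι : ℕ → ℕ, ∃ α β γ : Bool,
      (∀ q r, q < r → r < N → ι q < ι r) ∧ (∀ q < N, ι q < m * m) ∧
      (∀ q r, q < r → r < N → (gm m (ι r) < gm m (ι q) ↔ Q r < Q q)) ∧
      (∀ q < N, e (ι q) (m * m) = γ) ∧
      (∀ q r, q < r → r < N → e (ι q) (ι r) = if Q r < Q q then α else β) := by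
  obtain ⟨m, hm⟩ := prod_ramsey (C := Bool × Bool × Bool) (N + 1)
  refine ⟨m, fun e => ?_⟩
  obtain ⟨a, b, ⟨γ, β, α⟩, ha, hb, ha', hb', hc⟩ := hm (fun x y k l =>
    (e (x * m + k) (m * m), e (x * m + k) (y * m + l), e (x * m + l) (y * m + k)))
  have hidx : ∀ x k, x < m → k < m → x * m + k < m * m := by
    intro x k hx hk
    calc x * m + k < x * m + m := by omega
      _ = (x + 1) * m := by ring
      _ ≤ m * m := Nat.mul_le_mul_right _ hx
  have hgm : ∀ x k, x < m → k < m → gm m (x * m + k) = k * m + x := by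
    intro x k hx hk
    have hm0 : 0 < m := by omega
    unfold gm
    have e1 : (x * m + k) % m = k := by
      rw [mul_comm, Nat.mul_add_mod, Nat.mod_eq_of_lt hk]
    have e2 : (x * m + k) / m = x := by
      rw [mul_comm, Nat.mul_add_div hm0, Nat.div_eq_of_lt hk, add_zero]
    rw [e1, e2]
  have hlt : ∀ x k y l, x < m → k < m → y < m → l < m → x < y → x * m + k < y * m + l := by
    intro x k y l hx hk hy hl hxy
    calc x * m + k < x * m + m := by omega
      _ = (x + 1) * m := by ring
      _ ≤ y * m := Nat.mul_le_mul_right _ hxy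
      _ ≤ y * m + l := by omega
  refine ⟨fun q => a q * m + b (Q q), α, β, γ, ?_, ?_, ?_, ?_, ?_⟩
  · intro q r hqr hr
    exact hlt _ _ _ _ (ha q (by omega)) (hb _ (by have := hQ q (by omega); omega)) (ha r (by omega))
      (hb _ (by have := hQ r (by omega); omega)) (ha' q r hqr (by omega))
  · intro q hq
    exact hidx _ _ (ha q (by omega)) (hb _ (by have := hQ q hq; omega))
  · intro q r hqr hr
    have hq := hQ q (by omega)
    have hr' := hQ r hr
    rw [hgm _ _ (ha q (by omega)) (hb _ (by omega)), hgm _ _ (ha r (by omega)) (hb _ (by omega))]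
    constructor
    · intro h
      by_contra hge
      have hne : Q q ≠ Q r := fun h' => by
        have := hinj q (by omega) r hr h'
        omega
      have hlt' : Q q < Q r := by omega
      have := hlt _ (a q) _ (a r) (hb (Q q) (by omega)) (ha q (by omega)) (hb (Q r) (by omega))
        (ha r (by omega)) (hb' _ _ hlt' (by omega))
      omega
    · intro h
      exact hlt _ (a r) _ (a q) (hb (Q r) (by omega)) (ha r (by omega)) (hb (Q q) (by omega))
        (ha q (by omega)) (hb' _ _ h (by omega))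
  · intro q hq
    have := hc q (q + 1) (Q q) (Q q + 1) (by omega) (by omega) (by omega)
      (by have := hQ q hq; omega)
    exact congrArg Prod.fst this
  · intro q r hqr hr
    have hq := hQ q (by omega)
    have hr' := hQ r hr
    by_cases h : Q r < Q q
    · rw [if_pos h]
      have := hc q r (Q r) (Q q) hqr (by omega) h (by omega)
      exact congrArg (fun p => p.2.2) this
    · have hne : Q q ≠ Q r := fun h' => by
        have := hinj q (by omega) r hr h'
        omega
      rw [if_neg h]
      have := hc q r (Q q) (Q r) hqr (by omega) (by omega) (by omega)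
      exact congrArg (fun p => p.2.1) this

end H860EM
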