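import Pool.Agent.H860EM.Wkl
import Pool.Agent.H860EM.Ram

set_option autoImplicit false

open Set Topology

namespace H860EM

variable {K : Set Op} {f : ℕ → ℕ → Bool} {X : Om}

lemma valid_move {g : ℕ → ℕ → Bool} {A : Set ℕ} {z0 z : ℕ} (hA0 : ∀ x ∈ A, x < z0)
    (hA : ∀ x ∈ A, x < z) (h : ∀ x ∈ A, g x z0 = g x z) (ht : Trans g (insert z0 A)) :
    Trans g (insert z A) := by
  intro x hx y hy w hw hxy hyw heq
  rcases hw with rfl | hw
  · rcases hy with rfl | hy
    · omega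
    rcases hx with rfl | hx
    · exact absurd (hA y hy) (by omega)
    rw [← h x hx]
    exact ht x (Or.inr hx) y (Or.inr hy) z0 (Or.inl rfl) hxy (hA0 y hy) (by rw [h y hy]; exact heq)
  · rcases hy with rfl | hy
    · exact absurd (hA w hw) (by omega)
    rcases hx with rfl | hx
    · exact absurd (hA y hy) (by omega)
    exact ht x (Or.inr hx) y (Or.inr hy) w (Or.inr hw) hxy hyw heq

lemma phi_eq (X : Om) (Y : Set ℕ) (U ρ : Finset ℕ) (b : ℕ) :
    phi U ρ b (jn X (chs Y)) =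
      jn X (chs {z | z ∈ Y ∧ b < z ∧ ∀ x ∈ U, gof X x z = decide (x ∈ ρ)}) := by
  unfold phi
  rw [lf_jn, rt_jn]
  congr 1
  funext z
  by_cases h1 : z ∈ Y
  · by_cases h2 : b < z
    · by_cases h3 : ∀ x ∈ U, gof X x z = decide (x ∈ ρ)
      · rw [show chs Y z = true from chs_true.2 h1, show decide (b < z) = true from decide_eq_true h2,
          show decide (∀ x ∈ U, gof X x z = decide (x ∈ ρ)) = true from decide_eq_true h3,
          show chs {z | z ∈ Y ∧ b < z ∧ ∀ x ∈ U, gof X x z = decide (x ∈ ρ)} z = true from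
            chs_true.2 ⟨h1, h2, h3⟩]
        rfl
      · have : chs {z | z ∈ Y ∧ b < z ∧ ∀ x ∈ U, gof X x z = decide (x ∈ ρ)} z = false := by
          rw [Bool.eq_false_iff]
          intro h
          exact h3 (chs_true.1 h).2.2
        rw [this, show decide (∀ x ∈ U, gof X x z = decide (x ∈ ρ)) = false from
          decide_eq_false h3, Bool.and_false, Bool.and_false]
    · have : chs {z | z ∈ Y ∧ b < z ∧ ∀ x ∈ U, gof X x z = decide (x ∈ ρ)} z = false := by
        rw [Bool.eq_false_iff]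
        intro h
        exact h2 (chs_true.1 h).2.1
      rw [this, show decide (b < z) = false from decide_eq_false h2, Bool.false_and,
        Bool.and_false]
  · have : chs {z | z ∈ Y ∧ b < z ∧ ∀ x ∈ U, gof X x z = decide (x ∈ ρ)} z = false := by
      rw [Bool.eq_false_iff]
      intro h
      exact h1 (chs_true.1 h).1
    have h' : chs Y z = false := by
      rw [Bool.eq_false_iff]
      intro h
      exact h1 (chs_true.1 h)
    rw [this, h', Bool.false_and]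

lemma psi_eq (X P : Om) (Y : Set ℕ) (κ : Finset ℕ) (k : ℕ) :
    psi κ k (jn (jn X (chs Y)) P) =
      jn X (chs {z | z ∈ Y ∧ ∀ i < k, P (Nat.pair z i) = decide (i ∈ κ)}) := by
  unfold psi
  rw [lf_jn, rt_jn, lf_jn, rt_jn]
  congr 1
  funext z
  by_cases h1 : z ∈ Y
  · by_cases h3 : ∀ i < k, P (Nat.pair z i) = decide (i ∈ κ)
    · rw [show chs Y z = true from chs_true.2 h1,
          show decide (∀ i < k, P (Nat.pair z i) = decide (i ∈ κ)) = true from decide_eq_true h3,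
          show chs {z | z ∈ Y ∧ ∀ i < k, P (Nat.pair z i) = decide (i ∈ κ)} z = true from
            chs_true.2 ⟨h1, h3⟩]
      rfl
    · have : chs {z | z ∈ Y ∧ ∀ i < k, P (Nat.pair z i) = decide (i ∈ κ)} z = false := by
        rw [Bool.eq_false_iff]
        intro h
        exact h3 (chs_true.1 h).2
      rw [this, show decide (∀ i < k, P (Nat.pair z i) = decide (i ∈ κ)) = false from
        decide_eq_false h3, Bool.and_false]
  · have : chs {z | z ∈ Y ∧ ∀ i < k, P (Nat.pair z i) = decide (i ∈ κ)} z = false := by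
      rw [Bool.eq_false_iff]
      intro h
      exact h1 (chs_true.1 h).1
    have h' : chs Y z = false := by
      rw [Bool.eq_false_iff]
      intro h
      exact h1 (chs_true.1 h)
    rw [this, h', Bool.false_and]

lemma infinite_piece {Y : Set ℕ} (hY : Y.Infinite) (S : Finset (Finset ℕ))
    (p : Finset ℕ → ℕ → Prop) (h : ∀ z ∈ Y, ∃ κ ∈ S, p κ z) :
    ∃ κ ∈ S, {z | z ∈ Y ∧ p κ z}.Infinite := by
  by_contra hcon
  push Not at hcon
  apply hY
  have h1 : (⋃ κ ∈ S, {z | z ∈ Y ∧ p κ z}).Finite := by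
    refine Set.Finite.biUnion S.finite_toSet fun κ hκ => ?_
    exact hcon κ hκ
  refine h1.subset fun z hz => ?_
  obtain ⟨κ, hκ, h2⟩ := h z hz
  exact mem_biUnion (x := κ) hκ ⟨hz, h2⟩

lemma restrict (hK : Good K) {Y : Set ℕ} (hY : Y.Infinite) (hf : Fair K f (jn X (chs Y)))
    (U : Finset ℕ) (b : ℕ) : ∃ ρ : Finset ℕ,
      {z | z ∈ Y ∧ b < z ∧ ∀ x ∈ U, gof X x z = decide (x ∈ ρ)}.Infinite ∧
      Fair K f (jn X (chs {z | z ∈ Y ∧ b < z ∧ ∀ x ∈ U, gof X x z = decide (x ∈ ρ)})) := by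
  have hY' : {z | z ∈ Y ∧ b < z}.Infinite := by
    have : (Y \ (Finset.range (b + 1) : Set ℕ)).Infinite := hY.sdiff (Finset.finite_toSet _)
    refine this.mono ?_
    rintro z ⟨h1, h2⟩
    refine ⟨h1, ?_⟩
    simp only [Finset.coe_range, mem_Iio, not_lt] at h2
    omega
  obtain ⟨ρ, -, hρ⟩ := infinite_piece hY' U.powerset
    (fun ρ z => ∀ x ∈ U, gof X x z = decide (x ∈ ρ)) (by
      intro z _
      refine ⟨U.filter fun x => gof X x z = true, ?_, ?_⟩
      · exact Finset.mem_powerset.2 (Finset.filter_subset _ _)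
      · intro x hx
        simp [hx])
  have he : {z | z ∈ Y ∧ b < z ∧ ∀ x ∈ U, gof X x z = decide (x ∈ ρ)}
      = {z | z ∈ {z | z ∈ Y ∧ b < z} ∧ ∀ x ∈ U, gof X x z = decide (x ∈ ρ)} := by
    ext z
    simp only [mem_ofPred_eq, and_assoc]
  refine ⟨ρ, ?_, ?_⟩
  · rw [he]; exact hρ
  · rw [← phi_eq]
    exact fair_pre hf (hK.prePhi U ρ b)

lemma level (hK : Good K) {Y : Set ℕ} (hY : Y.Infinite) (hf : Fair K f (jn X (chs Y)))
    {U : Finset ℕ} {m : ℕ} (hom : ∀ x ∈ U, ∀ z ∈ Y, ∀ z' ∈ Y, gof X x z = gof X x z')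
    (hU : ∀ x ∈ U, x ≤ m) (hm : ∀ z ∈ Y, m < z) {W : Op} (hW : W ∈ K) {T : Finset Trk}
    (hT : ∀ τ ∈ T, τ.1 ⊆ U ∧ (τ.2 = [] ∨ Frc W X τ.1 m τ.2))
    (N k n : ℕ) :
    (∃ M T' m' R, Lv W N k X (chs Y) U T m M T' m' R ∧ ∀ x ∈ R, n < x) ∨
    (∃ τ ∈ T, τ.2.length < N ∧ (∀ z ∈ Y, Trans (gof X) (insert z (τ.1 : Set ℕ))) ∧
      ∃ Y' : Set ℕ, Y' ⊆ Y ∧ Y'.Infinite ∧ Fair K f (jn X (chs Y')) ∧
        ∀ E : Finset ℕ, (E : Set ℕ) ⊆ Y' → Trans (gof X) ((τ.1 ∪ E : Finset ℕ) : Set ℕ) →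
          ∀ R' : Finset ℕ, (∀ x ∈ R', n < x) → jn X (chf (τ.1 ∪ E)) ∉ W (R' :: τ.2)) := by
  classical
  let Tv := T.filter (fun τ => τ.2.length < N ∧ ∀ z ∈ Y, Trans (gof X) (insert z (τ.1 : Set ℕ)))
  have hTv : ∀ τ, τ ∈ Tv ↔ τ ∈ T ∧ τ.2.length < N ∧
      ∀ z ∈ Y, Trans (gof X) (insert z (τ.1 : Set ℕ)) := fun τ => Finset.mem_filter
  by_cases h : ∃ P, jn (jn X (chs Y)) P ∉ opN Tv k n W []
  · right
    obtain ⟨P, hP, hfP⟩ := fair_wkl hK hf (hK.emN Tv k n W hW) h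
    obtain ⟨κ, -, hκ⟩ := infinite_piece hY (Finset.range k).powerset
      (fun κ z => ∀ i < k, P (Nat.pair z i) = decide (i ∈ κ)) (by
        intro z _
        refine ⟨(Finset.range k).filter fun i => P (Nat.pair z i) = true, ?_, ?_⟩
        · exact Finset.mem_powerset.2 (Finset.filter_subset _ _)
        · intro i hi
          simp [hi])
    have h1 : ∃ τ ∈ Tv, ∀ E : Finset ℕ, ¬ ((∀ x ∈ E, rt (lf (jn (jn X (chs Y)) P)) x = true) ∧
        (∀ x ∈ E, ∀ i < k, rt (jn (jn X (chs Y)) P) (Nat.pair x i) = decide (i ∈ κ)) ∧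
        Trans (gof (lf (lf (jn (jn X (chs Y)) P)))) ((τ.1 ∪ E : Finset ℕ) : Set ℕ) ∧
        ∃ R' : Finset ℕ, (∀ x ∈ R', n < x) ∧
          jn (lf (lf (jn (jn X (chs Y)) P))) (chf (τ.1 ∪ E)) ∈ W (R' :: τ.2)) := by
      by_contra hcon
      apply hP
      refine ⟨κ, fun τ hτ => ?_⟩
      by_contra h2
      apply hcon
      refine ⟨τ, hτ, fun E hE => h2 ⟨E, hE⟩⟩
    obtain ⟨τ, hτ, h2⟩ := h1
    rw [hTv] at hτ
    refine ⟨τ, hτ.1, hτ.2.1, hτ.2.2, {z | z ∈ Y ∧ ∀ i < k, P (Nat.pair z i) = decide (i ∈ κ)},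
      fun z hz => hz.1, hκ, ?_, ?_⟩
    · rw [← psi_eq]
      exact fair_pre hfP (hK.prePsi κ k)
    · intro E hE hTr R' hR' hmem
      apply h2 E
      simp only [lf_jn, rt_jn]
      exact ⟨fun x hx => chs_true.2 (hE hx).1, fun x hx => (hE hx).2, hTr, R', hR', hmem⟩
  · left
    push Not at h
    have key : ∃ (M : Finset ℕ) (T' : Finset Trk) (m' : ℕ) (R : Finset ℕ), (M : Set ℕ) ⊆ Y ∧
        (∀ x ∈ M, x < m') ∧ m ≤ m' ∧ (∀ x ∈ R, n < x) ∧
        (∀ τ ∈ T', ((∃ τ0 ∈ T, τ0.1 ⊆ τ.1) ∧ τ.1 ⊆ U ∪ M) ∧ (τ.2 = [] ∨ Frc W X τ.1 m' τ.2)) ∧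
        ∀ P ∈ (univ : Set Om), ∃ κ : Finset ℕ, ∀ τ ∈ Tv, ∃ E ⊆ M,
          (∀ x ∈ E, ∀ i < k, P (Nat.pair x i) = decide (i ∈ κ)) ∧
          Trans (gof X) ((τ.1 : Set ℕ) ∪ (E : Set ℕ)) ∧
          ∃ R' ⊆ R, (τ.1 ∪ E, R' :: τ.2) ∈ T' := by
      refine (isCompact_univ (X := Om)).induction_on
        (p := fun S => ∃ (M : Finset ℕ) (T' : Finset Trk) (m' : ℕ) (R : Finset ℕ), (M : Set ℕ) ⊆ Y ∧
        (∀ x ∈ M, x < m') ∧ m ≤ m' ∧ (∀ x ∈ R, n < x) ∧
        (∀ τ ∈ T', ((∃ τ0 ∈ T, τ0.1 ⊆ τ.1) ∧ τ.1 ⊆ U ∪ M) ∧ (τ.2 = [] ∨ Frc W X τ.1 m' τ.2)) ∧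
        ∀ P ∈ S, ∃ κ : Finset ℕ, ∀ τ ∈ Tv, ∃ E ⊆ M,
          (∀ x ∈ E, ∀ i < k, P (Nat.pair x i) = decide (i ∈ κ)) ∧
          Trans (gof X) ((τ.1 : Set ℕ) ∪ (E : Set ℕ)) ∧
          ∃ R' ⊆ R, (τ.1 ∪ E, R' :: τ.2) ∈ T') ?_ ?_ ?_ ?_
      · exact ⟨∅, ∅, m, ∅, by simp, by simp, le_rfl, by simp, by simp, by simp⟩
      · rintro S S' hSS ⟨M, T', m', R, h1, h2, h3, h4, h5, h6⟩
        exact ⟨M, T', m', R, h1, h2, h3, h4, h5, fun P hP => h6 P (hSS hP)⟩
      · rintro S S' ⟨M, T', m', R, h1, h2, h3, h4, h5, h6⟩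
          ⟨M', T'', m'', R', h1', h2', h3', h4', h5', h6'⟩
        refine ⟨M ∪ M', T' ∪ T'', max m' m'', R ∪ R', ?_, ?_, h3.trans (le_max_left _ _), ?_, ?_, ?_⟩
        · rw [Finset.coe_union]
          exact union_subset h1 h1'
        · intro x hx
          rcases Finset.mem_union.1 hx with hx | hx
          · exact lt_of_lt_of_le (h2 x hx) (le_max_left _ _)
          · exact lt_of_lt_of_le (h2' x hx) (le_max_right _ _)
        · intro x hx
          rcases Finset.mem_union.1 hx with hx | hx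
          · exact h4 x hx
          · exact h4' x hx
        · intro τ hτ
          rcases Finset.mem_union.1 hτ with hτ | hτ
          · obtain ⟨⟨k1, k2⟩, k3⟩ := h5 τ hτ
            exact ⟨⟨k1, k2.trans (Finset.union_subset_union_right Finset.subset_union_left)⟩,
              k3.imp id fun h => h.mono (le_max_left _ _)⟩
          · obtain ⟨⟨k1, k2⟩, k3⟩ := h5' τ hτ
            exact ⟨⟨k1, k2.trans (Finset.union_subset_union_right Finset.subset_union_right)⟩,
              k3.imp id fun h => h.mono (le_max_right _ _)⟩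
        · rintro P (hP | hP)
          · obtain ⟨κ, hκ⟩ := h6 P hP
            refine ⟨κ, fun τ hτ => ?_⟩
            obtain ⟨E, hE, l1, l2, R'', l3, l4⟩ := hκ τ hτ
            exact ⟨E, hE.trans Finset.subset_union_left, l1, l2, R'',
              l3.trans Finset.subset_union_left, Finset.mem_union_left _ l4⟩
          · obtain ⟨κ, hκ⟩ := h6' P hP
            refine ⟨κ, fun τ hτ => ?_⟩
            obtain ⟨E, hE, l1, l2, R'', l3, l4⟩ := hκ τ hτ
            exact ⟨E, hE.trans Finset.subset_union_right, l1, l2, R'',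
              l3.trans Finset.subset_union_right, Finset.mem_union_right _ l4⟩
      · intro P _
        obtain ⟨κ, hκ⟩ := h P
        simp only [lf_jn, rt_jn] at hκ
        choose! E hE1 hE2 hE3 R' hR'1 hR'2 using hκ
        have hfr : ∀ τ ∈ Tv, ∃ m, Frc W X (τ.1 ∪ E τ) m (R' τ :: τ.2) := fun τ hτ =>
          exists_frc (hK.isOpen W hW _) (hR'2 τ hτ)
        choose! μ hμ using hfr
        let M : Finset ℕ := Tv.biUnion E
        have hM : ∀ τ ∈ Tv, E τ ⊆ M := fun τ hτ => Finset.subset_biUnion_of_mem E hτ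
        let m' : ℕ := max m (max (Tv.sup μ) (M.sup id + 1))
        let T' : Finset Trk := Tv.image fun τ => (τ.1 ∪ E τ, R' τ :: τ.2)
        refine ⟨{P' | ∀ x ∈ M, ∀ i < k, P' (Nat.pair x i) = P (Nat.pair x i)}, ?_, M, T', m',
          Tv.biUnion R', ?_, ?_, le_max_left _ _, ?_, ?_, ?_⟩
        · refine mem_nhdsWithin_of_mem_nhds (IsOpen.mem_nhds ?_ fun x _ i _ => rfl)
          exact isOpen_ball M fun x _ => isOpen_blt k fun i _ => isOpen_bit continuous_id _ _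
        · intro x hx
          obtain ⟨τ, hτ, hx⟩ := Finset.mem_biUnion.1 (Finset.mem_coe.1 hx)
          exact chs_true.1 (hE1 τ hτ x hx)
        · intro x hx
          have : x ≤ M.sup id := Finset.le_sup (f := id) hx
          exact lt_of_lt_of_le (Nat.lt_succ_of_le this)
            ((le_max_right _ _).trans (le_max_right _ _))
        · intro x hx
          obtain ⟨τ, hτ, hx⟩ := Finset.mem_biUnion.1 hx
          exact hR'1 τ hτ x hx
        · intro σ hσ
          obtain ⟨τ, hτ, rfl⟩ := Finset.mem_image.1 hσ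
          refine ⟨⟨⟨τ, ((hTv τ).1 hτ).1, Finset.subset_union_left⟩, ?_⟩, Or.inr ?_⟩
          · exact Finset.union_subset_union (hT τ ((hTv τ).1 hτ).1).1 (hM τ hτ)
          · exact (hμ τ hτ).mono ((Finset.le_sup (f := μ) hτ).trans
              ((le_max_left _ _).trans (le_max_right _ _)))
        · intro P' hP'
          refine ⟨κ, fun τ hτ => ⟨E τ, hM τ hτ, ?_, ?_, R' τ, ?_, ?_⟩⟩
          · intro x hx i hi
            rw [hP' x (hM τ hτ hx) i hi]
            exact hE2 τ hτ x hx i hi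
          · rw [← Finset.coe_union]
            exact hE3 τ hτ
          · exact Finset.subset_biUnion_of_mem R' hτ
          · exact Finset.mem_image.2 ⟨τ, hτ, rfl⟩
    obtain ⟨M, T', m', R, h1, h2, h3, h4, h5, h6⟩ := key
    obtain ⟨z0, hz0⟩ := hY.nonempty
    refine ⟨insert z0 M, T ∪ T', max m' (z0 + 1), R, ⟨⟨Finset.insert_nonempty _ _, ?_,
      h3.trans (le_max_left _ _), Finset.subset_union_left⟩, ?_, ⟨?_, ?_⟩, ?_⟩, h4⟩
    · intro x hx
      rcases Finset.mem_insert.1 hx with rfl | hx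
      · exact ⟨hm _ hz0, lt_of_lt_of_le (Nat.lt_succ_self _) (le_max_right _ _)⟩
      · exact ⟨hm _ (h1 hx), lt_of_lt_of_le (h2 x hx) (le_max_left _ _)⟩
    · intro x hx
      rcases Finset.mem_insert.1 hx with rfl | hx
      · exact chs_true.2 hz0
      · exact chs_true.2 (h1 hx)
    · have hin : ∀ z ∈ insert z0 M, z ∈ Y := by
        intro z hz
        rcases Finset.mem_insert.1 hz with rfl | hz
        · exact hz0
        · exact h1 hz
      intro x hx z hz z' hz'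
      exact hom x hx z (hin z hz) z' (hin z' hz')
    · intro P
      obtain ⟨κ, hκ⟩ := h6 P (mem_univ _)
      refine ⟨κ, fun τ hτ hl hv => ?_⟩
      have hτU := (hT τ hτ).1
      have hτv : τ ∈ Tv := by
        rw [hTv]
        refine ⟨hτ, hl, fun z hz => ?_⟩
        refine valid_move (z0 := z0) ?_ ?_ ?_ (hv z0 (Finset.mem_insert_self _ _))
        · intro x hx
          exact lt_of_le_of_lt (hU x (hτU hx)) (hm z0 hz0)
        · intro x hx
          exact lt_of_le_of_lt (hU x (hτU hx)) (hm z hz)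
        · intro x hx
          exact hom x (hτU hx) z0 hz0 z hz
      obtain ⟨E, hE, l1, l2, R', l3, l4⟩ := hκ τ hτv
      exact ⟨E, hE.trans (Finset.subset_insert _ _), l1, l2, R', l3, Finset.mem_union_right _ l4⟩
    · intro τ hτ
      rcases Finset.mem_union.1 hτ with hτ | hτ
      · obtain ⟨k1, k2⟩ := hT τ hτ
        exact ⟨⟨⟨τ, hτ, Finset.Subset.refl _⟩, k1.trans Finset.subset_union_left⟩,
          k2.imp id fun h => h.mono (h3.trans (le_max_left _ _))⟩
      · obtain ⟨⟨k1, k2⟩, k3⟩ := h5 τ hτ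
        exact ⟨⟨k1, k2.trans (Finset.union_subset_union_right (Finset.subset_insert _ _))⟩,
          k3.imp id fun h => h.mono (le_max_left _ _)⟩

end H860EM
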