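import Pool.Agent.H860EM.Em1

set_option autoImplicit false

open Set Topology

namespace H860EM

variable {K : Set Op} {f : ℕ → ℕ → Bool} {X : Om}

structure Cond (K : Set Op) (f : ℕ → ℕ → Bool) (X : Om) where
  F : Finset ℕ
  Y : Set ℕ
  inf : Y.Infinite
  lt : ∀ x ∈ F, ∀ y ∈ Y, x < y
  hom : ∀ x ∈ F, ∀ y ∈ Y, ∀ z ∈ Y, gof X x y = gof X x z
  tr : ∀ z ∈ Y, Trans (gof X) (insert z (F : Set ℕ))
  fair : Fair K f (jn X (chs Y))

instance : Preorder (Cond K f X) where
  le a b := a.F ⊆ b.F ∧ (∀ x ∈ b.F, x ∈ a.F ∨ x ∈ a.Y) ∧ b.Y ⊆ a.Y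
  le_refl a := ⟨Finset.Subset.refl _, fun _ h => Or.inl h, Subset.rfl⟩
  le_trans a b c := by
    rintro ⟨h1, h2, h3⟩ ⟨k1, k2, k3⟩
    refine ⟨h1.trans k1, fun x hx => ?_, k3.trans h3⟩
    rcases k2 x hx with h | h
    · exact h2 x h
    · exact Or.inr (h3 h)

def Cpt (c : Cond K f X) (G : Set ℕ) : Prop :=
  (c.F : Set ℕ) ⊆ G ∧ ∀ x ∈ G, x ∈ c.F ∨ x ∈ c.Y

lemma Cpt.of_le {a b : Cond K f X} (h : a ≤ b) {G : Set ℕ} (hG : Cpt b G) : Cpt a G := by
  obtain ⟨h1, h2, h3⟩ := h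
  obtain ⟨k1, k2⟩ := hG
  refine ⟨fun x hx => k1 (h1 hx), fun x hx => ?_⟩
  rcases k2 x hx with h | h
  · exact h2 x h
  · exact Or.inr (h3 h)

lemma Us_mono (F : Finset ℕ) (M : ℕ → Finset ℕ) {i j : ℕ} (h : i ≤ j) : Us F M i ⊆ Us F M j := by
  refine Finset.union_subset_union_right ?_
  exact Finset.biUnion_subset_biUnion_of_subset_left _ (Finset.range_mono h)

lemma mem_Us {F : Finset ℕ} {M : ℕ → Finset ℕ} {j x : ℕ} :
    x ∈ Us F M j ↔ x ∈ F ∨ ∃ i < j, x ∈ M i := by
  simp [Us]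

lemma Us_succ (F : Finset ℕ) (M : ℕ → Finset ℕ) (j : ℕ) : Us F M (j + 1) = Us F M j ∪ M j := by
  ext x
  simp only [Finset.mem_union, mem_Us]
  constructor
  · rintro (h | ⟨i, hi, h⟩)
    · exact Or.inl (Or.inl h)
    · rcases Nat.lt_succ_iff_lt_or_eq.1 hi with h' | rfl
      · exact Or.inl (Or.inr ⟨i, h', h⟩)
      · exact Or.inr h
  · rintro ((h | ⟨i, hi, h⟩) | h)
    · exact Or.inl h
    · exact Or.inr ⟨i, by omega, h⟩
    · exact Or.inr ⟨j, by omega, h⟩

/-- levels up to `n0` -/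
structure Lvs (W : Op) (N k : ℕ) (X : Om) (Y : Set ℕ) (F : Finset ℕ) (m0 : ℕ) (n0 : ℕ)
    (M : ℕ → Finset ℕ) (T : ℕ → Finset Trk) (m : ℕ → ℕ) (s : Node) : Prop where
  hF : ∀ x ∈ F, x ≤ m0
  hT0 : T 0 = {(F, [])}
  hm0 : m 0 = m0
  lv : ∀ j < n0, Lv W N k X (chs Y) (Us F M j) (T j) (m j) (M j) (T (j + 1)) (m (j + 1)) (blk s j)

namespace Lvs

variable {W : Op} {N k : ℕ} {Y : Set ℕ} {F : Finset ℕ} {m0 n0 : ℕ}
    {M : ℕ → Finset ℕ} {T : ℕ → Finset Trk} {m : ℕ → ℕ} {s : Node}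

lemma m_mono (h : Lvs W N k X Y F m0 n0 M T m s) {i j : ℕ} (hij : i ≤ j) (hj : j ≤ n0) :
    m i ≤ m j := by
  induction j with
  | zero =>
    have : i = 0 := by omega
    subst this
    exact le_rfl
  | succ j ih =>
    rcases Nat.lt_or_ge i (j + 1) with h1 | h1
    · exact (ih (by omega) (by omega)).trans (h.lv j (by omega)).1.2.2.1
    · have : i = j + 1 := by omega
      subst this
      exact le_rfl

lemma T_mono (h : Lvs W N k X Y F m0 n0 M T m s) {i j : ℕ} (hij : i ≤ j) (hj : j ≤ n0) :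
    T i ⊆ T j := by
  induction j with
  | zero =>
    have : i = 0 := by omega
    subst this
    exact Finset.Subset.refl _
  | succ j ih =>
    rcases Nat.lt_or_ge i (j + 1) with h1 | h1
    · exact (ih (by omega) (by omega)).trans (h.lv j (by omega)).1.2.2.2
    · have : i = j + 1 := by omega
      subst this
      exact Finset.Subset.refl _

lemma Us_le (h : Lvs W N k X Y F m0 n0 M T m s) {j : ℕ} (hj : j ≤ n0) :
    ∀ x ∈ Us F M j, x ≤ m j := by
  intro x hx
  rcases mem_Us.1 hx with hx | ⟨i, hi, hx⟩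
  · have h1 := h.hF x hx
    have h2 := h.m_mono (Nat.zero_le j) hj
    rw [h.hm0] at h2
    omega
  · have h1 := ((h.lv i (by omega)).1.2.1 x hx).2
    have h2 := h.m_mono (show i + 1 ≤ j from hi) hj
    omega

lemma mem_Y (h : Lvs W N k X Y F m0 n0 M T m s) {j : ℕ} (hj : j < n0) {x : ℕ} (hx : x ∈ M j) :
    x ∈ Y := chs_true.1 ((h.lv j hj).2.1 x hx)

lemma T_spec (h : Lvs W N k X Y F m0 n0 M T m s) {j : ℕ} (hj : j ≤ n0) :
    ∀ τ ∈ T j, F ⊆ τ.1 ∧ τ.1 ⊆ Us F M j ∧ (τ.2 = [] ∨ Frc W X τ.1 (m j) τ.2) := by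
  induction j with
  | zero =>
    intro τ hτ
    rw [h.hT0, Finset.mem_singleton] at hτ
    subst hτ
    exact ⟨Finset.Subset.refl _, Finset.subset_union_left, Or.inl rfl⟩
  | succ j ih =>
    intro τ hτ
    obtain ⟨⟨⟨τ0, h1, h2⟩, h3⟩, h4⟩ := (h.lv j (by omega)).2.2.2 τ hτ
    refine ⟨(ih (by omega) τ0 h1).1.trans h2, ?_, h4⟩
    rw [Us_succ]
    exact h3

/-- validity of a track with respect to a new point `z` -/
lemma valid (h : Lvs W N k X Y F m0 n0 M T m s)
    (homF : ∀ x ∈ F, ∀ y ∈ Y, ∀ z ∈ Y, gof X x y = gof X x z)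
    (trF : ∀ z ∈ Y, Trans (gof X) (insert z (F : Set ℕ)))
    (ι : ℕ → ℕ) (r : ℕ) (hι : ∀ q q', q < q' → q' < r → ι q < ι q') (hι' : ∀ q < r, ι q < n0)
    (e : ℕ → ℕ → Bool) (ε : ℕ → Bool) {A : Finset ℕ} {z : ℕ} (hz : z ∈ Y) (hAz : ∀ x ∈ A, x < z)
    (hA : ∀ x ∈ A, x ∈ F ∨ ∃ q < r, x ∈ M (ι q) ∧ gof X x z = ε q ∧
      ∀ q', q < q' → q' < r → ∀ y ∈ M (ι q'), gof X x y = e (ι q) (ι q'))
    (hε : ∀ q q', q < q' → q' < r → e (ι q) (ι q') = ε q' → ε q = e (ι q) (ι q'))
    (htr : Trans (gof X) (A : Set ℕ)) : Trans (gof X) (insert z (A : Set ℕ)) := by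
  intro x hx y hy w hw hxy hyw heq
  rcases hw with rfl | hw
  · rcases hy with rfl | hy
    · omega
    rcases hx with rfl | hx
    · exact absurd (hAz y hy) (by omega)
    rcases hA x hx with hxF | ⟨q, hq, hxM, hxz, hxe⟩
    · rcases hA y hy with hyF | ⟨q', hq', hyM, hyz, hye⟩
      · exact trF w hz x (Or.inr hxF) y (Or.inr hyF) w (Or.inl rfl) hxy hyw heq
      · exact homF x hxF w hz y (h.mem_Y (hι' q' hq') hyM)
    · rcases hA y hy with hyF | ⟨q', hq', hyM, hyz, hye⟩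
      · exfalso
        have h1 := h.hF y hyF
        have h2 := ((h.lv (ι q) (hι' q hq)).1.2.1 x hxM).1
        have h3 := h.m_mono (Nat.zero_le (ι q)) (hι' q hq).le
        rw [h.hm0] at h3
        omega
      · rcases lt_trichotomy q q' with hlt | heq' | hgt
        · have h1 := hxe q' hlt hq' y hyM
          rw [hxz, h1]
          refine hε q q' hlt hq' ?_
          rw [← h1, heq, hyz]
        · subst heq'
          rw [hxz, heq, hyz]
        · exfalso
          have h2 := ((h.lv (ι q) (hι' q hq)).1.2.1 x hxM).1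
          have h3 := ((h.lv (ι q') (hι' q' hq')).1.2.1 y hyM).2
          have h4 := h.m_mono (show ι q' + 1 ≤ ι q from hι q' q hgt hq) (hι' q hq).le
          omega
  · rcases hy with rfl | hy
    · exact absurd (hAz w hw) (by omega)
    rcases hx with rfl | hx
    · exact absurd (hAz y hy) (by omega)
    exact htr x hx y hy w hw hxy hyw heq

end Lvs

lemma step_pos (hK : Good K) (c : Cond K f X) {W : Op} {N k m0 n0 : ℕ} {M : ℕ → Finset ℕ}
    {T : ℕ → Finset Trk} {m : ℕ → ℕ} {s : Node} {Y : Set ℕ} (hY : Y ⊆ c.Y) (hYi : Y.Infinite)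
    (hYf : Fair K f (jn X (chs Y)))
    (h : Lvs W N k X Y c.F m0 n0 M T m s) (hk : k = n0 + 1) (hs : s.length = n0)
    {Q Q' : ℕ → ℕ} (hreal : Real f Q' s)
    (hram : ∀ e : ℕ → ℕ → Bool, ∃ ι : ℕ → ℕ, ∃ α β γ : Bool,
      (∀ q r, q < r → r < N → ι q < ι r) ∧ (∀ q < N, ι q < n0) ∧
      (∀ q r, q < r → r < N → (Q' (ι r) < Q' (ι q) ↔ Q r < Q q)) ∧
      (∀ q < N, e (ι q) n0 = γ) ∧
      (∀ q r, q < r → r < N → e (ι q) (ι r) = if Q r < Q q then α else β)) :
    ∃ c' : Cond K f X, c ≤ c' ∧ ∀ G : Set ℕ, Cpt c' G → ∃ t, val W (jn X (chs G)) t ∧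
      t.length = N ∧ Real f Q t := by
  classical
  obtain ⟨ρ, hρ1, hρ2⟩ := restrict hK hYi hYf (Us c.F M n0) (m n0)
  set Y' : Set ℕ := {z | z ∈ Y ∧ m n0 < z ∧ ∀ x ∈ Us c.F M n0, gof X x z = decide (x ∈ ρ)} with hY'
  let el : ℕ → ℕ := fun i => if h : (M i).Nonempty then h.choose else 0
  have hel : ∀ i < n0, el i ∈ M i := by
    intro i hi
    have hne := (h.lv i hi).1.1
    simp only [el, hne, dif_pos]
    exact hne.choose_spec
  let P : Om := fun t => if (Nat.unpair t).2 < n0 then gof X (Nat.unpair t).1 (el (Nat.unpair t).2)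
    else decide ((Nat.unpair t).1 ∈ ρ)
  have hP1 : ∀ x i, i < n0 → P (Nat.pair x i) = gof X x (el i) := by
    intro x i hi
    simp [P, hi]
  have hP2 : ∀ x, P (Nat.pair x n0) = decide (x ∈ ρ) := by
    intro x
    simp [P]
  have hκ : ∀ j < n0, ∃ κ : Finset ℕ, ∀ τ ∈ T j, τ.2.length < N →
      (∀ z ∈ M j, Trans (gof X) (insert z (τ.1 : Set ℕ))) →
     ∃ E ⊆ M j, (∀ x ∈ E, ∀ i < k, P (Nat.pair x i) = decide (i ∈ κ)) ∧
       Trans (gof X) ((τ.1 : Set ℕ) ∪ (E : Set ℕ)) ∧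
       ∃ R' ⊆ blk s j, (τ.1 ∪ E, R' :: τ.2) ∈ T (j + 1) := fun j hj => (h.lv j hj).2.2.1.2 P
  choose! κ hκ using hκ
  obtain ⟨ι, α, β, γ, h1, h2, h3, h4, h5⟩ := hram fun j i => decide (i ∈ κ j)
  have htrk : ∀ r ≤ N, ∃ A : Finset ℕ, ∃ t : Node,
      (∀ j, (∀ q < r, ι q < j) → j ≤ n0 → (A, t) ∈ T j) ∧ t.length = r ∧
      (∀ q < r, blk t q ⊆ blk s (ι q)) ∧
      (∀ x ∈ A, x ∈ c.F ∨ ∃ q < r, x ∈ M (ι q) ∧ ∀ i < k, P (Nat.pair x i) = decide (i ∈ κ (ι q))) ∧
      Trans (gof X) (A : Set ℕ) := by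
    intro r
    induction r with
    | zero =>
      intro _
      refine ⟨c.F, [], ?_, rfl, by simp, fun x hx => Or.inl hx, ?_⟩
      · intro j _ hj
        refine h.T_mono (Nat.zero_le j) hj ?_
        rw [h.hT0]
        exact Finset.mem_singleton_self _
      · obtain ⟨z, hz⟩ := c.inf.nonempty
        exact (c.tr z hz).mono (subset_insert _ _)
    | succ r ih =>
      intro hr
      obtain ⟨A, t, k1, k2, k3, k4, k5⟩ := ih (by omega)
      have hιr : ι r < n0 := h2 r (by omega)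
      have hmem : (A, t) ∈ T (ι r) := k1 (ι r) (fun q hq => h1 q r hq (by omega)) hιr.le
      have hsub := (h.T_spec hιr.le (A, t) hmem).2.1
      have hval : ∀ z ∈ M (ι r), Trans (gof X) (insert z ((A, t).1 : Set ℕ)) := by
        intro z hz
        refine h.valid (fun x hx y hy z hz => c.hom x hx y (hY hy) z (hY hz))
          (fun z hz => c.tr z (hY hz)) ι r (fun q q' hq hq' => h1 q q' hq (by omega))
          (fun q hq => h2 q (by omega)) (fun j i => decide (i ∈ κ j))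
          (fun q => decide (ι r ∈ κ (ι q))) (h.mem_Y hιr hz) ?_ ?_ ?_ k5
        · intro x hx
          have l1 := h.Us_le hιr.le x (hsub hx)
          have l2 := ((h.lv (ι r) hιr).1.2.1 z hz).1
          omega
        · intro x hx
          rcases k4 x hx with hx' | ⟨q, hq, hxM, hxP⟩
          · exact Or.inl hx'
          · refine Or.inr ⟨q, hq, hxM, ?_, ?_⟩
            · rw [← hxP (ι r) (by omega), hP1 x (ι r) hιr]
              exact (h.lv (ι r) hιr).2.2.1.1 x (hsub hx) z hz (el (ι r)) (hel _ hιr)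
            · intro q' hqq' hq'r y hy
              have hιq' : ι q' < n0 := h2 q' (by omega)
              rw [← hxP (ι q') (by omega), hP1 x (ι q') hιq']
              refine (h.lv (ι q') hιq').2.2.1.1 x ?_ y hy (el (ι q')) (hel _ hιq')
              exact mem_Us.2 (Or.inr ⟨ι q, h1 q q' hqq' (by omega), hxM⟩)
        · intro q q' hqq' hq' hee
          have e1 := h5 q q' hqq' (by omega)
          have e2 := h5 q' r hq' (by omega)
          have e3 := h5 q r (by omega) (by omega)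
          rw [e1, e2] at hee
          rw [e1, e3]
          by_cases a1 : Q q' < Q q
          · by_cases a2 : Q r < Q q'
            · have a3 : Q r < Q q := by omega
              simp [a1, a3]
            · simp only [a1, a2, if_true, if_false] at hee
              simp [hee]
          · by_cases a2 : Q r < Q q'
            · simp only [a1, a2, if_true, if_false] at hee
              simp [hee]
            · have a3 : ¬ Q r < Q q := by omega
              simp [a1, a3]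
      obtain ⟨E, l1, l2, l3, R', l4, l5⟩ := hκ (ι r) hιr (A, t) hmem (by simp only [k2]; omega) hval
      refine ⟨A ∪ E, R' :: t, ?_, by simp [k2], ?_, ?_, ?_⟩
      · intro j hj hjn
        exact h.T_mono (show ι r + 1 ≤ j from hj r (by omega)) hjn l5
      · intro q hq
        by_cases hqr : q = r
        · subst hqr
          have : blk (R' :: t) q = R' := by rw [← k2]; exact blk_cons_length R' t
          rw [this]
          exact l4
        · rw [blk_cons_ne _ _ (by rw [k2]; exact hqr)]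
          exact k3 q (by omega)
      · intro x hx
        rcases Finset.mem_union.1 hx with hx | hx
        · rcases k4 x hx with hx' | ⟨q, hq, hxM, hxP⟩
          · exact Or.inl hx'
          · exact Or.inr ⟨q, by omega, hxM, hxP⟩
        · exact Or.inr ⟨r, by omega, l1 hx, l2 x hx⟩
      · rw [Finset.coe_union]
        exact l3
  obtain ⟨A, t, k1, k2, k3, k4, k5⟩ := htrk N le_rfl
  have hmem : (A, t) ∈ T n0 := k1 n0 (fun q hq => h2 q hq) le_rfl
  obtain ⟨hFA, hsub, hfrc⟩ := h.T_spec le_rfl (A, t) hmem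
  simp only at hFA hsub hfrc
  have hYc : Y' ⊆ Y := fun z hz => hz.1
  have hlt : ∀ x ∈ A, ∀ z ∈ Y', x < z := by
    intro x hx z hz
    exact lt_of_le_of_lt (h.Us_le le_rfl x (hsub hx)) hz.2.1
  refine ⟨⟨A, Y', hρ1, hlt, ?_, ?_, hρ2⟩, ⟨hFA, ?_, hYc.trans hY⟩, ?_⟩
  · intro x hx y hy z hz
    rw [hy.2.2 x (hsub hx), hz.2.2 x (hsub hx)]
  · intro z hz
    refine h.valid (fun x hx y hy z hz => c.hom x hx y (hY hy) z (hY hz))
      (fun z hz => c.tr z (hY hz)) ι N (fun q q' hq hq' => h1 q q' hq hq')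
      (fun q hq => h2 q hq) (fun j i => decide (i ∈ κ j))
      (fun q => γ) (hYc hz) (fun x hx => hlt x hx z hz) ?_ ?_ k5
    · intro x hx
      rcases k4 x hx with hx' | ⟨q, hq, hxM, hxP⟩
      · exact Or.inl hx'
      · refine Or.inr ⟨q, hq, hxM, ?_, ?_⟩
        · have e1 := h4 q hq
          rw [← e1, ← hxP n0 (by omega), hP2]
          exact hz.2.2 x (hsub hx)
        · intro q' hqq' hq'r y hy
          have hιq' : ι q' < n0 := h2 q' hq'r
          rw [← hxP (ι q') (by omega), hP1 x (ι q') hιq']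
          refine (h.lv (ι q') hιq').2.2.1.1 x ?_ y hy (el (ι q')) (hel _ hιq')
          exact mem_Us.2 (Or.inr ⟨ι q, h1 q q' hqq' (by omega), hxM⟩)
    · intro q q' _ _ hee
      exact hee.symm
  · intro x hx
    rcases k4 x hx with hx' | ⟨q, hq, hxM, hxP⟩
    · exact Or.inl hx'
    · exact Or.inr (hY (h.mem_Y (h2 q hq) hxM))
  · rintro G ⟨hG1, hG2⟩
    simp only at hG1 hG2
    refine ⟨t, ?_, k2, ?_⟩
    · rcases hfrc with h' | h'
      · exact Or.inl h'
      · right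
        refine h' (chs G) fun x hx => ?_
        by_cases hxA : x ∈ A
        · rw [decide_eq_true hxA]
          exact chs_true.2 (hG1 hxA)
        · rw [decide_eq_false hxA, Bool.eq_false_iff]
          intro hxG
          rcases hG2 x (chs_true.1 hxG) with h6 | h6
          · exact hxA h6
          · exact absurd h6.2.1 (by omega)
    · intro i j hij hj x hx y hy
      rw [k2] at hj
      have := hreal (ι i) (ι j) (h1 i j hij hj) (by rw [hs]; exact h2 j hj) x
        (k3 i (by omega) hx) y (k3 j hj hy)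
      refine ⟨this.1, ?_⟩
      rw [this.2]
      congr 1
      exact propext (h3 i j hij hj)

end H860EM
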