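import Pool.Agent.H860EM.Em2

set_option autoImplicit false

open Set Topology

namespace H860EM

variable {K : Set Op} {f : ℕ → ℕ → Bool} {X : Om}

lemma Lv.mono_Y {W : Op} {N k : ℕ} {Y Y' : Set ℕ} {U : Finset ℕ} {T : Finset Trk} {m : ℕ}
    {M : Finset ℕ} {T' : Finset Trk} {m' : ℕ} {R : Finset ℕ} (hY : Y ⊆ Y')
    (h : Lv W N k X (chs Y) U T m M T' m' R) : Lv W N k X (chs Y') U T m M T' m' R :=
  ⟨h.1, fun x hx => chs_true.2 (hY (chs_true.1 (h.2.1 x hx))), h.2.2.1, h.2.2.2⟩

lemma lvs_of_val {W : Op} {N k : ℕ} {Y : Set ℕ} {F : Finset ℕ} {m0 : ℕ} {s : Node}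
    (hF : ∀ x ∈ F, x ≤ m0) (h : val (opV F m0 N k W) (jn X (chs Y)) s) :
    ∃ (M : ℕ → Finset ℕ) (T : ℕ → Finset Trk) (mm : ℕ → ℕ),
      Lvs W N k X Y F m0 s.length M T mm s := by
  rcases h with rfl | ⟨M, T, mm, h0, h1, h2⟩
  · refine ⟨fun _ => ∅, fun _ => {(F, [])}, fun _ => m0, hF, rfl, rfl, ?_⟩
    intro j hj
    simp at hj
  · refine ⟨M, T, mm, hF, h0, h1, ?_⟩
    intro j hj
    have := h2 j hj
    rw [lf_jn, rt_jn] at this
    exact this

lemma Us_congr {F : Finset ℕ} {M M' : ℕ → Finset ℕ} {j : ℕ} (h : ∀ i < j, M i = M' i) :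
    Us F M j = Us F M' j := by
  ext x
  simp only [mem_Us]
  constructor
  · rintro (h1 | ⟨i, hi, h1⟩)
    · exact Or.inl h1
    · exact Or.inr ⟨i, hi, by rw [← h i hi]; exact h1⟩
  · rintro (h1 | ⟨i, hi, h1⟩)
    · exact Or.inl h1
    · exact Or.inr ⟨i, hi, by rw [h i hi]; exact h1⟩

lemma em_step (hK : Good K) (c : Cond K f X) (m : ℕ) {W : Op} (hW : W ∈ K) :
    ∃ c', c ≤ c' ∧ ∀ G : Set ℕ, Cpt c' G → Trans (gof X) G →
      Ess (m * m) (val W (jn X (chs G))) →
      ∃ s, val W (jn X (chs G)) s ∧ s.length = m * m ∧ Real f (gm m) s := by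
  classical
  obtain ⟨m2, hm2⟩ := perm_ramsey (m * m) (gm m) (fun i hi => gm_lt hi)
    (fun i hi j hj h => gm_inj hi hj h)
  have hFm0 : ∀ x ∈ c.F, x ≤ c.F.sup id := fun x hx => Finset.le_sup (f := id) hx
  obtain ⟨ρ0, hY1, hY2⟩ := restrict hK c.inf c.fair ∅ (c.F.sup id)
  set Y0 : Set ℕ := {z | z ∈ c.Y ∧ c.F.sup id < z ∧ ∀ x ∈ (∅ : Finset ℕ), gof X x z = decide (x ∈ ρ0)}
    with hY0
  have hY0c : Y0 ⊆ c.Y := fun z hz => hz.1
  by_cases hE : Ess (m2 * m2) (val (opV c.F (c.F.sup id) (m * m) (m2 * m2 + 1) W) (jn X (chs Y0)))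
  · obtain ⟨s, hs, hl, hr⟩ := hY2 m2 _ (hK.emV c.F (c.F.sup id) (m * m) (m2 * m2 + 1) W hW) hE
    obtain ⟨M, T, mm, hL⟩ := lvs_of_val hFm0 hs
    rw [hl] at hL
    obtain ⟨c', hc, h⟩ := step_pos hK c hY0c hY1 hY2 hL rfl hl (Q := gm m) hr hm2
    exact ⟨c', hc, fun G hG _ _ => h G hG⟩
  · unfold Ess at hE
    push Not at hE
    obtain ⟨s, hs, hl, n, hn⟩ := hE
    obtain ⟨M, T, mm, hL⟩ := lvs_of_val hFm0 hs
    obtain ⟨ρ, hρ1, hρ2⟩ := restrict hK hY1 hY2 (Us c.F M s.length) (mm s.length)
    set Y1 : Set ℕ := {z | z ∈ Y0 ∧ mm s.length < z ∧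
      ∀ x ∈ Us c.F M s.length, gof X x z = decide (x ∈ ρ)} with hY1def
    have hY10 : Y1 ⊆ Y0 := fun z hz => hz.1
    have hom : ∀ x ∈ Us c.F M s.length, ∀ z ∈ Y1, ∀ z' ∈ Y1, gof X x z = gof X x z' := by
      intro x hx z hz z' hz'
      rw [hz.2.2 x hx, hz'.2.2 x hx]
    have hTs := hL.T_spec le_rfl
    rcases level hK hρ1 hρ2 hom (hL.Us_le le_rfl) (fun z hz => hz.2.1) hW
      (T := T s.length) (fun τ hτ => (hTs τ hτ).2) (m * m) (m2 * m2 + 1) n with
      ⟨M', T', m', R, hLv, hR⟩ | ⟨τ, hτ, h1, h2, Y', h3, h4, h5, h6⟩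
    · exfalso
      refine hn R hR (Or.inr ?_)
      have hUs : ∀ j ≤ s.length, Us c.F (Function.update M s.length M') j = Us c.F M j := by
        intro j hj
        refine Us_congr fun i hi => ?_
        rw [Function.update_of_ne (by omega)]
      refine ⟨Function.update M s.length M', Function.update T (s.length + 1) T',
        Function.update mm (s.length + 1) m', ?_, ?_, ?_⟩
      · rw [Function.update_of_ne (by omega)]
        exact hL.hT0
      · rw [Function.update_of_ne (by omega)]
        exact hL.hm0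
      · intro j hj
        rw [lf_jn, rt_jn]
        have hj' : j ≤ s.length := by
          simp only [List.length_cons] at hj
          omega
        rw [hUs j hj']
        rcases Nat.lt_or_ge j s.length with hlt | hge
        · rw [Function.update_of_ne (show j ≠ s.length + 1 by omega),
            Function.update_of_ne (show j ≠ s.length + 1 by omega),
            Function.update_of_ne (show j ≠ s.length by omega),
            Function.update_of_ne (show j + 1 ≠ s.length + 1 by omega),
            Function.update_of_ne (show j + 1 ≠ s.length + 1 by omega),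
            blk_cons_ne _ _ (show j ≠ s.length by omega)]
          exact hL.lv j hlt
        · have hjs : j = s.length := by omega
          subst hjs
          rw [Function.update_of_ne (show s.length ≠ s.length + 1 by omega),
            Function.update_of_ne (show s.length ≠ s.length + 1 by omega),
            Function.update_self, Function.update_self, Function.update_self, blk_cons_length]
          exact hLv.mono_Y hY10
    · have hτU := (hTs τ hτ).2.1
      have hlt : ∀ x ∈ τ.1, ∀ z ∈ Y1, x < z := fun x hx z hz =>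
        lt_of_le_of_lt (hL.Us_le le_rfl x (hτU hx)) hz.2.1
      refine ⟨⟨τ.1, Y', h4, fun x hx z hz => hlt x hx z (h3 hz),
        fun x hx z hz z' hz' => hom x (hτU hx) z (h3 hz) z' (h3 hz'),
        fun z hz => h2 z (h3 hz), h5⟩, ⟨(hTs τ hτ).1, ?_, (h3.trans hY10).trans hY0c⟩, ?_⟩
      · intro x hx
        rcases mem_Us.1 (hτU hx) with hx' | ⟨i, hi, hx'⟩
        · exact Or.inl hx'
        · exact Or.inr (hY0c (hL.mem_Y hi hx'))
      · rintro G ⟨hG1, hG2⟩ hG3 hGE
        exfalso
        simp only at hG1 hG2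
        have hval : val W (jn X (chs G)) τ.2 := by
          rcases (hTs τ hτ).2.2 with h' | h'
          · exact Or.inl h'
          · right
            refine h' (chs G) fun x hx => ?_
            by_cases hxA : x ∈ τ.1
            · rw [decide_eq_true hxA]
              exact chs_true.2 (hG1 hxA)
            · rw [decide_eq_false hxA, Bool.eq_false_iff]
              intro hxG
              rcases hG2 x (chs_true.1 hxG) with h6 | h6
              · exact hxA h6
              · exact absurd (h3 h6).2.1 (by omega)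
        obtain ⟨R', hR', hmem⟩ := hGE τ.2 hval h1 n
        rw [val_cons] at hmem
        obtain ⟨b, hb⟩ := bits_of_isOpen (hK.isOpen W hW _) hmem
        let E : Finset ℕ := (Finset.range b).filter fun x => x ∈ G ∧ x ∉ τ.1
        have hEG : ((τ.1 ∪ E : Finset ℕ) : Set ℕ) ⊆ G := by
          intro x hx
          rcases Finset.mem_union.1 (Finset.mem_coe.1 hx) with hx | hx
          · exact hG1 hx
          · exact (Finset.mem_filter.1 hx).2.1
        refine h6 E ?_ (hG3.mono hEG) R' hR' (hb _ (jn_agree (fun _ _ => rfl) ?_))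
        · intro x hx
          have hx' := (Finset.mem_filter.1 (Finset.mem_coe.1 hx)).2
          rcases hG2 x hx'.1 with h7 | h7
          · exact absurd h7 hx'.2
          · exact h7
        · intro x hx
          by_cases hxG : x ∈ G
          · rw [chs_true.2 hxG]
            unfold chf
            refine decide_eq_true ?_
            by_cases hxA : x ∈ τ.1
            · exact Finset.mem_union_left _ hxA
            · exact Finset.mem_union_right _
                (Finset.mem_filter.2 ⟨Finset.mem_range.2 hx, hxG, hxA⟩)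
          · have : chs G x = false := by
              rw [Bool.eq_false_iff]
              intro h
              exact hxG (chs_true.1 h)
            rw [this]
            unfold chf
            exact decide_eq_false fun h => hxG (hEG (Finset.mem_coe.2 h))

lemma em_grow (hK : Good K) (c : Cond K f X) (n : ℕ) :
    ∃ c', c ≤ c' ∧ ∃ x ∈ c'.F, n < x := by
  classical
  obtain ⟨y, hy, hny⟩ : ∃ y ∈ c.Y, n < y := c.inf.exists_gt n
  obtain ⟨ρ, h1, h2⟩ := restrict hK c.inf c.fair {y} y
  set Y' : Set ℕ := {z | z ∈ c.Y ∧ y < z ∧ ∀ x ∈ ({y} : Finset ℕ), gof X x z = decide (x ∈ ρ)}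
    with hY'
  have hins : ∀ x, x ∈ insert y c.F ↔ x = y ∨ x ∈ c.F := fun x => Finset.mem_insert
  refine ⟨⟨insert y c.F, Y', h1, ?_, ?_, ?_, h2⟩, ⟨Finset.subset_insert _ _, ?_, fun z hz => hz.1⟩,
    y, Finset.mem_insert_self _ _, hny⟩
  · intro x hx z hz
    rcases (hins x).1 hx with rfl | hx
    · exact hz.2.1
    · exact c.lt x hx z hz.1
  · intro x hx z hz z' hz'
    rcases (hins x).1 hx with rfl | hx
    · rw [hz.2.2 x (Finset.mem_singleton_self _), hz'.2.2 x (Finset.mem_singleton_self _)]
    · exact c.hom x hx z hz.1 z' hz'.1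
  · intro z hz
    intro a ha b hb d hd hab hbd heq
    have hlt : ∀ x ∈ c.F, x < y := fun x hx => c.lt x hx y hy
    have hltz : ∀ x ∈ c.F, x < z := fun x hx => c.lt x hx z hz.1
    have hyz : y < z := hz.2.1
    have key : ∀ x, x ∈ (insert z ((insert y c.F : Finset ℕ) : Set ℕ)) → x = z ∨ x = y ∨ x ∈ c.F := by
      intro x hx
      rcases hx with hx | hx
      · exact Or.inl hx
      · exact Or.inr ((hins x).1 hx)
    rcases key d hd with hd | hd | hd
    · rcases key b hb with hb | hb | hb
      · omega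
      · rcases key a ha with ha | ha | ha
        · omega
        · omega
        · -- a ∈ F, b = y, d = z
          rw [hd, hb]
          exact c.hom a ha z hz.1 y hy
      · rcases key a ha with ha | ha | ha
        · have := hltz b hb; omega
        · have := hlt b hb; omega
        · rw [hd] at hbd heq ⊢
          exact c.tr z hz.1 a (Or.inr ha) b (Or.inr hb) z (Or.inl rfl) hab hbd heq
    · rcases key b hb with hb | hb | hb
      · omega
      · omega
      · rcases key a ha with ha | ha | ha
        · have := hltz b hb; omega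
        · have := hlt b hb; omega
        · rw [hd] at hbd heq ⊢
          exact c.tr y hy a (Or.inr ha) b (Or.inr hb) y (Or.inl rfl) hab hbd heq
    · rcases key b hb with hb | hb | hb
      · have := hltz d hd; omega
      · have := hlt d hd; omega
      · rcases key a ha with ha | ha | ha
        · have := hltz b hb; omega
        · have := hlt b hb; omega
        · exact c.tr z hz.1 a (Or.inr ha) b (Or.inr hb) d (Or.inr hd) hab hbd heq
  · intro x hx
    rcases (hins x).1 hx with rfl | hx
    · exact Or.inr hy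
    · exact Or.inl hx

theorem fair_em (hK : Good K) (c0 : Cond K f X) : ∃ G : Set ℕ, G.Infinite ∧
    Trans (gof X) G ∧ Fair K f (jn X (chs G)) := by
  have : Countable K := hK.ctbl.to_subtype
  let _ : Encodable K := Encodable.ofCountable K
  let D : ℕ × ℕ × K → Order.Cofinal (Cond K f X) := fun i =>
    { carrier := {c | (∃ x ∈ c.F, i.1 < x) ∧ ∀ G : Set ℕ, Cpt c G → Trans (gof X) G →
        Ess (i.2.1 * i.2.1) (val i.2.2.1 (jn X (chs G))) →
        ∃ s, val i.2.2.1 (jn X (chs G)) s ∧ s.length = i.2.1 * i.2.1 ∧ Real f (gm i.2.1) s}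
      isCofinal := by
        intro c
        obtain ⟨c1, h1, h2⟩ := em_step hK c i.2.1 i.2.2.2
        obtain ⟨c2, h3, h4⟩ := em_grow hK c1 i.1
        exact ⟨c2, ⟨h4, fun G hG => h2 G (hG.of_le h3)⟩, h1.trans h3⟩ }
  let seq := Order.sequenceOfCofinals c0 D
  have hmono : Monotone seq := Order.sequenceOfCofinals.monotone _ _
  let G : Set ℕ := {x | ∃ n, x ∈ (seq n).F}
  have hcpt : ∀ n, Cpt (seq n) G := by
    intro n
    refine ⟨fun x hx => ⟨n, hx⟩, ?_⟩
    rintro x ⟨k, hk⟩
    rcases le_total n k with h | h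
    · exact (hmono h).2.1 x hk
    · exact Or.inl ((hmono h).1 hk)
  have htr : Trans (gof X) G := by
    rintro x ⟨n1, hx⟩ y ⟨n2, hy⟩ z ⟨n3, hz⟩ hxy hyz heq
    set n := max n1 (max n2 n3) with hn
    obtain ⟨w, hw⟩ := (seq n).inf.nonempty
    have hx' : x ∈ (seq n).F := (hmono (le_max_left _ _)).1 hx
    have hy' : y ∈ (seq n).F := (hmono ((le_max_left _ _).trans (le_max_right _ _))).1 hy
    have hz' : z ∈ (seq n).F := (hmono ((le_max_right _ _).trans (le_max_right _ _))).1 hz
    exact (seq n).tr w hw x (Or.inr hx') y (Or.inr hy') z (Or.inr hz') hxy hyz heq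
  refine ⟨G, ?_, htr, ?_⟩
  · rw [Set.infinite_iff_exists_gt]
    intro n
    have h5 := Order.sequenceOfCofinals.encode_mem c0 D (n, 0, ⟨opZero, hK.zero⟩)
    obtain ⟨x, hx, hnx⟩ := h5.1
    exact ⟨x, ⟨_, hx⟩, hnx⟩
  · intro m W hW hE
    have h5 := Order.sequenceOfCofinals.encode_mem c0 D (0, m, ⟨W, hW⟩)
    exact h5.2 G (hcpt _) htr hE

end H860EM
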