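import Pool.Agent.H860EM.Em3
import Pool.Agent.H860EM.Defs

set_option autoImplicit false

open Set Topology

namespace H860EM

/-! ### a countable good family -/

inductive Ix
  | wkl
  | cyl (A : Finset ℕ) (m : ℕ)
  | neg (A : Finset ℕ) (m : ℕ) (t : Node) (n : ℕ)
  | preLf
  | prePhi (U ρ : Finset ℕ) (b : ℕ)
  | prePsi (κ : Finset ℕ) (k : ℕ)
  | emV (F : Finset ℕ) (m0 N k : ℕ)
  | emN (T : Finset Trk) (k n : ℕ)
  | comp | sing | zero | succ | left | right | read | read0 | pair | cmp | prec | rfind | join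
  deriving Countable

def ixOp : Ix → Op → Op → Op
  | .wkl, O, W => opWkl O W
  | .cyl A m, O, _ => opCyl A m O
  | .neg A m t n, O, W => opNeg A m t n O W
  | .preLf, W, _ => opPre lf W
  | .prePhi U ρ b, W, _ => opPre (phi U ρ b) W
  | .prePsi κ k, W, _ => opPre (psi κ k) W
  | .emV F m0 N k, W, _ => opV F m0 N k W
  | .emN T k n, W, _ => opN T k n W
  | .comp, W, V => opComp W V
  | .sing, V, _ => opSing V
  | .zero, _, _ => opZero
  | .succ, _, _ => opSucc
  | .left, _, _ => opLeft
  | .right, _, _ => opRight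
  | .read, _, _ => opRead
  | .read0, _, _ => opRead0
  | .pair, V, W => opPair V W
  | .cmp, V, W => opCmp V W
  | .prec, V, W => opPrec V W
  | .rfind, V, _ => opRfind V
  | .join, V, W => opJoin V W

lemma exists_closure {α ι : Type} [Countable ι] (op : ι → α → α → α) (a0 : α) (p : α → Prop)
    (h0 : p a0) (hp : ∀ i a b, p a → p b → p (op i a b)) :
    ∃ K : Set α, a0 ∈ K ∧ K.Countable ∧ (∀ i, ∀ a ∈ K, ∀ b ∈ K, op i a b ∈ K) ∧ ∀ a ∈ K, p a := by
  let S : ℕ → Set α := fun n => Nat.rec {a0} (fun _ S => S ∪ ⋃ i, image2 (op i) S S) n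
  have hS0 : S 0 = {a0} := rfl
  have hS : ∀ n, S (n + 1) = S n ∪ ⋃ i, image2 (op i) (S n) (S n) := fun n => rfl
  have hmono : Monotone S := monotone_nat_of_le_succ fun n => by
    rw [hS]; exact subset_union_left
  refine ⟨⋃ n, S n, mem_iUnion.2 ⟨0, by rw [hS0]; exact mem_singleton _⟩, ?_, ?_, ?_⟩
  · refine countable_iUnion fun n => ?_
    induction n with
    | zero => rw [hS0]; exact countable_singleton _
    | succ n ih =>
      rw [hS]
      exact ih.union (countable_iUnion fun i => ih.image2 ih (op i))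
  · intro i a ha b hb
    obtain ⟨n, ha⟩ := mem_iUnion.1 ha
    obtain ⟨k, hb⟩ := mem_iUnion.1 hb
    refine mem_iUnion.2 ⟨max n k + 1, ?_⟩
    rw [hS]
    refine Or.inr (mem_iUnion.2 ⟨i, ?_⟩)
    exact mem_image2_of_mem (hmono (le_max_left _ _) ha) (hmono (le_max_right _ _) hb)
  · have : ∀ n, ∀ a ∈ S n, p a := by
      intro n
      induction n with
      | zero => intro a ha; rw [hS0] at ha; rw [mem_singleton_iff.1 ha]; exact h0
      | succ n ih =>
        intro a ha
        rw [hS] at ha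
        rcases ha with ha | ha
        · exact ih a ha
        · obtain ⟨i, ha⟩ := mem_iUnion.1 ha
          obtain ⟨b, hb, c, hc, rfl⟩ := ha
          exact hp i b c (ih b hb) (ih c hc)
    intro a ha
    obtain ⟨n, ha⟩ := mem_iUnion.1 ha
    exact this n a ha

lemma ixOp_open (i : Ix) (V W : Op) (hV : ∀ s, IsOpen (V s)) (hW : ∀ s, IsOpen (W s)) :
    ∀ s, IsOpen (ixOp i V W s) := by
  intro s
  cases i with
  | wkl => exact isOpen_opWkl hV hW s
  | cyl A m => exact isOpen_opCyl hV A m s
  | neg A m t n => exact isOpen_opNeg hV hW A m t n s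
  | preLf => exact isOpen_opPre hV continuous_lf s
  | prePhi U ρ b => exact isOpen_opPre hV (continuous_phi U ρ b) s
  | prePsi κ k => exact isOpen_opPre hV (continuous_psi κ k) s
  | emV F m0 N k => exact isOpen_opV hV F m0 N k s
  | emN T k n => exact isOpen_opN hV T k n s
  | comp => exact isOpen_opComp hV hW s
  | sing => exact isOpen_opSing hV s
  | zero => exact isOpen_opZero s
  | succ => exact isOpen_opSucc s
  | left => exact isOpen_opLeft s
  | right => exact isOpen_opRight s
  | read => exact isOpen_opRead s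
  | read0 => exact isOpen_opRead0 s
  | pair => exact isOpen_opPair hV hW s
  | cmp => exact isOpen_opCmp hV hW s
  | prec => exact isOpen_opPrec hV hW s
  | rfind => exact isOpen_opRfind hV s
  | join => exact isOpen_opJoin hV hW s

theorem exists_good : ∃ K : Set Op, Good K := by
  obtain ⟨K, h0, h1, h2, h3⟩ := exists_closure ixOp opZero (fun W => ∀ s, IsOpen (W s))
    isOpen_opZero ixOp_open
  exact ⟨K,
    { ctbl := h1
      isOpen := h3
      wkl := fun O hO W hW => h2 .wkl O hO W hW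
      cyl := fun A m O hO => h2 (.cyl A m) O hO O hO
      neg := fun A m t n O hO W hW => h2 (.neg A m t n) O hO W hW
      preLf := fun W hW => h2 .preLf W hW W hW
      prePhi := fun U ρ b W hW => h2 (.prePhi U ρ b) W hW W hW
      prePsi := fun κ k W hW => h2 (.prePsi κ k) W hW W hW
      emV := fun F m0 N k W hW => h2 (.emV F m0 N k) W hW W hW
      emN := fun T k n W hW => h2 (.emN T k n) W hW W hW
      comp := fun W hW V hV => h2 .comp W hW V hV
      sing := fun V hV => h2 .sing V hV V hV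
      zero := h2 .zero _ h0 _ h0
      succ := h2 .succ _ h0 _ h0
      left := h2 .left _ h0 _ h0
      right := h2 .right _ h0 _ h0
      read := h2 .read _ h0 _ h0
      read0 := h2 .read0 _ h0 _ h0
      pair := fun V hV W hW => h2 .pair V hV W hW
      cmp := fun V hV W hW => h2 .cmp V hV W hW
      prec := fun V hV W hW => h2 .prec V hV W hW
      rfind := fun V hV => h2 .rfind V hV V hV
      join := fun V hV W hW => h2 .join V hV W hW }⟩

variable {K : Set Op} {f : ℕ → ℕ → Bool} {X : Om}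

lemma mem_chi {A : Set ℕ} {x y : ℕ} : y ∈ chi A x ↔ (y = 1 ∧ x ∈ A) ∨ (y = 0 ∧ x ∉ A) := by
  classical
  unfold chi
  rw [Part.mem_some_iff]
  by_cases h : x ∈ A <;> simp [h]

lemma fair_comp (hK : Good K) (hX : Fair K f X) {C : Set ℕ} (hC : Cf K X (chi C)) :
    Fair K f (jn X (chs C)) := by
  obtain ⟨V, hV, hV'⟩ := hC
  intro m W hW hE
  have key : ∀ s, X ∈ opComp W V s ↔ jn X (chs C) ∈ W s := by
    intro s
    constructor
    · rintro ⟨b, A, h1, h2⟩
      refine h2 (chs C) fun k hk => ?_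
      have h3 := h1 k hk
      rw [hV', mem_chi] at h3
      by_cases hkA : k ∈ A
      · rw [decide_eq_true hkA]
        rw [if_pos hkA] at h3
        rcases h3 with h3 | h3
        · exact chs_true.2 h3.2
        · exact absurd h3.1 one_ne_zero
      · rw [decide_eq_false hkA, Bool.eq_false_iff]
        intro hkC
        rw [if_neg hkA] at h3
        rcases h3 with h3 | h3
        · exact absurd h3.1 zero_ne_one
        · exact h3.2 (chs_true.1 hkC)
    · intro h
      obtain ⟨b, hb⟩ := bits_of_isOpen (hK.isOpen W hW s) h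
      refine ⟨b, cod (chs C) b, fun k hk => ?_, fun P hP => hb _ (jn_agree (fun _ _ => rfl)
        fun k hk => ?_)⟩
      · rw [hV', mem_chi]
        by_cases hkC : k ∈ C
        · have : k ∈ cod (chs C) b := by simp [cod, hk, chs_true.2 hkC]
          rw [if_pos this]
          exact Or.inl ⟨rfl, hkC⟩
        · have : k ∉ cod (chs C) b := by
            simp only [cod, Finset.mem_filter, not_and]
            intro _ h
            exact hkC (chs_true.1 h)
          rw [if_neg this]
          exact Or.inr ⟨rfl, hkC⟩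
      · rw [hP k hk, cod_spec _ b hk]
  have hval : ∀ s, val (opComp W V) X s ↔ val W (jn X (chs C)) s := fun s => by
    simp only [val, key]
  have hE' : Ess (m * m) (val (opComp W V) X) := by
    intro s hs hl n
    obtain ⟨R, h1, h2⟩ := hE s ((hval s).1 hs) hl n
    exact ⟨R, h1, (hval _).2 h2⟩
  obtain ⟨s, h1, h2, h3⟩ := hX m (opComp W V) (hK.comp W hW V hV) hE'
  exact ⟨s, (hval s).1 h1, h2, h3⟩

lemma cf_lf (hK : Good K) {Z : Om} {F : ℕ →. ℕ} (h : Cf K (lf Z) F) : Cf K Z F := by
  obtain ⟨V, hV, hV'⟩ := h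
  exact ⟨opPre lf V, hK.preLf V hV, fun x y => hV' x y⟩

lemma cf_rt (hK : Good K) (Y : Om) (G : Set ℕ) : Cf K (jn Y (chs G)) (chi G) := by
  refine ⟨opRead, hK.read, fun x y => ?_⟩
  rw [opRead, gr_mkOp, mem_chi]
  simp only [mem_ofPred_eq, rt_jn]
  by_cases h : x ∈ G
  · simp [chs_true.2 h, h, eq_comm]
  · have : chs G x = false := by
      rw [Bool.eq_false_iff]; intro h'; exact h (chs_true.1 h')
    simp [this, h, eq_comm]

lemma cf_univ (hK : Good K) (Z : Om) : Cf K Z (chi univ) := by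
  refine ⟨opCmp opSucc opZero, hK.cmp _ hK.succ _ hK.zero, fun x y => ?_⟩
  rw [opCmp, gr_mkOp, mem_chi]
  simp only [mem_ofPred_eq, opSucc, opZero, gr_mkOp]
  constructor
  · rintro ⟨a, rfl, rfl⟩
    exact Or.inl ⟨rfl, mem_univ _⟩
  · rintro (⟨rfl, -⟩ | ⟨-, h⟩)
    · exact ⟨0, rfl, rfl⟩
    · exact absurd (mem_univ _) h

/-- one step: solve one instance of EM -/
lemma solve (hK : Good K) {Y : Om} (hY : Fair K f Y) {C : Set ℕ} (hC : Cf K Y (chi C)) :
    ∃ Y' : Om, Fair K f Y' ∧ (∀ F, Cf K Y F → Cf K Y' F) ∧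
      ∃ H : Set ℕ, H.Infinite ∧ FTransitive (col C) H ∧ Cf K Y' (chi H) := by
  have h1 : Fair K f (jn Y (chs C)) := fair_comp hK hY hC
  have h2 : Fair K f (jn (jn Y (chs C)) (chs univ)) := fair_comp hK h1 (cf_univ hK _)
  let c0 : Cond K f (jn Y (chs C)) :=
    { F := ∅
      Y := univ
      inf := infinite_univ
      lt := by simp
      hom := by simp
      tr := by
        intro z _ x hx y hy w hw hxy hyw
        simp only [Finset.coe_empty, insert_empty_eq, mem_singleton_iff] at hx hy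
        omega
      fair := h2 }
  obtain ⟨G, hG1, hG2, hG3⟩ := fair_em hK c0
  refine ⟨jn (jn Y (chs C)) (chs G), hG3, ?_, G, hG1, ?_, cf_rt hK _ G⟩
  · intro F hF
    apply cf_lf hK
    rw [lf_jn]
    apply cf_lf hK
    rw [lf_jn]
    exact hF
  · have : col C = gof (jn Y (chs C)) := by
      funext x y
      simp only [col, gof, rt_jn, chs]
    rw [this]
    exact hG2

lemma bookkeeping {P : Type} [Preorder P] (R : P → ℕ → P → Prop)
    (hR : ∀ x v y, x ≤ y → ∃ y', y ≤ y' ∧ R x v y') (p0 : P) :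
    ∃ s : ℕ → P, s 0 = p0 ∧ Monotone s ∧ ∀ n v, ∃ m, R (s n) v (s m) := by
  classical
  let next : P → ℕ → P → P := fun x v y => if h : ∃ y', y ≤ y' ∧ R x v y' then h.choose else y
  have hnext : ∀ x v y, x ≤ y → R x v (next x v y) := by
    intro x v y hxy
    have h := hR x v y hxy
    simp only [next, h, dif_pos]
    exact h.choose_spec.2
  have hnext' : ∀ x v y, y ≤ next x v y := by
    intro x v y
    by_cases h : ∃ y', y ≤ y' ∧ R x v y'
    · simp only [next, h, dif_pos]
      exact h.choose_spec.1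
    · simp only [next, h]
      exact le_rfl
  let H : ℕ → ℕ → P := fun n => Nat.rec (fun _ => p0) (fun n H =>
    Function.update H (n + 1) (next (H (Nat.unpair n).1) (Nat.unpair n).2 (H n))) n
  have H0 : H 0 = fun _ => p0 := rfl
  have HS : ∀ n, H (n + 1) = Function.update (H n) (n + 1)
    (next (H n (Nat.unpair n).1) (Nat.unpair n).2 (H n n)) := fun n => rfl
  have Hs : ∀ n i, i ≤ n → H n i = H i i := by
    intro n
    induction n with
    | zero => intro i hi; have : i = 0 := by omega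
              subst this; rfl
    | succ n ih =>
      intro i hi
      rcases Nat.lt_or_ge i (n + 1) with h | h
      · rw [HS, Function.update_of_ne (by omega)]
        exact ih i (by omega)
      · have : i = n + 1 := by omega
        subst this
        rfl
  have hsucc : ∀ n, H (n + 1) (n + 1)
      = next (H (Nat.unpair n).1 (Nat.unpair n).1) (Nat.unpair n).2 (H n n) := by
    intro n
    conv_lhs => rw [HS]
    rw [Function.update_self, Hs n _ (Nat.unpair_left_le n)]
  have hmono : Monotone fun n => H n n := by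
    refine monotone_nat_of_le_succ fun n => ?_
    rw [hsucc]
    exact hnext' _ _ _
  refine ⟨fun n => H n n, rfl, hmono, fun n v => ⟨Nat.pair n v + 1, ?_⟩⟩
  have := hsucc (Nat.pair n v)
  rw [Nat.unpair_pair] at this
  simp only at this ⊢
  rw [this]
  exact hnext _ _ _ (hmono (Nat.left_le_pair n v))

lemma blk_mem {s : Node} {j : ℕ} (hj : j < s.length) : blk s j ∈ s := by
  induction s with
  | nil => simp at hj
  | cons R s ih =>
    by_cases h : j = s.length
    · subst h
      rw [blk_cons_length]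
      exact List.mem_cons_self
    · rw [blk_cons_ne _ _ h]
      simp only [List.length_cons] at hj
      exact List.mem_cons_of_mem _ (ih (by omega))

lemma realises_of_fair (hK : Good K) (hX : Fair K f X) {H : Set ℕ} (hH : H.Infinite)
    (hc : Cf K X (chi H)) {l : ℕ} (π : Equiv.Perm (Fin l)) : Realises f H (permPattern π) := by
  obtain ⟨V, hV, hV'⟩ := hc
  have hE : Ess (l * l) (val (opSing V) X) := by
    intro s hs _ n
    obtain ⟨h, hh, hn⟩ := hH.exists_gt n
    refine ⟨{h}, by simpa using hn, Or.inr ?_⟩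
    intro R hR
    rcases List.mem_cons.1 hR with rfl | hR
    · exact ⟨h, rfl, (hV' h 1).2 (mem_chi.2 (Or.inl ⟨rfl, hh⟩))⟩
    · rcases hs with rfl | hs
      · simp at hR
      · exact hs R hR
  obtain ⟨s, hs, hl, hr⟩ := hX l (opSing V) (hK.sing V hV) hE
  have hblk : ∀ j < l * l, ∃ h ∈ H, blk s j = {h} := by
    intro j hj
    rcases hs with rfl | hs
    · rw [List.length_nil] at hl
      omega
    · obtain ⟨h, h1, h2⟩ := hs (blk s j) (blk_mem (by rw [hl]; exact hj))
      rw [hV', mem_chi] at h2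
      rcases h2 with h2 | h2
      · exact ⟨h, h2.2, h1⟩
      · exact absurd h2.1 one_ne_zero
  choose! g hg1 hg2 using hblk
  have hidx : ∀ i : Fin l, (i : ℕ) * l + (π i : ℕ) < l * l := by
    intro i
    calc (i : ℕ) * l + (π i : ℕ) < i * l + l := by have := (π i).2; omega
      _ = (i + 1) * l := by ring
      _ ≤ l * l := Nat.mul_le_mul_right _ i.2
  have hlt : ∀ i j : Fin l, i < j → (i : ℕ) * l + (π i : ℕ) < (j : ℕ) * l + (π j : ℕ) := by
    intro i j hij
    calc (i : ℕ) * l + (π i : ℕ) < i * l + l := by have := (π i).2; omega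
      _ = (i + 1) * l := by ring
      _ ≤ j * l := Nat.mul_le_mul_right _ hij
      _ ≤ _ := by omega
  have hgm : ∀ i : Fin l, gm l ((i : ℕ) * l + (π i : ℕ)) = (π i : ℕ) * l + i := by
    intro i
    have hl0 : 0 < l := lt_of_le_of_lt (Nat.zero_le _) i.2
    unfold gm
    have e1 : ((i : ℕ) * l + (π i : ℕ)) % l = π i := by
      rw [mul_comm, Nat.mul_add_mod, Nat.mod_eq_of_lt (π i).2]
    have e2 : ((i : ℕ) * l + (π i : ℕ)) / l = i := by
      rw [mul_comm, Nat.mul_add_div hl0, Nat.div_eq_of_lt (π i).2, add_zero]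
    rw [e1, e2]
  have hkey : ∀ i j : Fin l, i < j → g ((i : ℕ) * l + (π i : ℕ)) < g ((j : ℕ) * l + (π j : ℕ)) ∧
      f (g ((i : ℕ) * l + (π i : ℕ))) (g ((j : ℕ) * l + (π j : ℕ))) =
        decide (gm l ((j : ℕ) * l + (π j : ℕ)) < gm l ((i : ℕ) * l + (π i : ℕ))) := by
    intro i j hij
    exact hr _ _ (hlt i j hij) (by rw [hl]; exact hidx j) _
      (by rw [hg2 _ (hidx i)]; exact Finset.mem_singleton_self _) _
      (by rw [hg2 _ (hidx j)]; exact Finset.mem_singleton_self _)
  refine ⟨fun i => g ((i : ℕ) * l + (π i : ℕ)), fun i j hij => (hkey i j hij).1,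
    fun i => hg1 _ (hidx i), fun i j hij => ?_⟩
  rw [(hkey i j hij).2, hgm, hgm]
  unfold permPattern
  by_cases h : π i < π j
  · rw [if_pos h]
    have h' : (π i : ℕ) < (π j : ℕ) := h
    refine decide_eq_false ?_
    intro h''
    have : (π i : ℕ) * l + i < (π j : ℕ) * l + j := by
      calc (π i : ℕ) * l + i < (π i : ℕ) * l + l := by have := i.2; omega
        _ = ((π i : ℕ) + 1) * l := by ring
        _ ≤ (π j : ℕ) * l := Nat.mul_le_mul_right _ h'
        _ ≤ _ := by omega
    omega
  · rw [if_neg h]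
    have hne : π i ≠ π j := fun h' => by
      have := π.injective h'
      omega
    have h' : (π j : ℕ) < (π i : ℕ) := by
      have h1 : ¬ (π i : ℕ) < (π j : ℕ) := h
      have h2 : (π i : ℕ) ≠ (π j : ℕ) := fun h' => hne (Fin.ext h')
      omega
    refine decide_eq_true ?_
    calc (π j : ℕ) * l + j < (π j : ℕ) * l + l := by have := j.2; omega
      _ = ((π j : ℕ) + 1) * l := by ring
      _ ≤ (π i : ℕ) * l := Nat.mul_le_mul_right _ h'
      _ ≤ _ := by omega

structure FP (K : Set Op) (f : ℕ → ℕ → Bool) where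
  X : Om
  fair : Fair K f X

instance : Preorder (FP K f) where
  le a b := ∀ F, Cf K a.X F → Cf K b.X F
  le_refl _ _ h := h
  le_trans _ _ _ h h' F hF := h' F (h F hF)

theorem main : ∃ M : Set (Set ℕ), TuringIdeal M ∧ EM M ∧
    ∃ C ∈ M, (∃ v : ℕ → ℚ, ∀ x y, col C x y = decide (v y < v x)) ∧
      ∀ H ∈ M, H.Infinite → ∀ (l : ℕ) (π : Equiv.Perm (Fin l)),
        Realises (col C) H (permPattern π) := by
  classical
  obtain ⟨K, hK⟩ := exists_good
  obtain ⟨v, hv⟩ := exists_base hK
  obtain ⟨en, hen⟩ := hK.ctbl.exists_eq_range ⟨opZero, hK.zero⟩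
  let R : FP K (fv v) → ℕ → FP K (fv v) → Prop := fun x n y =>
    ∀ C : Set ℕ, (∀ a b, x.X ∈ gr (en n) a b ↔ b ∈ chi C a) →
      ∃ H : Set ℕ, H.Infinite ∧ FTransitive (col C) H ∧ Cf K y.X (chi H)
  have hR : ∀ x n y, x ≤ y → ∃ y', y ≤ y' ∧ R x n y' := by
    intro x n y hxy
    by_cases h : ∃ C : Set ℕ, ∀ a b, x.X ∈ gr (en n) a b ↔ b ∈ chi C a
    · obtain ⟨C, hC⟩ := h
      have hen' : en n ∈ K := by rw [hen]; exact mem_range_self n
      have hCy : Cf K y.X (chi C) := hxy _ ⟨en n, hen', hC⟩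
      obtain ⟨Y', h1, h2, H, h3, h4, h5⟩ := solve hK y.fair hCy
      refine ⟨⟨Y', h1⟩, h2, fun C' hC' => ?_⟩
      have : C' = C := by
        ext a
        have e1 : (1 : ℕ) ∈ chi C' a ↔ 1 ∈ chi C a := by rw [← hC' a 1, ← hC a 1]
        rw [mem_chi, mem_chi] at e1
        simpa using e1
      subst this
      exact ⟨H, h3, h4, h5⟩
    · exact ⟨y, le_rfl, fun C hC => absurd ⟨C, hC⟩ h⟩
  obtain ⟨s, hs0, hsm, hs⟩ := bookkeeping R hR ⟨orc v, hv⟩
  let M : Set (Set ℕ) := {A | ∃ n, Cf K (s n).X (chi A)}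
  let C0 : Set ℕ := {n | orc v n = true}
  have hC0 : Cf K (s 0).X (chi C0) := by
    rw [hs0]
    refine ⟨opRead0, hK.read0, fun x y => ?_⟩
    rw [opRead0, gr_mkOp, mem_chi]
    simp only [mem_ofPred_eq, C0]
    by_cases h : orc v x = true
    · simp [h, eq_comm]
    · simp only [Bool.not_eq_true] at h
      simp [h, eq_comm]
  have hcol : ∀ x y, col C0 x y = fv v x y := by
    intro x y
    rw [← orc_pair]
    by_cases h : orc v (Nat.pair x y) = true
    · rw [h]
      have h1 : Nat.pair x y ∈ C0 := h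
      simp [col, h1]
    · have h' : orc v (Nat.pair x y) = false := by simpa using h
      rw [h']
      have h1 : Nat.pair x y ∉ C0 := h
      simp [col, h1]
  have hcol' : col C0 = fv v := by
    funext x y
    exact hcol x y
  refine ⟨M, ⟨⟨C0, 0, hC0⟩, ?_, ?_⟩, ?_, C0, ⟨0, hC0⟩, ⟨v, fun x y => hcol x y⟩, ?_⟩
  · rintro A ⟨n, hA⟩ B ⟨k, hB⟩
    obtain ⟨V, hV, hV'⟩ := hsm (le_max_left n k) _ hA
    obtain ⟨W, hW, hW'⟩ := hsm (le_max_right n k) _ hB
    refine ⟨max n k, opJoin V W, hK.join V hV W hW, fun x y => ?_⟩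
    rw [opJoin, gr_mkOp]
    simp only [mem_ofPred_eq, hV', hW', mem_chi, tjoin]
    rcases Nat.mod_two_eq_zero_or_one x with h | h
    · simp [h]
    · simp [h]
  · rintro A ⟨n, hA⟩ B hB
    exact ⟨n, cf_of_recursiveIn hK hA (RecursiveIn.iff_nat.1 hB)⟩
  · rintro C ⟨n, V, hV, hV'⟩
    rw [hen] at hV
    obtain ⟨k, rfl⟩ := hV
    obtain ⟨m, hm⟩ := hs n k
    obtain ⟨H, h1, h2, h3⟩ := hm C hV'
    exact ⟨H, ⟨m, h3⟩, h1, h2⟩
  · rintro H ⟨n, hH⟩ hinf l π
    rw [hcol']
    exact realises_of_fair hK (s n).fair hinf hH π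

end H860EM
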