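import Pool.Agent.H860EM.Basic

set_option autoImplicit false

open Set Topology

namespace H860EM

lemma isOpen_ex {ι : Sort*} {p : ι → Om → Prop} (h : ∀ i, IsOpen {Z | p i Z}) :
    IsOpen {Z | ∃ i, p i Z} := by
  have : {Z | ∃ i, p i Z} = ⋃ i, {Z | p i Z} := by ext Z; simp
  rw [this]
  exact isOpen_iUnion h

lemma isOpen_ball {ι : Type*} (s : Finset ι) {p : ι → Om → Prop} (h : ∀ i ∈ s, IsOpen {Z | p i Z}) :
    IsOpen {Z | ∀ i ∈ s, p i Z} := by
  have : {Z | ∀ i ∈ s, p i Z} = ⋂ i ∈ s, {Z | p i Z} := by ext Z; simp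
  rw [this]
  exact isOpen_biInter_finset h

lemma isOpen_blt (n : ℕ) {p : ℕ → Om → Prop} (h : ∀ i < n, IsOpen {Z | p i Z}) :
    IsOpen {Z | ∀ i < n, p i Z} := by
  have := isOpen_ball (Finset.range n) (p := p) (fun i hi => h i (Finset.mem_range.1 hi))
  simpa using this

lemma isOpen_bit {Φ : Om → Om} (hΦ : Continuous Φ) (n : ℕ) (v : Bool) :
    IsOpen {Z | Φ Z n = v} :=
  (isOpen_discrete {v}).preimage ((continuous_apply n).comp hΦ)

lemma continuous_gof {Φ : Om → Om} (hΦ : Continuous Φ) (x y : ℕ) :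
    Continuous fun Z => gof (Φ Z) x y :=
  (continuous_apply (Nat.pair x y)).comp (continuous_rt.comp hΦ)

lemma isOpen_trans {Φ : Om → Om} (hΦ : Continuous Φ) (A : Finset ℕ) :
    IsOpen {Z | Trans (gof (Φ Z)) (A : Set ℕ)} := by
  have h : ∀ x y z : ℕ, IsOpen {Z : Om | x < y → y < z → gof (Φ Z) x y = gof (Φ Z) y z →
      gof (Φ Z) x z = gof (Φ Z) x y} := by
    intro x y z
    by_cases h1 : x < y
    · by_cases h2 : y < z
      · simp only [h1, h2, forall_true_left]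
        exact (isOpen_discrete {p : Bool × Bool × Bool | p.1 = p.2.1 → p.2.2 = p.1}).preimage
          ((continuous_gof hΦ x y).prodMk ((continuous_gof hΦ y z).prodMk (continuous_gof hΦ x z)))
      · simp [h2]
    · simp [h1]
  have h3 : IsOpen {Z | ∀ x ∈ A, ∀ y ∈ A, ∀ z ∈ A, x < y → y < z → gof (Φ Z) x y = gof (Φ Z) y z →
      gof (Φ Z) x z = gof (Φ Z) x y} :=
    isOpen_ball A fun x _ => isOpen_ball A fun y _ => isOpen_ball A fun z _ => h x y z
  exact h3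

lemma trans_congr {g g' : ℕ → ℕ → Bool} {A : Set ℕ} (h : ∀ x ∈ A, ∀ y ∈ A, g x y = g' x y)
    (ht : Trans g A) : Trans g' A := by
  intro x hx y hy z hz hxy hyz
  rw [← h x hx y hy, ← h y hy z hz, ← h x hx z hz]
  exact ht x hx y hy z hz hxy hyz

/-- a track: a finite set together with a node -/
abbrev Trk := Finset ℕ × Node

def Us (F : Finset ℕ) (M : ℕ → Finset ℕ) (j : ℕ) : Finset ℕ := F ∪ (Finset.range j).biUnion M

/-- the combinatorial part of a level -/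
def Cmb (N k : ℕ) (g : ℕ → ℕ → Bool) (U : Finset ℕ) (T : Finset Trk)
    (M : Finset ℕ) (T' : Finset Trk) (R : Finset ℕ) : Prop :=
  (∀ x ∈ U, ∀ z ∈ M, ∀ z' ∈ M, g x z = g x z') ∧
  (∀ P : Om, ∃ κ : Finset ℕ, ∀ τ ∈ T, τ.2.length < N →
    (∀ z ∈ M, Trans g (insert z (τ.1 : Set ℕ))) →
     ∃ E ⊆ M, (∀ x ∈ E, ∀ i < k, P (Nat.pair x i) = decide (i ∈ κ)) ∧
       Trans g ((τ.1 : Set ℕ) ∪ (E : Set ℕ)) ∧
       ∃ R' ⊆ R, (τ.1 ∪ E, R' :: τ.2) ∈ T')

lemma Cmb.congr {N k : ℕ} {g g' : ℕ → ℕ → Bool} {U : Finset ℕ} {T : Finset Trk}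
    {M : Finset ℕ} {T' : Finset Trk} {R : Finset ℕ}
    (hg : ∀ x ∈ U ∪ M ∪ T.biUnion (fun τ => τ.1), ∀ y ∈ U ∪ M ∪ T.biUnion (fun τ => τ.1),
      g x y = g' x y) (h : Cmb N k g U T M T' R) : Cmb N k g' U T M T' R := by
  have hT : ∀ τ ∈ T, ∀ x ∈ τ.1, x ∈ U ∪ M ∪ T.biUnion (fun τ => τ.1) := fun τ hτ x hx =>
    Finset.mem_union_right _ (Finset.mem_biUnion.2 ⟨τ, hτ, hx⟩)
  have hM : ∀ x ∈ M, x ∈ U ∪ M ∪ T.biUnion (fun τ => τ.1) := fun x hx =>
    Finset.mem_union_left _ (Finset.mem_union_right _ hx)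
  have hU : ∀ x ∈ U, x ∈ U ∪ M ∪ T.biUnion (fun τ => τ.1) := fun x hx =>
    Finset.mem_union_left _ (Finset.mem_union_left _ hx)
  refine ⟨fun x hx z hz z' hz' => ?_, fun P => ?_⟩
  · rw [← hg x (hU x hx) z (hM z hz), ← hg x (hU x hx) z' (hM z' hz')]
    exact h.1 x hx z hz z' hz'
  · obtain ⟨κ, hκ⟩ := h.2 P
    refine ⟨κ, fun τ hτ hl hv => ?_⟩
    obtain ⟨E, hE, h1, h2, h3⟩ := hκ τ hτ hl (fun z hz => by
      refine trans_congr ?_ (hv z hz)
      intro x hx y hy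
      have hx' : x ∈ U ∪ M ∪ T.biUnion (fun τ => τ.1) := by
        rcases hx with rfl | hx
        · exact hM _ hz
        · exact hT τ hτ x hx
      have hy' : y ∈ U ∪ M ∪ T.biUnion (fun τ => τ.1) := by
        rcases hy with rfl | hy
        · exact hM _ hz
        · exact hT τ hτ y hy
      exact (hg x hx' y hy').symm)
    refine ⟨E, hE, h1, ?_, h3⟩
    refine trans_congr ?_ h2
    intro x hx y hy
    have hx' : x ∈ U ∪ M ∪ T.biUnion (fun τ => τ.1) := by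
      rcases hx with hx | hx
      · exact hT τ hτ x hx
      · exact hM _ (hE hx)
    have hy' : y ∈ U ∪ M ∪ T.biUnion (fun τ => τ.1) := by
      rcases hy with hy | hy
      · exact hT τ hτ y hy
      · exact hM _ (hE hy)
    exact hg x hx' y hy'

def Lv (W : Op) (N k : ℕ) (X Y : Om) (U : Finset ℕ) (T : Finset Trk) (m : ℕ)
    (M : Finset ℕ) (T' : Finset Trk) (m' : ℕ) (R : Finset ℕ) : Prop :=
  (M.Nonempty ∧ (∀ x ∈ M, m < x ∧ x < m') ∧ m ≤ m' ∧ T ⊆ T') ∧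
  (∀ x ∈ M, Y x = true) ∧ Cmb N k (gof X) U T M T' R ∧
  (∀ τ ∈ T', ((∃ τ0 ∈ T, τ0.1 ⊆ τ.1) ∧ τ.1 ⊆ U ∪ M) ∧ (τ.2 = [] ∨ Frc W X τ.1 m' τ.2))

lemma isOpen_Cmb {Φ : Om → Om} (hΦ : Continuous Φ) (N k : ℕ) (U : Finset ℕ) (T : Finset Trk)
    (M : Finset ℕ) (T' : Finset Trk) (R : Finset ℕ) :
    IsOpen {Z | Cmb N k (gof (Φ Z)) U T M T' R} := by
  rw [isOpen_iff_mem_nhds]
  intro Z hZ
  have h1 : IsOpen {Z' | ∀ x ∈ U ∪ M ∪ T.biUnion (fun τ => τ.1),
      ∀ y ∈ U ∪ M ∪ T.biUnion (fun τ => τ.1), gof (Φ Z') x y = gof (Φ Z) x y} :=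
    isOpen_ball _ fun x _ => isOpen_ball _ fun y _ =>
      (isOpen_discrete {gof (Φ Z) x y}).preimage (continuous_gof hΦ x y)
  refine Filter.mem_of_superset (h1.mem_nhds fun x _ y _ => rfl) fun Z' hZ' => ?_
  exact Cmb.congr (fun x hx y hy => (hZ' x hx y hy).symm) hZ

lemma isOpen_Lv {W : Op} (hW : ∀ s, IsOpen (W s)) {Φ Ψ : Om → Om} (hΦ : Continuous Φ)
    (hΨ : Continuous Ψ) (N k : ℕ) (U : Finset ℕ) (T : Finset Trk) (m : ℕ)
    (M : Finset ℕ) (T' : Finset Trk) (m' : ℕ) (R : Finset ℕ) :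
    IsOpen {Z | Lv W N k (Φ Z) (Ψ Z) U T m M T' m' R} := by
  refine IsOpen.and isOpen_const (IsOpen.and ?_ (IsOpen.and ?_ ?_))
  · exact isOpen_ball M fun x _ => isOpen_bit hΨ x true
  · exact isOpen_Cmb hΦ N k U T M T' R
  · refine isOpen_ball T' fun τ _ => IsOpen.and isOpen_const ?_
    by_cases h : τ.2 = []
    · simp [h]
    · simp only [h, false_or]
      exact (isOpen_Frc (hW τ.2) τ.1 m').preimage hΦ

def opV (F : Finset ℕ) (m0 N k : ℕ) (W : Op) : Op := fun s =>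
  {Z | ∃ (M : ℕ → Finset ℕ) (T : ℕ → Finset Trk) (m : ℕ → ℕ), T 0 = {(F, [])} ∧ m 0 = m0 ∧
    ∀ j < s.length, Lv W N k (lf Z) (rt Z) (Us F M j) (T j) (m j) (M j) (T (j + 1)) (m (j + 1))
      (blk s j)}

lemma isOpen_opV {W : Op} (hW : ∀ s, IsOpen (W s)) (F : Finset ℕ) (m0 N k : ℕ) (s : Node) :
    IsOpen (opV F m0 N k W s) := by
  rw [isOpen_iff_mem_nhds]
  rintro Z ⟨M, T, m, h0, h1, h2⟩
  have h3 : IsOpen {Z | ∀ j < s.length, Lv W N k (lf Z) (rt Z) (Us F M j) (T j) (m j) (M j)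
      (T (j + 1)) (m (j + 1)) (blk s j)} :=
    isOpen_blt _ fun j _ => isOpen_Lv hW continuous_lf continuous_rt _ _ _ _ _ _ _ _ _
  exact Filter.mem_of_superset (h3.mem_nhds h2) fun Z' h' => ⟨M, T, m, h0, h1, h'⟩

def opN (T : Finset Trk) (k n : ℕ) (W : Op) : Op := fun _ =>
  {Z | ∃ κ : Finset ℕ, ∀ τ ∈ T, ∃ E : Finset ℕ, (∀ x ∈ E, rt (lf Z) x = true) ∧
    (∀ x ∈ E, ∀ i < k, rt Z (Nat.pair x i) = decide (i ∈ κ)) ∧
    Trans (gof (lf (lf Z))) ((τ.1 ∪ E : Finset ℕ) : Set ℕ) ∧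
    ∃ R' : Finset ℕ, (∀ x ∈ R', n < x) ∧ jn (lf (lf Z)) (chf (τ.1 ∪ E)) ∈ W (R' :: τ.2)}

lemma isOpen_opN {W : Op} (hW : ∀ s, IsOpen (W s)) (T : Finset Trk) (k n : ℕ) (s : Node) :
    IsOpen (opN T k n W s) := by
  refine isOpen_ex fun κ => isOpen_ball T fun τ _ => isOpen_ex fun E => ?_
  refine IsOpen.and ?_ (IsOpen.and ?_ (IsOpen.and ?_ ?_))
  · exact isOpen_ball E fun x _ => isOpen_bit (continuous_rt.comp continuous_lf) x true
  · exact isOpen_ball E fun x _ => isOpen_blt k fun i _ => isOpen_bit continuous_rt _ _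
  · exact isOpen_trans (continuous_lf.comp continuous_lf) _
  · refine isOpen_ex fun R' => IsOpen.and isOpen_const ?_
    exact (hW (R' :: τ.2)).preimage
      ((continuous_jn_left _).comp (continuous_lf.comp continuous_lf))

/-- restriction of the reservoir -/
def phi (U ρ : Finset ℕ) (b : ℕ) (Z : Om) : Om :=
  jn (lf Z) (fun z => rt Z z && (decide (b < z) && decide (∀ x ∈ U, gof (lf Z) x z = decide (x ∈ ρ))))

def psi (κ : Finset ℕ) (k : ℕ) (Z : Om) : Om :=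
  jn (lf (lf Z)) (fun z => rt (lf Z) z && decide (∀ i < k, rt Z (Nat.pair z i) = decide (i ∈ κ)))

lemma continuous_of_bits {Φ : Om → Om} (h : ∀ n : ℕ, ∀ Z : Om, ∃ b, ∀ Z' : Om,
    (∀ k < b, Z' k = Z k) → Φ Z' n = Φ Z n) : Continuous Φ := by
  refine continuous_pi fun n => ?_
  rw [continuous_discrete_rng]
  intro v
  refine isOpen_of_bits ?_
  intro Z hZ
  obtain ⟨b, hb⟩ := h n Z
  refine ⟨b, fun Z' hZ' => ?_⟩
  simp only [mem_preimage, mem_singleton_iff] at hZ ⊢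
  rw [hb Z' hZ', hZ]

lemma continuous_decide {p : Om → Prop} [∀ Z, Decidable (p Z)] (h : IsOpen {Z | p Z})
    (h' : IsOpen {Z | ¬ p Z}) : Continuous fun Z => decide (p Z) := by
  rw [continuous_discrete_rng]
  intro v
  cases v
  · convert h' using 1
    ext Z; simp
  · convert h using 1
    ext Z; simp

lemma continuous_band {a b : Om → Bool} (ha : Continuous a) (hb : Continuous b) :
    Continuous fun Z => a Z && b Z := by
  have : Continuous fun p : Bool × Bool => p.1 && p.2 := continuous_of_discreteTopology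
  exact this.comp (ha.prodMk hb)

lemma continuous_phi (U ρ : Finset ℕ) (b : ℕ) : Continuous (phi U ρ b) := by
  refine continuous_jn.comp (continuous_lf.prodMk ?_)
  refine continuous_pi fun z => ?_
  refine continuous_band ((continuous_apply z).comp continuous_rt)
    (continuous_band continuous_const (continuous_decide ?_ ?_))
  · exact isOpen_ball U fun x _ =>
      (isOpen_discrete {decide (x ∈ ρ)}).preimage (continuous_gof continuous_lf x z)
  · have : {Z : Om | ¬ ∀ x ∈ U, gof (lf Z) x z = decide (x ∈ ρ)}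
        = {Z | ∃ x, x ∈ U ∧ gof (lf Z) x z ≠ decide (x ∈ ρ)} := by
      ext Z; simp
    rw [this]
    exact isOpen_ex fun x => IsOpen.and isOpen_const
      ((isOpen_discrete {decide (x ∈ ρ)}ᶜ).preimage (continuous_gof continuous_lf x z))

lemma continuous_psi (κ : Finset ℕ) (k : ℕ) : Continuous (psi κ k) := by
  refine continuous_jn.comp ((continuous_lf.comp continuous_lf).prodMk ?_)
  refine continuous_pi fun z => ?_
  refine continuous_band ((continuous_apply z).comp (continuous_rt.comp continuous_lf))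
    (continuous_decide ?_ ?_)
  · exact isOpen_blt k fun i _ => isOpen_bit continuous_rt _ _
  · have : {Z : Om | ¬ ∀ i < k, rt Z (Nat.pair z i) = decide (i ∈ κ)}
        = {Z | ∃ i, i < k ∧ rt Z (Nat.pair z i) ≠ decide (i ∈ κ)} := by
      ext Z; simp
    rw [this]
    exact isOpen_ex fun i => IsOpen.and isOpen_const
      ((isOpen_discrete {decide (i ∈ κ)}ᶜ).preimage
        ((continuous_apply (Nat.pair z i)).comp continuous_rt))

/-! ### graphs of partial functions -/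

def gr (W : Op) (x y : ℕ) : Set Om := W [{x}, {y}]

def mkOp (h : ℕ → ℕ → Set Om) : Op := fun s =>
  {Z | ∃ x y : ℕ, s = [{x}, {y}] ∧ Z ∈ h x y}

lemma gr_mkOp (h : ℕ → ℕ → Set Om) (x y : ℕ) : gr (mkOp h) x y = h x y := by
  ext Z
  constructor
  · rintro ⟨x', y', h1, h2⟩
    simp only [List.cons.injEq, Finset.singleton_inj, and_true] at h1
    obtain ⟨rfl, rfl⟩ := h1
    exact h2
  · intro hZ
    exact ⟨x, y, rfl, hZ⟩

lemma isOpen_mkOp {h : ℕ → ℕ → Set Om} (hh : ∀ x y, IsOpen (h x y)) (s : Node) :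
    IsOpen (mkOp h s) :=
  isOpen_ex fun x => isOpen_ex fun y => IsOpen.and isOpen_const (hh x y)

def opComp (W V : Op) : Op := fun s =>
  {Z | ∃ (b : ℕ) (A : Finset ℕ), (∀ k < b, Z ∈ gr V k (if k ∈ A then 1 else 0)) ∧ Frc W Z A b s}

lemma isOpen_opComp {W V : Op} (hW : ∀ s, IsOpen (W s)) (hV : ∀ s, IsOpen (V s)) (s : Node) :
    IsOpen (opComp W V s) := by
  refine isOpen_ex fun b => isOpen_ex fun A => IsOpen.and ?_ (isOpen_Frc (hW s) A b)
  exact isOpen_blt b fun k _ => hV _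

def opSing (V : Op) : Op := fun s => {Z | ∀ R ∈ s, ∃ h : ℕ, R = {h} ∧ Z ∈ gr V h 1}

lemma isOpen_opSing {V : Op} (hV : ∀ s, IsOpen (V s)) (s : Node) : IsOpen (opSing V s) := by
  have := isOpen_ball s.toFinset (p := fun R Z => ∃ h : ℕ, R = {h} ∧ Z ∈ gr V h 1)
    (fun R _ => isOpen_ex fun h => IsOpen.and isOpen_const (hV _))
  simpa [opSing] using this

end H860EM
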