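import Pool.Agent.H860EM.Ops

set_option autoImplicit false

open Set Topology

namespace H860EM

def opZero : Op := mkOp fun _ y => {_Z | y = 0}
def opSucc : Op := mkOp fun x y => {_Z | y = x + 1}
def opLeft : Op := mkOp fun x y => {_Z | y = (Nat.unpair x).1}
def opRight : Op := mkOp fun x y => {_Z | y = (Nat.unpair x).2}
def opRead : Op := mkOp fun x y => {Z | (if rt Z x = true then 1 else 0) = y}
def opRead0 : Op := mkOp fun x y => {Z | (if Z x = true then 1 else 0) = y}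
def opPair (V W : Op) : Op := mkOp fun x y =>
  {Z | ∃ a b, Nat.pair a b = y ∧ Z ∈ gr V x a ∧ Z ∈ gr W x b}
def opCmp (V W : Op) : Op := mkOp fun x y => {Z | ∃ a, Z ∈ gr W x a ∧ Z ∈ gr V a y}
def precS (V W : Op) (a : ℕ) : ℕ → ℕ → Set Om
  | 0, v => gr V a v
  | n + 1, v => {Z | ∃ i, Z ∈ precS V W a n i ∧ Z ∈ gr W (Nat.pair a (Nat.pair n i)) v}
def opPrec (V W : Op) : Op := mkOp fun x y => precS V W (Nat.unpair x).1 (Nat.unpair x).2 y
def opRfind (V : Op) : Op := mkOp fun x y =>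
  {Z | Z ∈ gr V (Nat.pair x y) 0 ∧ ∀ j < y, ∃ v, v ≠ 0 ∧ Z ∈ gr V (Nat.pair x j) v}
def opJoin (V W : Op) : Op := mkOp fun x y =>
  {Z | (x % 2 = 0 ∧ Z ∈ gr V (x / 2) y) ∨ (x % 2 = 1 ∧ Z ∈ gr W (x / 2) y)}

lemma isOpen_opZero (s : Node) : IsOpen (opZero s) := isOpen_mkOp (fun _ _ => isOpen_const) s
lemma isOpen_opSucc (s : Node) : IsOpen (opSucc s) := isOpen_mkOp (fun _ _ => isOpen_const) s
lemma isOpen_opLeft (s : Node) : IsOpen (opLeft s) := isOpen_mkOp (fun _ _ => isOpen_const) s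
lemma isOpen_opRight (s : Node) : IsOpen (opRight s) := isOpen_mkOp (fun _ _ => isOpen_const) s
lemma isOpen_opRead (s : Node) : IsOpen (opRead s) := by
  refine isOpen_mkOp (fun x y => ?_) s
  exact (isOpen_discrete {b : Bool | (if b = true then 1 else 0) = y}).preimage
    ((continuous_apply x).comp continuous_rt)
lemma isOpen_opRead0 (s : Node) : IsOpen (opRead0 s) := by
  refine isOpen_mkOp (fun x y => ?_) s
  exact (isOpen_discrete {b : Bool | (if b = true then 1 else 0) = y}).preimage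
    (continuous_apply (A := fun _ : ℕ => Bool) x)
lemma isOpen_opPair {V W : Op} (hV : ∀ s, IsOpen (V s)) (hW : ∀ s, IsOpen (W s)) (s : Node) :
    IsOpen (opPair V W s) := by
  refine isOpen_mkOp (fun x y => ?_) s
  exact isOpen_ex fun a => isOpen_ex fun b =>
    IsOpen.and isOpen_const (IsOpen.and (hV [{x}, {a}]) (hW [{x}, {b}]))
lemma isOpen_opCmp {V W : Op} (hV : ∀ s, IsOpen (V s)) (hW : ∀ s, IsOpen (W s)) (s : Node) :
    IsOpen (opCmp V W s) := by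
  refine isOpen_mkOp (fun x y => ?_) s
  exact isOpen_ex fun a => IsOpen.and (hW [{x}, {a}]) (hV [{a}, {y}])
lemma isOpen_precS {V W : Op} (hV : ∀ s, IsOpen (V s)) (hW : ∀ s, IsOpen (W s)) (a n : ℕ) :
    ∀ v, IsOpen (precS V W a n v) := by
  induction n with
  | zero => intro v; exact hV _
  | succ n ih => intro v; exact isOpen_ex fun i => IsOpen.and (ih i) (hW _)
lemma isOpen_opPrec {V W : Op} (hV : ∀ s, IsOpen (V s)) (hW : ∀ s, IsOpen (W s)) (s : Node) :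
    IsOpen (opPrec V W s) := isOpen_mkOp (fun _ _ => isOpen_precS hV hW _ _ _) s
lemma isOpen_opRfind {V : Op} (hV : ∀ s, IsOpen (V s)) (s : Node) :
    IsOpen (opRfind V s) := by
  refine isOpen_mkOp (fun x y => ?_) s
  exact IsOpen.and (hV [{Nat.pair x y}, {0}])
    (isOpen_blt y fun j _ => isOpen_ex fun v => IsOpen.and isOpen_const
      (hV [{Nat.pair x j}, {v}]))
lemma isOpen_opJoin {V W : Op} (hV : ∀ s, IsOpen (V s)) (hW : ∀ s, IsOpen (W s)) (s : Node) :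
    IsOpen (opJoin V W s) := by
  refine isOpen_mkOp (fun x y => ?_) s
  exact IsOpen.union (IsOpen.and isOpen_const (hV [{x / 2}, {y}]))
    (IsOpen.and isOpen_const (hW [{x / 2}, {y}]))

/-- a countable family of operators with open values, closed under all operations we use -/
structure Good (K : Set Op) : Prop where
  ctbl : K.Countable
  isOpen : ∀ W ∈ K, ∀ s, IsOpen (W s)
  wkl : ∀ O ∈ K, ∀ W ∈ K, opWkl O W ∈ K
  cyl : ∀ A m, ∀ O ∈ K, opCyl A m O ∈ K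
  neg : ∀ A m t n, ∀ O ∈ K, ∀ W ∈ K, opNeg A m t n O W ∈ K
  preLf : ∀ W ∈ K, opPre lf W ∈ K
  prePhi : ∀ U ρ b, ∀ W ∈ K, opPre (phi U ρ b) W ∈ K
  prePsi : ∀ κ k, ∀ W ∈ K, opPre (psi κ k) W ∈ K
  emV : ∀ F m0 N k, ∀ W ∈ K, opV F m0 N k W ∈ K
  emN : ∀ T k n, ∀ W ∈ K, opN T k n W ∈ K
  comp : ∀ W ∈ K, ∀ V ∈ K, opComp W V ∈ K
  sing : ∀ V ∈ K, opSing V ∈ K
  zero : opZero ∈ K
  succ : opSucc ∈ K
  left : opLeft ∈ K
  right : opRight ∈ K
  read : opRead ∈ K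
  read0 : opRead0 ∈ K
  pair : ∀ V ∈ K, ∀ W ∈ K, opPair V W ∈ K
  cmp : ∀ V ∈ K, ∀ W ∈ K, opCmp V W ∈ K
  prec : ∀ V ∈ K, ∀ W ∈ K, opPrec V W ∈ K
  rfind : ∀ V ∈ K, opRfind V ∈ K
  join : ∀ V ∈ K, ∀ W ∈ K, opJoin V W ∈ K

/-- `F` is computed from `X` by an operator of `K` -/
def Cf (K : Set Op) (X : Om) (F : ℕ →. ℕ) : Prop := ∃ V ∈ K, ∀ x y, X ∈ gr V x y ↔ y ∈ F x

lemma precS_iff {V W : Op} {X : Om} {F H : ℕ →. ℕ} (hV : ∀ x y, X ∈ gr V x y ↔ y ∈ F x)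
    (hW : ∀ x y, X ∈ gr W x y ↔ y ∈ H x) (a n : ℕ) : ∀ v, X ∈ precS V W a n v ↔
      v ∈ (n.rec (F a) fun y IH => do
          let i ← IH
          H (Nat.pair a (Nat.pair y i)) : Part ℕ) := by
  induction n with
  | zero => intro v; exact hV _ _
  | succ n ih =>
    intro v
    constructor
    · rintro ⟨i, h1, h2⟩
      exact Part.mem_bind_iff.2 ⟨i, (ih i).1 h1, (hW _ _).1 h2⟩
    · intro h
      obtain ⟨i, h1, h2⟩ := Part.mem_bind_iff.1 h
      exact ⟨i, (ih i).2 h1, (hW _ _).2 h2⟩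

theorem cf_of_recursiveIn {K : Set Op} (hK : Good K) {X : Om} {F0 F : ℕ →. ℕ}
    (h0 : Cf K X F0) (h : Nat.RecursiveIn {F0} F) : Cf K X F := by
  induction h with
  | zero =>
    refine ⟨opZero, hK.zero, fun x y => ?_⟩
    rw [opZero, gr_mkOp]
    show y = 0 ↔ y ∈ (Part.some 0 : Part ℕ)
    simp
  | succ =>
    refine ⟨opSucc, hK.succ, fun x y => ?_⟩
    rw [opSucc, gr_mkOp]
    simp
  | left =>
    refine ⟨opLeft, hK.left, fun x y => ?_⟩
    rw [opLeft, gr_mkOp]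
    simp
  | right =>
    refine ⟨opRight, hK.right, fun x y => ?_⟩
    rw [opRight, gr_mkOp]
    simp
  | oracle g hg =>
    simp only [mem_singleton_iff] at hg
    subst hg
    exact h0
  | pair hf hh ihf ihh =>
    obtain ⟨V, hV, hV'⟩ := ihf
    obtain ⟨W, hW, hW'⟩ := ihh
    refine ⟨opPair V W, hK.pair V hV W hW, fun x y => ?_⟩
    rw [opPair, gr_mkOp]
    simp only [mem_ofPred_eq, hV', hW']
    simp only [Seq.seq]
    simp only [Part.map_eq_map, Part.mem_bind_iff, Part.mem_map_iff]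
    constructor
    · rintro ⟨a, b, h1, h2, h3⟩
      exact ⟨_, ⟨a, h2, rfl⟩, b, h3, h1⟩
    · rintro ⟨_, ⟨a, h2, rfl⟩, b, h3, h1⟩
      exact ⟨a, b, h1, h2, h3⟩
  | comp hf hh ihf ihh =>
    obtain ⟨V, hV, hV'⟩ := ihf
    obtain ⟨W, hW, hW'⟩ := ihh
    refine ⟨opCmp V W, hK.cmp V hV W hW, fun x y => ?_⟩
    rw [opCmp, gr_mkOp]
    simp only [mem_ofPred_eq, hV', hW']
    exact Part.mem_bind_iff.symm
  | prec hf hh ihf ihh =>
    obtain ⟨V, hV, hV'⟩ := ihf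
    obtain ⟨W, hW, hW'⟩ := ihh
    refine ⟨opPrec V W, hK.prec V hV W hW, fun x y => ?_⟩
    rw [opPrec, gr_mkOp]
    exact precS_iff hV' hW' _ _ _
  | @rfind f hf ihf =>
    obtain ⟨V, hV, hV'⟩ := ihf
    refine ⟨opRfind V, hK.rfind V hV, fun x y => ?_⟩
    rw [opRfind, gr_mkOp]
    have key := @Nat.mem_rfind (fun n => (fun m => decide (m = 0)) <$> f (Nat.pair x n)) y
    refine Iff.trans ?_ key.symm
    simp only [mem_ofPred_eq, hV']
    constructor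
    · rintro ⟨h1, h2⟩
      refine ⟨(Part.mem_map_iff _).2 ⟨0, h1, by simp⟩, fun {j} hj => ?_⟩
      obtain ⟨v, hv, h3⟩ := h2 j hj
      exact (Part.mem_map_iff _).2 ⟨v, h3, by simpa using hv⟩
    · rintro ⟨h1, h3⟩
      obtain ⟨a, h1, h2⟩ := (Part.mem_map_iff _).1 h1
      have ha : a = 0 := by simpa using h2
      subst ha
      refine ⟨h1, fun j hj => ?_⟩
      obtain ⟨v, h4, h5⟩ := (Part.mem_map_iff _).1 (h3 hj)
      exact ⟨v, by simpa using h5, h4⟩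

end H860EM
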