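import Pool.Agent.H860EM.Rec

set_option autoImplicit false

open Set Topology

namespace H860EM

variable {K : Set Op} {f : ℕ → ℕ → Bool} {X : Om}

lemma Sub.mono_head {t s : Node} {R R' : Finset ℕ} (h : Sub t (R :: s)) (hR : R ⊆ R') :
    Sub t (R' :: s) := by
  refine ⟨h.1, fun i => (h.2 i).trans ?_⟩
  by_cases hi : i = s.length
  · subst hi
    rw [blk_cons_length, blk_cons_length]
    exact hR
  · rw [blk_cons_ne _ _ hi, blk_cons_ne _ _ hi]

lemma ess_opWkl (hK : Good K) {O W : Op} (hO : O ∈ K) (hW : W ∈ K) {N : ℕ}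
    (h : ∀ P, jn X P ∉ O [] → Ess N (val W (jn X P))) : Ess N (val (opWkl O W) X) := by
  intro s hs hl n
  have h1 : ∀ P : Om, jn X P ∈ O [] ∨ ∃ t, Sub t s ∧ val W (jn X P) t := by
    intro P
    rcases hs with rfl | hs
    · exact Or.inr ⟨[], Sub.refl _, Or.inl rfl⟩
    · rcases hs P with h | ⟨t, ht, h⟩
      · exact Or.inl h
      · exact Or.inr ⟨t, ht, Or.inr h⟩
  have h2 : ∀ P : Om, jn X P ∈ O [] ∨ ∃ t R, Sub t s ∧ (∀ x ∈ R, n < x) ∧ jn X P ∈ W (R :: t) := by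
    intro P
    by_cases hP : jn X P ∈ O []
    · exact Or.inl hP
    · rcases h1 P with h' | ⟨t, ht, h'⟩
      · exact absurd h' hP
      · obtain ⟨R, hR, h3⟩ := h P hP t h' (by rw [ht.1]; exact hl) n
        exact Or.inr ⟨t, R, ht, hR, val_cons.1 h3⟩
  have key : ∃ R : Finset ℕ, (∀ x ∈ R, n < x) ∧ ∀ P ∈ (univ : Set Om),
      jn X P ∈ O [] ∨ ∃ t, Sub t (R :: s) ∧ jn X P ∈ W t := by
    refine (isCompact_univ (X := Om)).induction_on
      (p := fun S => ∃ R : Finset ℕ, (∀ x ∈ R, n < x) ∧ ∀ P ∈ S,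
        jn X P ∈ O [] ∨ ∃ t, Sub t (R :: s) ∧ jn X P ∈ W t) ?_ ?_ ?_ ?_
    · exact ⟨∅, by simp, by simp⟩
    · rintro S S' hSS ⟨R, h3, h4⟩
      exact ⟨R, h3, fun P hP => h4 P (hSS hP)⟩
    · rintro S S' ⟨R, h3, h4⟩ ⟨R', h3', h4'⟩
      refine ⟨R ∪ R', ?_, ?_⟩
      · intro x hx
        rcases Finset.mem_union.1 hx with hx | hx
        · exact h3 x hx
        · exact h3' x hx
      · rintro P (hP | hP)
        · rcases h4 P hP with h5 | ⟨t, ht, h5⟩
          · exact Or.inl h5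
          · exact Or.inr ⟨t, ht.mono_head Finset.subset_union_left, h5⟩
        · rcases h4' P hP with h5 | ⟨t, ht, h5⟩
          · exact Or.inl h5
          · exact Or.inr ⟨t, ht.mono_head Finset.subset_union_right, h5⟩
    · intro P _
      rcases h2 P with h5 | ⟨t, R, ht, hR, h5⟩
      · refine ⟨(fun P => jn X P) ⁻¹' (O []), ?_, ∅, by simp, fun P' hP' => Or.inl hP'⟩
        exact mem_nhdsWithin_of_mem_nhds
          (((hK.isOpen O hO []).preimage (continuous_jn_right X)).mem_nhds h5)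
      · refine ⟨(fun P => jn X P) ⁻¹' (W (R :: t)), ?_, R, hR, fun P' hP' =>
          Or.inr ⟨R :: t, ht.cons (Finset.Subset.refl _), hP'⟩⟩
        exact mem_nhdsWithin_of_mem_nhds
          (((hK.isOpen W hW (R :: t)).preimage (continuous_jn_right X)).mem_nhds h5)
  obtain ⟨R, hR, h6⟩ := key
  exact ⟨R, hR, Or.inr fun P => h6 P (mem_univ _)⟩

def cod (P : Om) (b : ℕ) : Finset ℕ := (Finset.range b).filter fun k => P k = true

lemma cod_spec (P : Om) (b : ℕ) {k : ℕ} (hk : k < b) : decide (k ∈ cod P b) = P k := by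
  simp [cod, hk]

lemma not_cylC {Z : Om} {A : Finset ℕ} {m : ℕ} (h : Z ∉ cylC A m) :
    ∀ k < m, rt Z k = decide (k ∈ A) := by
  intro k hk
  by_contra h'
  exact h ⟨k, hk, h'⟩

lemma self_not_cylC (X P : Om) (b : ℕ) : jn X P ∉ cylC (cod P b) b := by
  rintro ⟨k, hk, h⟩
  rw [rt_jn, cod_spec P b hk] at h
  exact h rfl

lemma mem_of_not_cylC {W : Op} (hW : ∀ s, IsOpen (W s)) {P : Om} {s : Node} (h : jn X P ∈ W s) :
    ∃ b, ∀ P', jn X P' ∉ cylC (cod P b) b → jn X P' ∈ W s := by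
  obtain ⟨b, hb⟩ := bits_of_isOpen (hW s) h
  refine ⟨b, fun P' hP' => hb _ (jn_agree (fun _ _ => rfl) fun k hk => ?_)⟩
  have := not_cylC hP' k hk
  rw [rt_jn] at this
  rw [this, cod_spec P b hk]

lemma val_of_not_cylC {W : Op} (hW : ∀ s, IsOpen (W s)) {P : Om} {s : Node}
    (h : val W (jn X P) s) :
    ∃ b, ∀ P', jn X P' ∉ cylC (cod P b) b → val W (jn X P') s := by
  rcases h with h | h
  · exact ⟨0, fun _ _ => Or.inl h⟩
  · obtain ⟨b, hb⟩ := mem_of_not_cylC hW h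
    exact ⟨b, fun P' hP' => Or.inr (hb P' hP')⟩

lemma wkl_step (hK : Good K) (hX : Fair K f X) {O : Op} (hO : O ∈ K)
    (hne : ∃ P, jn X P ∉ O []) (m : ℕ) {W : Op} (hW : W ∈ K) :
    ∃ O' ∈ K, O [] ⊆ O' [] ∧ (∃ P, jn X P ∉ O' []) ∧ ∀ P, jn X P ∉ O' [] →
      Ess (m * m) (val W (jn X P)) →
        ∃ s, val W (jn X P) s ∧ s.length = m * m ∧ Real f (gm m) s := by
  by_cases h : ∀ P, jn X P ∉ O [] → Ess (m * m) (val W (jn X P))
  · obtain ⟨s, hs, hl, hr⟩ := hX m (opWkl O W) (hK.wkl O hO W hW) (ess_opWkl hK hO hW h)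
    obtain ⟨P0, hP0⟩ := hne
    have : ∃ t, Sub t s ∧ val W (jn X P0) t := by
      rcases hs with rfl | hs
      · exact ⟨[], Sub.refl _, Or.inl rfl⟩
      · rcases hs P0 with h' | ⟨t, ht, h'⟩
        · exact absurd h' hP0
        · exact ⟨t, ht, Or.inr h'⟩
    obtain ⟨t, ht, h1⟩ := this
    obtain ⟨b, hb⟩ := val_of_not_cylC (hK.isOpen W hW) h1
    refine ⟨opCyl (cod P0 b) b O, hK.cyl _ _ O hO, subset_union_left, ⟨P0, ?_⟩, ?_⟩
    · rintro (h' | h')
      · exact hP0 h'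
      · exact self_not_cylC X P0 b h'
    · intro P hP _
      refine ⟨t, hb P fun h' => hP (Or.inr h'), by rw [ht.1, hl], hr.sub ht⟩
  · push Not at h
    obtain ⟨P0, hP0, h0⟩ := h
    unfold Ess at h0
    push Not at h0
    obtain ⟨s, hs, hl, n, hn⟩ := h0
    obtain ⟨b, hb⟩ := val_of_not_cylC (hK.isOpen W hW) hs
    refine ⟨opNeg (cod P0 b) b s n O W, hK.neg _ _ _ _ O hO W hW,
      subset_union_left.trans subset_union_left, ⟨P0, ?_⟩, ?_⟩
    · rintro ((h' | h') | ⟨R, hR, h'⟩)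
      · exact hP0 h'
      · exact self_not_cylC X P0 b h'
      · exact hn R hR (val_cons.2 h')
    · intro P hP hE
      exfalso
      obtain ⟨R, hR, h'⟩ := hE s (hb P fun h' => hP (Or.inl (Or.inr h'))) hl n
      exact hP (Or.inr ⟨R, hR, val_cons.1 h'⟩)

structure WC (K : Set Op) (X : Om) where
  O : Op
  mem : O ∈ K
  ne : ∃ P, jn X P ∉ O []

instance : Preorder (WC K X) where
  le a b := a.O [] ⊆ b.O []
  le_refl _ := Subset.rfl
  le_trans _ _ _ := Subset.trans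

theorem fair_wkl (hK : Good K) (hX : Fair K f X) {O : Op} (hO : O ∈ K)
    (hne : ∃ P, jn X P ∉ O []) : ∃ P, jn X P ∉ O [] ∧ Fair K f (jn X P) := by
  haveI : Countable K := hK.ctbl.to_subtype
  letI : Encodable K := Encodable.ofCountable K
  let D : ℕ × K → Order.Cofinal (WC K X) := fun i =>
    { carrier := {c | ∀ P, jn X P ∉ c.O [] → Ess (i.1 * i.1) (val i.2.1 (jn X P)) →
        ∃ s, val i.2.1 (jn X P) s ∧ s.length = i.1 * i.1 ∧ Real f (gm i.1) s}
      isCofinal := by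
        intro c
        obtain ⟨O', h1, h2, h3, h4⟩ := wkl_step hK hX c.mem c.ne i.1 i.2.2
        exact ⟨⟨O', h1, h3⟩, h4, h2⟩ }
  let seq := Order.sequenceOfCofinals (⟨O, hO, hne⟩ : WC K X) D
  have hmono : Monotone seq := Order.sequenceOfCofinals.monotone _ _
  let C : ℕ → Set Om := fun n => {P | jn X P ∉ (seq n).O []}
  have hC : (⋂ n, C n).Nonempty := by
    refine IsCompact.nonempty_iInter_of_sequence_nonempty_isCompact_isClosed C ?_ ?_ ?_ ?_
    · intro n P hP hP'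
      exact hP (hmono (Nat.le_succ n) hP')
    · intro n
      exact (seq n).ne
    · have : IsClosed (C 0) :=
        ((hK.isOpen _ (seq 0).mem []).preimage (continuous_jn_right X)).isClosed_compl
      exact this.isCompact
    · intro n
      exact ((hK.isOpen _ (seq n).mem []).preimage (continuous_jn_right X)).isClosed_compl
  obtain ⟨P, hP⟩ := hC
  rw [mem_iInter] at hP
  refine ⟨P, hP 0, ?_⟩
  intro m W hW hE
  have h5 := Order.sequenceOfCofinals.encode_mem (⟨O, hO, hne⟩ : WC K X) D (m, ⟨W, hW⟩)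
  exact h5 P (hP _) hE

end H860EM
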